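import Pool.Agent.H520Z.Sel.Defs

set_option autoImplicit false

namespace Pool.Agent.H520Z.Sel

open Filter Topology Set Complex

theorem order_isBigO {f : ℂ → ℂ} {a b A K : ℝ} (hab : a < b)
    (h : ∀ s : ℂ, a ≤ s.re → s.re ≤ b → ‖f s‖ ≤ K * Real.exp (K * (1 + |s.im|) ^ A)) :
    ∃ c < Real.pi / (b - a), ∃ B, f =O[comap (_root_.abs ∘ Complex.im) atTop ⊓ 𝓟 (re ⁻¹' Ioo a b)]
      fun z => Real.exp (B * Real.exp (c * |z.im|)) := by
  have hpi := Real.pi_pos
  have hba : 0 < b - a := by linarith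
  set c : ℝ := Real.pi / (2 * (b - a)) with hc
  have hc0 : 0 < c := by positivity
  set c' : ℝ := c / (|A| + 1) with hc'
  have hc'0 : 0 < c' := by positivity
  have hc'c : c' * |A| ≤ c := by
    rw [hc', div_mul_eq_mul_div, div_le_iff₀ (by positivity)]
    nlinarith [abs_nonneg A]
  have hpoly : ∀ u : ℝ, 0 ≤ u → K * (1 + u) ^ A ≤ |K| * (1 + 1 / c') ^ |A| * Real.exp (c * u) := by
    intro u hu
    have h1 : 1 + u ≤ (1 + 1 / c') * Real.exp (c' * u) := by
      have h2 := Real.add_one_le_exp (c' * u)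
      have h3 : 1 ≤ Real.exp (c' * u) := Real.one_le_exp (by positivity)
      have h4 : u ≤ (1 / c') * Real.exp (c' * u) := by
        rw [one_div, inv_mul_eq_div, le_div_iff₀ hc'0]
        linarith
      linarith
    have h5 : (1 + u) ^ A ≤ (1 + 1 / c') ^ |A| * Real.exp (c * u) := by
      calc (1 + u) ^ A ≤ (1 + u) ^ |A| :=
            Real.rpow_le_rpow_of_exponent_le (by linarith) (le_abs_self A)
        _ ≤ ((1 + 1 / c') * Real.exp (c' * u)) ^ |A| :=
            Real.rpow_le_rpow (by linarith) h1 (abs_nonneg A)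
        _ = (1 + 1 / c') ^ |A| * Real.exp (c' * u * |A|) := by
            rw [Real.mul_rpow (by positivity) (Real.exp_pos _).le, ← Real.exp_mul]
        _ ≤ _ := by
            apply mul_le_mul_of_nonneg_left _ (by positivity)
            apply Real.exp_le_exp.2
            calc c' * u * |A| = (c' * |A|) * u := by ring
              _ ≤ c * u := mul_le_mul_of_nonneg_right hc'c hu
    calc K * (1 + u) ^ A ≤ |K| * (1 + u) ^ A :=
          mul_le_mul_of_nonneg_right (le_abs_self K) (by positivity)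
      _ ≤ |K| * ((1 + 1 / c') ^ |A| * Real.exp (c * u)) :=
          mul_le_mul_of_nonneg_left h5 (abs_nonneg K)
      _ = _ := by ring
  refine ⟨c, ?_, |K| * (1 + 1 / c') ^ |A|, ?_⟩
  · rw [hc]
    apply div_lt_div_of_pos_left hpi hba
    linarith
  · apply Asymptotics.IsBigO.of_bound |K|
    rw [eventually_inf_principal]
    filter_upwards with z hz
    rw [Real.norm_eq_abs, abs_of_pos (Real.exp_pos _)]
    refine (h z hz.1.le hz.2.le).trans ?_
    apply mul_le_mul (le_abs_self K) _ (Real.exp_pos _).le (abs_nonneg K)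
    exact Real.exp_le_exp.2 (hpoly _ (abs_nonneg _))

/-- Phragmen-Lindelof in a strip, for a log-Lipschitz weight `W` (Gaussian localisation). -/
theorem gauss_PL (a b A : ℝ) (hab : a < b) : ∃ C : ℝ, 0 < C ∧
    ∀ (G : ℂ → ℂ) (W : ℝ → ℝ), Differentiable ℂ G →
      (∃ K ρ : ℝ, ∀ w : ℂ, a ≤ w.re → w.re ≤ b → ‖G w‖ ≤ K * Real.exp (K * (1 + |w.im|) ^ ρ)) →
      (∀ u v, W u ≤ W v * Real.exp (A * |u - v|)) →
      (∀ w : ℂ, w.re = a ∨ w.re = b → ‖G w‖ ≤ W w.im) →
      ∀ w : ℂ, a ≤ w.re → w.re ≤ b → ‖G w‖ ≤ C * W w.im := by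
  refine ⟨Real.exp ((b - a) ^ 2 + A ^ 2 / 4), Real.exp_pos _, ?_⟩
  rintro G W hG ⟨K, ρ, hK⟩ hW hb w0 h1 h2
  have hn : ∀ w : ℂ, ‖Complex.exp ((w - w0) ^ 2)‖ =
      Real.exp ((w.re - w0.re) ^ 2 - (w.im - w0.im) ^ 2) := by
    intro w
    rw [Complex.norm_exp]
    congr 1
    simp [sq]
  have hre : ∀ w : ℂ, a ≤ w.re → w.re ≤ b → (w.re - w0.re) ^ 2 ≤ (b - a) ^ 2 := by
    intro w h3 h4
    apply sq_le_sq'
    · linarith
    · linarith
  have hW0 : 0 ≤ W w0.im := by
    have := hb ⟨a, w0.im⟩ (Or.inl rfl)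
    exact (norm_nonneg _).trans this
  have hK0 : 0 ≤ K := by
    have h := hK w0 h1 h2
    by_contra hneg
    push Not at hneg
    have : K * Real.exp (K * (1 + |w0.im|) ^ ρ) < 0 := mul_neg_of_neg_of_pos hneg (Real.exp_pos _)
    linarith [norm_nonneg (G w0)]
  set Φ : ℂ → ℂ := fun w => G w * Complex.exp ((w - w0) ^ 2) with hΦ
  have hΦd : Differentiable ℂ Φ := by
    apply hG.mul
    fun_prop
  have hbd : ∀ w : ℂ, w.re = a ∨ w.re = b →
      ‖Φ w‖ ≤ Real.exp ((b - a) ^ 2 + A ^ 2 / 4) * W w0.im := by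
    intro w hw
    have h3 : a ≤ w.re := by rcases hw with h | h <;> linarith
    have h4 : w.re ≤ b := by rcases hw with h | h <;> linarith
    rw [hΦ]
    simp only [norm_mul, hn]
    calc ‖G w‖ * Real.exp ((w.re - w0.re) ^ 2 - (w.im - w0.im) ^ 2)
        ≤ (W w0.im * Real.exp (A * |w.im - w0.im|)) *
          Real.exp ((w.re - w0.re) ^ 2 - (w.im - w0.im) ^ 2) :=
          mul_le_mul_of_nonneg_right ((hb w hw).trans (hW _ _)) (Real.exp_pos _).le
      _ = Real.exp (A * |w.im - w0.im| + ((w.re - w0.re) ^ 2 - (w.im - w0.im) ^ 2)) * W w0.im := by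
          rw [Real.exp_add]; ring
      _ ≤ _ := by
          apply mul_le_mul_of_nonneg_right _ hW0
          apply Real.exp_le_exp.2
          have h5 := hre w h3 h4
          have h6 : (w.im - w0.im) ^ 2 = |w.im - w0.im| ^ 2 := (sq_abs _).symm
          rw [h6]
          nlinarith [sq_nonneg (|w.im - w0.im| - A / 2)]
  have hbig : ∀ w : ℂ, a ≤ w.re → w.re ≤ b → ‖Φ w‖ ≤
      (K * Real.exp ((b - a) ^ 2)) *
        Real.exp ((K * Real.exp ((b - a) ^ 2)) * (1 + |w.im|) ^ ρ) := by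
    intro w h3 h4
    have he : 1 ≤ Real.exp ((b - a) ^ 2) := Real.one_le_exp (sq_nonneg _)
    rw [hΦ]
    simp only [norm_mul, hn]
    have h5 : Real.exp ((w.re - w0.re) ^ 2 - (w.im - w0.im) ^ 2) ≤ Real.exp ((b - a) ^ 2) := by
      apply Real.exp_le_exp.2
      have := hre w h3 h4
      nlinarith [sq_nonneg (w.im - w0.im)]
    have h6 : Real.exp (K * (1 + |w.im|) ^ ρ) ≤
        Real.exp ((K * Real.exp ((b - a) ^ 2)) * (1 + |w.im|) ^ ρ) := by
      apply Real.exp_le_exp.2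
      apply mul_le_mul_of_nonneg_right _ (by positivity)
      nlinarith
    calc ‖G w‖ * Real.exp ((w.re - w0.re) ^ 2 - (w.im - w0.im) ^ 2)
        ≤ (K * Real.exp (K * (1 + |w.im|) ^ ρ)) * Real.exp ((b - a) ^ 2) :=
          mul_le_mul (hK w h3 h4) h5 (Real.exp_pos _).le (by positivity)
      _ ≤ (K * Real.exp ((K * Real.exp ((b - a) ^ 2)) * (1 + |w.im|) ^ ρ)) *
            Real.exp ((b - a) ^ 2) := by gcongr
      _ = _ := by ring
  have key := PhragmenLindelof.vertical_strip (f := Φ) (a := a) (b := b)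
    (C := Real.exp ((b - a) ^ 2 + A ^ 2 / 4) * W w0.im) (z := w0) hΦd.diffContOnCl
    (order_isBigO hab hbig) (fun z hz => hbd z (Or.inl hz)) (fun z hz => hbd z (Or.inr hz)) h1 h2
  simpa [hΦ] using key

end Pool.Agent.H520Z.Sel
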