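import Pool.Agent.H520Z.Sel.Euler
import Pool.Agent.H949Z.Hecke.Main

set_option autoImplicit false

namespace Pool.Agent.H520Z.Sel

open MeasureTheory Set Filter Topology

lemma log_le_rpow_ev (A ε : ℝ) (hε : 0 < ε) :
    ∃ P : ℕ, ∀ p : ℕ, P ≤ p → A + Real.log p ≤ (p : ℝ) ^ ε := by
  have h1 := (isLittleO_log_rpow_atTop hε).bound (c := 1 / 2) (by norm_num)
  have h2 := (tendsto_rpow_atTop hε).eventually_ge_atTop (2 * A)
  have h3 := tendsto_natCast_atTop_atTop (R := ℝ) |>.eventually (h1.and h2)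
  obtain ⟨P, hP⟩ := eventually_atTop.1 h3
  refine ⟨P, fun p hp => ?_⟩
  obtain ⟨h4, h5⟩ := hP p hp
  rw [Real.norm_of_nonneg (by positivity : (0 : ℝ) ≤ (p : ℝ) ^ ε), Real.norm_eq_abs] at h4
  have := le_abs_self (Real.log p)
  linarith

lemma one_add_log_le (θ : ℝ) (hθ : 0 < θ) (n : ℕ) (hn : 1 ≤ n) :
    1 + Real.log n ≤ (1 + 1 / θ) * (n : ℝ) ^ θ := by
  have h1 : (1 : ℝ) ≤ n := by exact_mod_cast hn
  have h2 := Real.log_le_rpow_div (x := (n : ℝ)) (by linarith) hθ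
  have h3 : 1 ≤ (n : ℝ) ^ θ := Real.one_le_rpow h1 hθ.le
  have h4 : (n : ℝ) ^ θ / θ = 1 / θ * (n : ℝ) ^ θ := by ring
  linarith

lemma ec_ram (c : ℕ → ℝ) (hc : ∀ p : ℕ, p.Prime → |c p| ≤ 1 + Real.log p) :
    ∀ ε : ℝ, 0 < ε → ∃ C : ℝ, ∀ n : ℕ, 1 ≤ n → |ec c n| ≤ C * (n : ℝ) ^ ε := by
  apply ec_ramanujan
  intro ε hε
  obtain ⟨P, hP⟩ := log_le_rpow_ev 1 ε hε
  exact ⟨P, fun p hp hPp => (hc p hp).trans (hP p hPp)⟩

lemma summable_primes (c : ℕ → ℝ) (hc : ∀ p : ℕ, p.Prime → |c p| ≤ 1 + Real.log p) {σ : ℝ}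
    (hσ : 1 < σ) : Summable fun p : Nat.Primes => |c p| * ((p : ℕ) : ℝ) ^ (-σ) := by
  have hθ : 0 < (σ - 1) / 2 := by linarith
  have h1 : Summable fun p : Nat.Primes => ((p : ℕ) : ℝ) ^ ((σ - 1) / 2 + -σ) :=
    Nat.Primes.summable_rpow.2 (by linarith)
  refine (h1.mul_left (1 + 1 / ((σ - 1) / 2))).of_nonneg_of_le (fun p => by positivity) fun p => ?_
  have hp : (0 : ℝ) < (p : ℕ) := by exact_mod_cast p.2.pos
  rw [Real.rpow_add hp, ← mul_assoc]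
  exact mul_le_mul_of_nonneg_right ((hc p p.2).trans (one_add_log_le _ hθ p p.2.one_lt.le))
    (by positivity)

lemma LSeries_prime (c : ℕ → ℝ) (s : ℂ) :
    LSeries (fun n => if n.Prime then (c n : ℂ) else 0) s =
      ∑' p : Nat.Primes, (c p : ℂ) * ((p : ℕ) : ℂ) ^ (-s) := by
  unfold LSeries
  rw [← tsum_subtype_eq_of_support_subset (s := {p : ℕ | p.Prime})]
  · refine tsum_congr fun p => ?_
    have hp : (p : ℕ).Prime := p.2
    rw [LSeries.term_of_ne_zero hp.ne_zero, if_pos hp, div_eq_mul_inv, ← Complex.cpow_neg]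
  · intro n hn
    by_contra h
    apply hn
    have h' : ¬ n.Prime := h
    simp [LSeries.term, h']

/-- The data of an entire element of the Selberg class with one gamma factor `Γ(lam s)` and
Euler product `exp (∑ c p * p^(-s))`. -/
structure Exo (lam Q : ℝ) (c : ℕ → ℝ) (F : ℂ → ℂ) : Prop where
  lam_pos : 0 < lam
  Q_pos : 0 < Q
  hc : ∀ p : ℕ, p.Prime → |c p| ≤ 1 + Real.log p
  diff : Differentiable ℂ F
  order : ∃ ρ K : ℝ, ∀ s : ℂ, ‖F s‖ ≤ K * Real.exp (‖s‖ ^ ρ)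
  ser : ∀ s : ℂ, 1 < s.re → F s = LSeries (fun n => ((ec c n : ℝ) : ℂ)) s
  fe : ∀ s : ℂ, (∀ n : ℕ, (lam : ℂ) * s ≠ -(n : ℂ)) →
    (∀ n : ℕ, (lam : ℂ) * (1 - starRingEnd ℂ s) ≠ -(n : ℂ)) →
    (Q : ℂ) ^ s * Complex.Gamma ((lam : ℂ) * s) * F s =
      starRingEnd ℂ ((Q : ℂ) ^ (1 - starRingEnd ℂ s) *
        Complex.Gamma ((lam : ℂ) * (1 - starRingEnd ℂ s)) * F (1 - starRingEnd ℂ s))
  strip : ∀ σ₁ σ₂ : ℝ, ∃ M K : ℝ, ∀ s : ℂ, σ₁ ≤ s.re → s.re ≤ σ₂ → ‖F s‖ ≤ K * (1 + |s.im|) ^ M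

theorem exo_of_theta (lam η : ℝ) (hlam : 0 < lam) (hη : 0 < η) (c : ℕ → ℝ)
    (hc : ∀ p : ℕ, p.Prime → |c p| ≤ 1 + Real.log p)
    (hFE : ∀ t : ℝ, 0 < t → ∑' n : ℕ, ec c n * Real.exp (-(t * (η * (n : ℝ) ^ (1 / lam)))) =
      t ^ (-lam) * ∑' n : ℕ, ec c n * Real.exp (-(η * (n : ℝ) ^ (1 / lam) / t))) :
    ∃ F, Exo lam (η ^ (-lam)) c F := by
  obtain ⟨C, hC⟩ := ec_ram c hc 1 one_pos
  obtain ⟨F, h1, h2, h3, h4, h5⟩ := hecke lam η 1 C hlam hη (ec c) (ec_zero c) hC hFE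
  exact ⟨F, hlam, Real.rpow_pos_of_pos hη _, hc, h1, h2, fun s hs => h3 s (by linarith)
    (LSeries_ec c s (summable_primes c hc hs)).LSeriesSummable, h4, h5⟩

lemma ne_neg_nat {lam : ℝ} (hlam : 0 < lam) {s : ℂ} (hs : 0 < s.re) (n : ℕ) :
    (lam : ℂ) * s ≠ -(n : ℂ) := by
  intro h
  have h1 := congrArg Complex.re h
  simp at h1
  have h2 : 0 < lam * s.re := by positivity
  have h3 : (0 : ℝ) ≤ n := Nat.cast_nonneg n
  linarith

lemma Exo.euler {lam Q : ℝ} {c : ℕ → ℝ} {F : ℂ → ℂ} (h : Exo lam Q c F) (s : ℂ) (hs : 1 < s.re) :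
    LSeries (fun n => ((ec c n : ℝ) : ℂ)) s =
      Complex.exp (∑' p : Nat.Primes, (c p : ℂ) * ((p : ℕ) : ℂ) ^ (-s)) :=
  (LSeries_ec c s (summable_primes c h.hc hs)).LSeries_eq

lemma Exo.isSel {lam Q : ℝ} {c : ℕ → ℝ} {F : ℂ → ℂ} (h : Exo lam Q c F) :
    IsSel (fun n => ((ec c n : ℝ) : ℂ)) := by
  refine ⟨by simp [ec_one], ?_, ⟨0, F, h.diff, h.order, fun s hs => by simp [h.ser s hs],
    Q, h.Q_pos, 1, fun _ => lam, fun _ => 0, 1, fun _ => h.lam_pos, fun _ => by simp, norm_one,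
    fun s h0 h1 => ?_⟩, fun n => if n.Prime then (c n : ℂ) else 0, fun n hn => ?_, 1 / 4,
    by norm_num, 1 + 1 / (1 / 4), fun n hn => ?_, fun s hs => ?_⟩
  · intro ε hε
    obtain ⟨C, hC⟩ := ec_ram c h.hc ε hε
    exact ⟨C, fun n hn => by simpa using hC n hn⟩
  · have := h.fe s (ne_neg_nat h.lam_pos h0) (ne_neg_nat h.lam_pos (by simp; linarith))
    simpa using this
  · have : ¬ n.Prime := fun hp => hn hp.isPrimePow
    simp [this]
  · beta_reduce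
    split_ifs with hp
    · rw [Complex.norm_real, Real.norm_eq_abs]
      exact (h.hc n hp).trans (one_add_log_le _ (by norm_num) n hn)
    · simp only [norm_zero]
      positivity
  · rw [h.euler s hs, LSeries_prime]

/-- Convolution rearrangement. -/
lemma hasSum_conv (x z : ℕ → ℝ) (hx : ∀ p : ℕ, p.Prime → |x p| ≤ 1 + Real.log p)
    (hz : ∀ p : ℕ, p.Prime → |z p| ≤ 1 + Real.log p) (φ : ℕ → ℝ) (K : ℝ)
    (hφ : ∀ n : ℕ, 1 ≤ n → |φ n| ≤ K * (n : ℝ) ^ (-3 : ℝ)) :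
    HasSum (fun n => ec x n * ∑' m, ec z m * φ (n * m))
      (∑' N, ec (fun p => x p + z p) N * φ N) := by
  have h1 : ∀ c : ℕ → ℝ, (∀ p : ℕ, p.Prime → |c p| ≤ 1 + Real.log p) →
      Summable fun n => |ec c n| * (n : ℝ) ^ (-3 : ℝ) := by
    intro c hc
    have := (LSeries_ec c 3 (by simpa using summable_primes c hc (σ := 3) (by norm_num))
      ).LSeriesSummable.norm
    refine this.congr fun n => ?_
    rw [LSeries.norm_term_eq]
    split_ifs with hn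
    · simp [hn, ec_zero]
    · rw [Real.rpow_neg (Nat.cast_nonneg _), Complex.norm_real, Real.norm_eq_abs, div_eq_mul_inv]
      simp
  have h2 := (summable_mul_of_summable_norm (R := ℝ) (h1 x hx).norm (h1 z hz).norm).mul_left K
  have h3 : Summable fun q : ℕ × ℕ => ec x q.1 * (ec z q.2 * φ (q.1 * q.2)) := by
    refine Summable.of_norm_bounded h2 fun q => ?_
    rcases Nat.eq_zero_or_pos q.1 with h | h
    · simp [h, ec_zero]
    rcases Nat.eq_zero_or_pos q.2 with h' | h'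
    · simp [h', ec_zero]
    have h4 := hφ (q.1 * q.2) (Nat.mul_pos h h')
    rw [Nat.cast_mul, Real.mul_rpow (Nat.cast_nonneg _) (Nat.cast_nonneg _)] at h4
    rw [Real.norm_eq_abs, abs_mul, abs_mul]
    calc _ ≤ |ec x q.1| * (|ec z q.2| * (K * ((q.1 : ℝ) ^ (-3 : ℝ) * (q.2 : ℝ) ^ (-3 : ℝ)))) := by
          gcongr
      _ = _ := by ring
  have h5 := h3.hasSum.tsum_fiberwise (fun p : ℕ × ℕ => p.1 * p.2)
  have h6 : ∀ N : ℕ, ∑' (b : (fun p : ℕ × ℕ ↦ p.1 * p.2) ⁻¹' {N}),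
      ec x b.val.1 * (ec z b.val.2 * φ (b.val.1 * b.val.2)) =
      ec (fun p => x p + z p) N * φ N := by
    intro N
    rcases eq_or_ne N 0 with rfl | hN
    · have : ∀ p : (fun p : ℕ × ℕ ↦ p.1 * p.2) ⁻¹' {0},
          ec x p.val.1 * (ec z p.val.2 * φ (p.val.1 * p.val.2)) = 0 := by
        rintro ⟨⟨a, b⟩, hp⟩
        have hp' : a * b = 0 := hp
        rcases Nat.mul_eq_zero.1 hp' with rfl | rfl <;> simp [ec_zero]
      simp [this, ec_zero]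
    rw [show (fun p : ℕ × ℕ ↦ p.1 * p.2) ⁻¹' {N} = N.divisorsAntidiagonal by ext; simp [hN],
      Finset.tsum_subtype' N.divisorsAntidiagonal
        fun p ↦ ec x p.1 * (ec z p.2 * φ (p.1 * p.2)), ec_add, Finset.sum_mul]
    refine Finset.sum_congr rfl fun p hp => ?_
    rw [(Nat.mem_divisorsAntidiagonal.1 hp).1]
    ring
  simp_rw [h6] at h5
  rw [h5.tsum_eq]
  refine h3.hasSum.prod_fiberwise fun n => ?_
  simp only
  rw [← tsum_mul_left]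
  exact (h3.prod_factor n).hasSum

lemma exp_decay (a lam : ℝ) (ha : 0 < a) (hlam : 0 < lam) : ∃ K : ℝ, ∀ n : ℕ, 1 ≤ n →
    |Real.exp (-(a * (n : ℝ) ^ (1 / lam)))| ≤ K * (n : ℝ) ^ (-3 : ℝ) := by
  obtain ⟨m, hm⟩ := exists_nat_ge (3 * lam)
  refine ⟨(m.factorial : ℝ) / a ^ m, fun n hn => ?_⟩
  have h1 : (1 : ℝ) ≤ n := by exact_mod_cast hn
  have h2 := Real.pow_div_factorial_le_exp (a * (n : ℝ) ^ (1 / lam)) (by positivity) m
  have h3 : (n : ℝ) ^ (3 : ℝ) ≤ ((n : ℝ) ^ (1 / lam)) ^ m := by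
    rw [← Real.rpow_natCast, ← Real.rpow_mul (by linarith)]
    apply Real.rpow_le_rpow_of_exponent_le h1
    rw [one_div, inv_mul_eq_div, le_div_iff₀ hlam]
    exact hm
  have hf : (0 : ℝ) < m.factorial := by exact_mod_cast m.factorial_pos
  rw [abs_of_pos (Real.exp_pos _), Real.exp_neg, Real.rpow_neg (by linarith),
    ← div_eq_mul_inv, div_div, ← inv_div (a ^ m * (n : ℝ) ^ (3 : ℝ))]
  apply inv_anti₀ (by positivity)
  refine le_trans ?_ h2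
  rw [mul_pow]
  gcongr

end Pool.Agent.H520Z.Sel
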