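import Pool.Agent.H520Z.Sel.Defs3

set_option autoImplicit false

namespace Pool.Agent.H520Z.Sel

/-- The multiplicative function with value `Φ p k` at `p ^ k`. -/
noncomputable def mc (Φ : ℕ → ℕ → ℝ) (n : ℕ) : ℝ :=
  if n = 0 then 0 else n.factorization.prod fun p k => Φ p k

/-- The archimedean factor `∏ Γ_ℝ (s - μ j)`. -/
noncomputable def gamR {m : ℕ} (μ : Fin m → ℝ) (s : ℂ) : ℂ :=
  ∏ j, Complex.Gammaℝ (s - (μ j : ℂ))

end Pool.Agent.H520Z.Sel
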