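import Mathlib

set_option autoImplicit false

namespace Pool.Agent.H520Z.Sel

/-- `InA F d`: the function `F` lies in the class `𝒜^#` and has degree `d`. -/
def InA (F : ℂ → ℂ) (d : ℝ) : Prop :=
  Meromorphic F ∧
  (∃ (a : ℕ → ℂ) (σ₀ : ℝ), (∃ n : ℕ, 1 ≤ n ∧ a n ≠ 0) ∧
    ∀ s : ℂ, σ₀ < s.re → LSeriesSummable a s ∧ F s = LSeries a s) ∧
  (∃ (P : Polynomial ℂ) (H : ℂ → ℂ), P ≠ 0 ∧ Differentiable ℂ H ∧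
    (∀ᶠ s in Filter.codiscrete ℂ, H s = P.eval s * F s) ∧
    ∀ σ₁ σ₂ : ℝ, ∃ M K : ℝ, ∀ s : ℂ, σ₁ ≤ s.re → s.re ≤ σ₂ → ‖H s‖ ≤ K * (1 + |s.im|) ^ M) ∧
  (∃ (Q : ℝ) (ω : ℂ) (r r' : ℕ) (lam : Fin r → ℝ) (μ : Fin r → ℂ) (lam' : Fin r' → ℝ)
    (μ' : Fin r' → ℂ) (Φ : ℂ → ℂ), 0 < Q ∧ ‖ω‖ = 1 ∧ (∀ j, 0 < lam j) ∧ (∀ j, 0 < lam' j) ∧
    (∀ s : ℂ, Φ s = (Q : ℂ) ^ s * ((∏ j, Complex.Gamma ((lam j : ℂ) * s + μ j)) *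
      ∏ j, (Complex.Gamma ((lam' j : ℂ) * s + μ' j))⁻¹) * F s) ∧
    (∀ᶠ s in Filter.codiscrete ℂ, Φ s = ω * starRingEnd ℂ (Φ (1 - starRingEnd ℂ s))) ∧
    d = 2 * ∑ j, lam j - 2 * ∑ j, lam' j)

end Pool.Agent.H520Z.Sel
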