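import Pool.Agent.H936Z.Sampling

set_option autoImplicit false

open MeasureTheory Set Filter Topology

namespace Pool.Agent.H520Z.Sel

open Pool.Agent.H936Z.Samp

theorem sampling_fun (V : Submodule ℝ (ℝ → ℝ)) (c c1 C0 α : ℝ) (hc1 : 0 < c1) (hc : c1 < c - 1)
    (hC0 : 0 ≤ C0) (hα : 0 < α) (hα' : α * (c - c1) ≤ 1) (hP : Poin V c c1 C0)
    (hD : ∀ h ∈ V, ∃ K : ℝ, ∀ y, 0 < y → (y ^ (c + 1) + y ^ (c - 1)) * |h y| ≤ K) :
    ∃ ε C : ℝ, 0 < ε ∧ 0 ≤ C ∧ ∀ S : ℕ → V →ₗ[ℝ] ℝ,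
      (∀ (j : ℕ) (h : V), ∃ y₁ ∈ Icc (ε * ((j : ℝ) + 1) ^ α) (ε * ((j : ℝ) + 2) ^ α),
        ∃ y₂ ∈ Icc (ε * ((j : ℝ) + 1) ^ α) (ε * ((j : ℝ) + 2) ^ α),
          (h : ℝ → ℝ) y₁ ≤ S j h ∧ S j h ≤ (h : ℝ → ℝ) y₂) →
      ∀ (φ : V →ₗ[ℝ] ℝ) (M : ℝ), 0 ≤ M →
        (∀ (h : V) (N : ℝ), (∀ y, 0 < y → (y ^ c + y ^ (c - 1)) * |(h : ℝ → ℝ) y| ≤ N) →
          |φ h| ≤ M * N) → ∃ r : ℕ → ℝ,
        Summable (fun j : ℕ => |r j| * (ε * ((j : ℝ) + 1) ^ α) ^ (-c)) ∧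
        ∑' j : ℕ, |r j| * (ε * ((j : ℝ) + 1) ^ α) ^ (-c) ≤ C * M ∧
        ∀ h : V, HasSum (fun j => r j * S j h) (φ h) := by
  set d := c - c1 - 1 with hdd
  have hd0 : 0 < d := by linarith
  set A := (2 ^ (c + 1) + 2 / c1) * C0 with hA
  have hA0 : 0 ≤ A := by positivity
  obtain ⟨ε, hε, hε1, hεA⟩ : ∃ ε : ℝ, 0 < ε ∧ ε ≤ 1 ∧ ε ^ d * A ≤ 1 / 2 := by
    have hx : (0 : ℝ) < 1 / (2 * (A + 1)) := by positivity
    refine ⟨(1 / (2 * (A + 1))) ^ d⁻¹, by positivity, ?_, ?_⟩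
    · apply Real.rpow_le_one hx.le _ (by positivity)
      rw [div_le_one (by positivity)]; linarith
    · rw [Real.rpow_inv_rpow hx.le hd0.ne', div_mul_eq_mul_div, div_le_iff₀ (by positivity)]
      linarith
  set C1 := 2 ^ c * (1 + 1 / ε) with hC1
  have hC10 : 0 ≤ C1 := by positivity
  refine ⟨ε, 2 * C1, hε, by positivity, fun S hS φ M0 hM0 hφ => ?_⟩
  have hY : ∀ j : ℕ, 0 < ε * ((j : ℝ) + 1) ^ α := fun j => by positivity
  let T : ℕ → V →ₗ[ℝ] ℝ := fun j => (ε * ((j : ℝ) + 1) ^ α) ^ c • S j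
  have hT : ∀ j h, T j h = (ε * ((j : ℝ) + 1) ^ α) ^ c * S j h := fun j h => rfl
  have hT0 : ∀ h, Tendsto (fun j => T j h) atTop (𝓝 0) := by
    intro h
    obtain ⟨K, hK⟩ := hD h h.2
    have ht : Tendsto (fun j : ℕ => ε * ((j : ℝ) + 1) ^ α) atTop atTop :=
      ((tendsto_rpow_atTop hα).comp
        (tendsto_atTop_add_const_right _ 1 tendsto_natCast_atTop_atTop)).const_mul_atTop hε
    refine squeeze_zero_norm (fun j => ?_) (ht.const_div_atTop K)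
    set Y := ε * ((j : ℝ) + 1) ^ α with hYd
    have hY0 : 0 < Y := hY j
    have key : ∀ z, Y ≤ z → Y ^ c * |(h : ℝ → ℝ) z| ≤ K / Y := by
      intro z hz
      have hz0 := hY0.trans_le hz
      rw [le_div_iff₀ hY0]
      refine le_trans ?_ (hK z hz0)
      have e : Y ^ c * |(h : ℝ → ℝ) z| * Y = Y ^ (c + 1) * |(h : ℝ → ℝ) z| := by
        rw [Real.rpow_add_one hY0.ne']; ring
      rw [e]
      gcongr
      have a1 : Y ^ (c + 1) ≤ z ^ (c + 1) := Real.rpow_le_rpow hY0.le hz (by linarith)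
      have a2 : 0 ≤ z ^ (c - 1) := by positivity
      linarith
    obtain ⟨y₁, hy₁, y₂, hy₂, h1, h2⟩ := hS j h
    have k1 := key y₁ hy₁.1
    have k2 := key y₂ hy₂.1
    have hYc : 0 < Y ^ c := by positivity
    rw [hT, Real.norm_eq_abs, abs_le]
    constructor
    · nlinarith [neg_abs_le ((h : ℝ → ℝ) y₁)]
    · nlinarith [le_abs_self ((h : ℝ → ℝ) y₂)]
  have hmain : ∀ (h : V) (M : ℝ), (∀ j, |T j h| ≤ M) →
      ∀ z, 0 < z → (z ^ c + z ^ (c - 1)) * |(h : ℝ → ℝ) z| ≤ 2 * C1 * M := by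
    intro h M hM
    obtain ⟨K, hK⟩ := hD h h.2
    obtain ⟨h', hd, -, hP'⟩ := hP h h.2
    let Z : Set ℝ := {x | ∃ z, 0 < z ∧ x = (z ^ c + z ^ (c - 1)) * |(h : ℝ → ℝ) z|}
    have hZb : BddAbove Z := by
      refine ⟨2 * K, ?_⟩
      rintro _ ⟨z, hz, rfl⟩
      have e1 : z ^ c = z ^ (c - 1) * z := by
        rw [← Real.rpow_add_one hz.ne']; congr 1; ring
      have e2 : z ^ (c + 1) = z ^ (c - 1) * z * z := by
        rw [Real.rpow_add_one hz.ne', e1]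
      have a1 : 0 < z ^ (c - 1) := by positivity
      have a2 : z ^ c + z ^ (c - 1) ≤ 2 * (z ^ (c + 1) + z ^ (c - 1)) := by
        rw [e2, e1]
        nlinarith [mul_nonneg a1.le (sq_nonneg (z - 1)), mul_pos a1 (mul_pos hz hz)]
      calc _ ≤ 2 * (z ^ (c + 1) + z ^ (c - 1)) * |(h : ℝ → ℝ) z| := by gcongr
        _ = 2 * ((z ^ (c + 1) + z ^ (c - 1)) * |(h : ℝ → ℝ) z|) := by ring
        _ ≤ 2 * K := by gcongr; exact hK z hz
    set N := sSup Z with hN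
    have hNle : ∀ z, 0 < z → (z ^ c + z ^ (c - 1)) * |(h : ℝ → ℝ) z| ≤ N :=
      fun z hz => le_csSup hZb ⟨z, hz, rfl⟩
    have hN0 : 0 ≤ N := le_trans (by positivity) (hNle 1 one_pos)
    have hK' := hP' N hNle
    have hbig : ∀ z, ε ≤ z → (z ^ c + z ^ (c - 1)) * |(h : ℝ → ℝ) z| ≤
        C1 * M + 2 ^ (c + 1) * ε ^ d * (C0 * N) := by
      intro z hz
      obtain ⟨j, hj⟩ := exists_cell hε hα hz
      exact cell_bound hc1 hc hα hα' hε hε1 hd hK' j (hS j h) (hM j) hj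
    have hall : ∀ z, 0 < z → (z ^ c + z ^ (c - 1)) * |(h : ℝ → ℝ) z| ≤
        C1 * M + ε ^ d * A * N := by
      intro z hz
      have e : ε ^ d * A * N = 2 ^ (c + 1) * ε ^ d * (C0 * N) + 2 * ε ^ d * (C0 * N) / c1 := by
        rw [hA]; ring
      have a0 : 0 ≤ 2 * ε ^ d * (C0 * N) / c1 := by positivity
      rcases le_total ε z with hzε | hzε
      · have := hbig z hzε
        linarith
      · have b1 := hbig ε le_rfl
        have b2 := far_bound hc1 hz hzε hd hK'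
        have b3 : |(h : ℝ → ℝ) z| ≤ |(h : ℝ → ℝ) ε| + C0 * N * z ^ (-c1) / c1 := by
          have := abs_sub_abs_le_abs_sub ((h : ℝ → ℝ) z) ((h : ℝ → ℝ) ε)
          rw [abs_sub_comm] at b2
          linarith
        have b4 : z ^ c + z ^ (c - 1) ≤ ε ^ c + ε ^ (c - 1) :=
          add_le_add (Real.rpow_le_rpow hz.le hzε (by linarith))
            (Real.rpow_le_rpow hz.le hzε (by linarith))
        have b5 : (z ^ c + z ^ (c - 1)) * z ^ (-c1) ≤ 2 * ε ^ d := by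
          have e1 : z ^ (c - 1) * z ^ (-c1) = z ^ d := by
            rw [← Real.rpow_add hz]; congr 1; rw [hdd]; ring
          have a1 : z ^ c ≤ z ^ (c - 1) :=
            Real.rpow_le_rpow_of_exponent_ge hz (hzε.trans hε1) (by linarith)
          have a2 : z ^ d ≤ ε ^ d := Real.rpow_le_rpow hz.le hzε hd0.le
          calc _ ≤ (z ^ (c - 1) + z ^ (c - 1)) * z ^ (-c1) := by gcongr
            _ = 2 * z ^ d := by rw [add_mul, e1]; ring
            _ ≤ _ := by gcongr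
        calc (z ^ c + z ^ (c - 1)) * |(h : ℝ → ℝ) z|
            ≤ (z ^ c + z ^ (c - 1)) * (|(h : ℝ → ℝ) ε| + C0 * N * z ^ (-c1) / c1) := by gcongr
          _ = (z ^ c + z ^ (c - 1)) * |(h : ℝ → ℝ) ε| +
              ((z ^ c + z ^ (c - 1)) * z ^ (-c1)) * (C0 * N) / c1 := by ring
          _ ≤ (ε ^ c + ε ^ (c - 1)) * |(h : ℝ → ℝ) ε| + (2 * ε ^ d) * (C0 * N) / c1 := by gcongr
          _ ≤ _ := by linarith
    have hNup : N ≤ C1 * M + ε ^ d * A * N := by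
      have hZne : Z.Nonempty := ⟨_, 1, one_pos, rfl⟩
      apply csSup_le hZne
      rintro _ ⟨z, hz, rfl⟩
      exact hall z hz
    have : ε ^ d * A * N ≤ 1 / 2 * N := by gcongr
    intro z hz
    have := hNle z hz
    linarith
  obtain ⟨r, hr1, hr2, hr3⟩ := dual_rep T hT0 φ (2 * C1 * M0) (by positivity) (fun h M hM => by
      have := hφ h _ (hmain h M hM)
      linarith)
  have e : ∀ j : ℕ, |r j * (ε * ((j : ℝ) + 1) ^ α) ^ c| * (ε * ((j : ℝ) + 1) ^ α) ^ (-c) =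
      |r j| := by
    intro j
    rw [abs_mul, abs_of_pos (Real.rpow_pos_of_pos (hY j) c), mul_assoc,
      ← Real.rpow_add (hY j), add_neg_cancel, Real.rpow_zero, mul_one]
  refine ⟨fun j => r j * (ε * ((j : ℝ) + 1) ^ α) ^ c, ?_, ?_, fun h => ?_⟩
  · simpa only [e] using hr1
  · simpa only [e] using hr2
  · have := hr3 h
    simp only [hT, ← mul_assoc] at this
    exact this

end Pool.Agent.H520Z.Sel
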