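import Pool.Agent.H520Z.Sel.Blocks
import Pool.Agent.H404Z.Sel.Contraction
import Pool.Agent.H520Z.Sel.SampF

set_option autoImplicit false

namespace Pool.Agent.H520Z.Sel

open MeasureTheory Set Filter Topology

/-- average of the values at the nodes of the primes of a block -/
noncomputable def avgL (V : Submodule ℝ (ℝ → ℝ)) (B : Finset ℕ) (y : ℕ → ℝ) : V →ₗ[ℝ] ℝ :=
  ((B.card : ℝ)⁻¹) • ∑ p ∈ B, (LinearMap.proj (R := ℝ) (φ := fun _ : ℝ => ℝ) (y p)).comp V.subtype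

lemma avgL_apply (V : Submodule ℝ (ℝ → ℝ)) (B : Finset ℕ) (y : ℕ → ℝ) (h : V) :
    avgL V B y h = (∑ p ∈ B, (h : ℝ → ℝ) (y p)) / (B.card : ℝ) := by
  simp [avgL, div_eq_inv_mul]

lemma avg_between (B : Finset ℕ) (hB : B.Nonempty) (f : ℕ → ℝ) :
    ∃ p ∈ B, ∃ q ∈ B, f p ≤ (∑ p ∈ B, f p) / (B.card : ℝ) ∧ (∑ p ∈ B, f p) / (B.card : ℝ) ≤ f q := by
  obtain ⟨p, hp, hp'⟩ := B.exists_min_image f hB
  obtain ⟨q, hq, hq'⟩ := B.exists_max_image f hB
  have hc : (0 : ℝ) < B.card := by exact_mod_cast hB.card_pos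
  refine ⟨p, hp, q, hq, ?_, ?_⟩
  · rw [le_div_iff₀ hc]
    have := Finset.card_nsmul_le_sum B f (f p) hp'
    rw [nsmul_eq_mul] at this
    linarith
  · rw [div_le_iff₀ hc]
    have := Finset.sum_le_card_nsmul B f (f q) hq'
    rw [nsmul_eq_mul] at this
    linarith

theorem assemble (γ : ℝ) (hγ : γ < 1) : ∃ L : ℕ, 1 ≤ L ∧
    ∀ (V : Submodule ℝ (ℝ → ℝ)) (lam c c1 C0 : ℝ), 0 < c1 → c1 < c - 1 → 0 ≤ C0 →
      (L : ℝ) * (c - c1) ≤ lam → c ≤ γ * lam → Poin V c c1 C0 →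
      (∀ h ∈ V, ∃ K : ℝ, ∀ y, 0 < y → (y ^ (c + 1) + y ^ (c - 1)) * |h y| ≤ K) →
      ∃ η0 : ℝ, 0 < η0 ∧ ∃ δ : ℝ, 0 < δ ∧ ∀ η : ℝ, 0 < η → η ≤ η0 → ∀ ℓ : V →ₗ[ℝ] ℝ,
        (∀ (h : V) (N : ℝ), (∀ y, 0 < y → (y ^ c + y ^ (c - 1)) * |(h : ℝ → ℝ) y| ≤ N) →
          |ℓ h| ≤ δ * N) →
        ∃ x : ℕ → ℝ, (∀ p, |x p| ≤ 1) ∧ Summable (fun p : ℕ => |x p| * (p : ℝ) ^ (-(c / lam))) ∧
          ∀ h : V, HasSum (fun n : ℕ => ec x n * (h : ℝ → ℝ) (η * (n : ℝ) ^ (1 / lam))) (ℓ h) := by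
  classical
  obtain ⟨L, hL1, R0, hR0, hblk⟩ := prime_blocks γ hγ
  refine ⟨L, hL1, ?_⟩
  intro V lam c c1 C0 hc1 hc hC0 hlamL hcγ hP hD
  have hL1' : (1 : ℝ) ≤ L := by exact_mod_cast hL1
  have hlam1 : 1 < lam := by nlinarith
  have hlam : 0 < lam := by linarith
  have hc0 : 0 < c := by linarith
  set α : ℝ := L / lam with hα
  have hα0 : 0 < α := by positivity
  have hα1 : α * (c - c1) ≤ 1 := by
    rw [hα, div_mul_eq_mul_div, div_le_one hlam]; exact hlamL
  obtain ⟨ε, C, hε, hC, hrep⟩ := sampling_fun V c c1 C0 α hc1 hc hC0 hα0 hα1 hP hD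
  obtain ⟨δ1, hδ1, hcon⟩ := contraction (C + 1) (by positivity)
  obtain ⟨δ0, hδ0, hδ01, hδ02⟩ : ∃ δ0 : ℝ, 0 < δ0 ∧ δ0 ≤ δ1 ∧ δ0 ≤ 1 :=
    ⟨min δ1 1, by positivity, min_le_left _ _, min_le_right _ _⟩
  set τ : ℝ := c / lam with hτ
  have hτ0 : 0 < τ := by positivity
  have hτγ : τ ≤ γ := by rw [hτ, div_le_iff₀ hlam]; exact hcγ
  refine ⟨min (min 1 (ε / R0)) (δ0 / (2 * (C + 1))), by positivity, δ0 / (2 * (C + 1)),
    by positivity, ?_⟩
  intro η hη hη0 ℓ hℓ
  have hη1 : η ≤ 1 := hη0.trans ((min_le_left _ _).trans (min_le_left _ _))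
  have hη2 : η ≤ ε / R0 := hη0.trans ((min_le_left _ _).trans (min_le_right _ _))
  have hη3 : η ≤ δ0 / (2 * (C + 1)) := hη0.trans (min_le_right _ _)
  set R : ℝ := (ε / η) ^ lam with hR
  have hR1 : R0 ≤ ε / η := by
    rw [le_div_iff₀ hη]
    rw [le_div_iff₀ (by linarith)] at hη2
    linarith
  have hRR : R0 ≤ R := by
    calc R0 ≤ ε / η := hR1
      _ = (ε / η) ^ (1 : ℝ) := (Real.rpow_one _).symm
      _ ≤ R := Real.rpow_le_rpow_of_exponent_le (by linarith) hlam1.le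
  have hRpos : 0 < R := by linarith
  set yy : ℕ → ℝ := fun n => η * (n : ℝ) ^ (1 / lam) with hyy
  have hyx : ∀ m : ℝ, 0 < m → η * (R * m ^ L) ^ (1 / lam) = ε * m ^ α := by
    intro m hm
    rw [Real.mul_rpow hRpos.le (by positivity), hR, ← Real.rpow_mul (by positivity),
      mul_one_div_cancel hlam.ne', Real.rpow_one, ← Real.rpow_natCast, ← Real.rpow_mul hm.le, hα]
    field_simp
  set B : ℕ → Finset ℕ := fun j => blk R L j with hB
  set X : ℕ → ℝ := fun j => R * ((j : ℝ) + 1) ^ L with hX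
  have hX1 : ∀ j, 1 ≤ X j := by
    intro j
    have hj : (1 : ℝ) ≤ (j : ℝ) + 1 := by have := Nat.cast_nonneg (α := ℝ) j; linarith
    have := one_le_pow₀ (n := L) hj
    simp only [hX]
    nlinarith
  have hcard : ∀ j, X j ^ τ ≤ ((B j).card : ℝ) := fun j =>
    (Real.rpow_le_rpow_of_exponent_le (hX1 j) hτγ).trans (hblk R hRR j)
  have hXτ : ∀ j, 1 ≤ X j ^ τ := fun j => Real.one_le_rpow (hX1 j) hτ0.le
  have hne : ∀ j, (B j).Nonempty := fun j => by
    rw [← Finset.card_pos]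
    have := (hXτ j).trans (hcard j)
    exact_mod_cast (lt_of_lt_of_le one_pos this : (0 : ℝ) < _)
  have hdisj : ∀ i j, i ≠ j → Disjoint (B i) (B j) := fun i j hij => blk_disjoint hRpos L hij
  set S : ℕ → V →ₗ[ℝ] ℝ := fun j => avgL V (B j) yy with hS
  have hyin : ∀ j, ∀ p ∈ B j,
      yy p ∈ Icc (ε * ((j : ℝ) + 1) ^ α) (ε * ((j : ℝ) + 2) ^ α) := by
    intro j p hp
    obtain ⟨-, h1, h2⟩ := mem_blk hRpos hp
    rw [← hyx _ (by positivity), ← hyx _ (by positivity)]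
    constructor
    · exact mul_le_mul_of_nonneg_left
        (Real.rpow_le_rpow (by positivity) h1.le (by positivity)) hη.le
    · exact mul_le_mul_of_nonneg_left
        (Real.rpow_le_rpow (by positivity) h2 (by positivity)) hη.le
  have hrep' := hrep S (fun j h => by
    obtain ⟨p, hp, q, hq, h1, h2⟩ := avg_between (B j) (hne j) (fun p => (h : ℝ → ℝ) (yy p))
    refine ⟨yy p, hyin j p hp, yy q, hyin j q hq, ?_, ?_⟩
    · simpa only [hS, avgL_apply] using h1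
    · simpa only [hS, avgL_apply] using h2)
  -- weights
  have hYX : ∀ j : ℕ, (X j ^ τ)⁻¹ = η ^ c * (ε * ((j : ℝ) + 1) ^ α) ^ (-c) := by
    intro j
    have hx0 : 0 < X j := lt_of_lt_of_le one_pos (hX1 j)
    rw [← hyx _ (by positivity), Real.mul_rpow hη.le (by positivity), ← mul_assoc,
      ← Real.rpow_add hη, add_neg_cancel, Real.rpow_zero, one_mul, ← Real.rpow_neg hx0.le,
      ← Real.rpow_mul hx0.le, hτ]
    congr 1
    field_simp
  have hyc : ∀ n : ℕ, 1 ≤ n → yy n ^ c = η ^ c * (n : ℝ) ^ τ := by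
    intro n hn
    simp only [hyy]
    rw [Real.mul_rpow hη.le (by positivity), ← Real.rpow_mul (by positivity), hτ]
    congr 2
    field_simp
  have hypos : ∀ n : ℕ, 1 ≤ n → 0 < yy n := by
    intro n hn
    have : (0 : ℝ) < n := by exact_mod_cast hn
    simp only [hyy]
    positivity
  -- functionals
  let evL : ℝ → V →ₗ[ℝ] ℝ := fun y =>
    (LinearMap.proj (R := ℝ) (φ := fun _ : ℝ => ℝ) y).comp V.subtype
  have hevL : ∀ y (h : V), evL y h = (h : ℝ → ℝ) y := fun y h => rfl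
  let φ : ℕ → V →ₗ[ℝ] ℝ := fun n => if n = 1 then evL (yy 1) - ℓ else ((n : ℝ) ^ τ) • evL (yy n)
  have hηc : 0 < η ^ c := Real.rpow_pos_of_pos hη c
  have hφ : ∀ n : ℕ, 1 ≤ n → ∀ (h : V) (N : ℝ),
      (∀ y, 0 < y → (y ^ c + y ^ (c - 1)) * |(h : ℝ → ℝ) y| ≤ N) →
      |φ n h| ≤ (if n = 1 then (δ0 / (C + 1)) else 1) / η ^ c * N := by
    intro n hn h N hN
    have hyn := hypos n hn
    have h1 := hN _ hyn
    have hN0 : 0 ≤ N := le_trans (by positivity) h1
    split_ifs with hn1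
    · subst hn1
      have h2 : yy 1 = η := by simp [hyy]
      simp only [φ, if_true, LinearMap.sub_apply, hevL, h2]
      rw [h2] at h1
      have h3 : η ^ (c - 1) * |(h : ℝ → ℝ) η| ≤ N := by
        have : 0 ≤ η ^ c * |(h : ℝ → ℝ) η| := by positivity
        nlinarith
      have h4 : η ^ (c - 1) = η ^ c / η := by rw [Real.rpow_sub hη, Real.rpow_one]
      have h5 : |(h : ℝ → ℝ) η| ≤ δ0 / (2 * (C + 1)) / η ^ c * N := by
        rw [h4, div_mul_eq_mul_div, div_le_iff₀ hη] at h3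
        rw [div_mul_eq_mul_div, le_div_iff₀ hηc]
        nlinarith
      have h6 : |ℓ h| ≤ δ0 / (2 * (C + 1)) / η ^ c * N := by
        refine (hℓ h N hN).trans (mul_le_mul_of_nonneg_right ?_ hN0)
        rw [le_div_iff₀ hηc]
        have : η ^ c ≤ 1 := Real.rpow_le_one hη.le hη1 hc0.le
        have h7 : 0 < δ0 / (2 * (C + 1)) := by positivity
        nlinarith
      calc _ ≤ |(h : ℝ → ℝ) η| + |ℓ h| := abs_sub _ _
        _ ≤ _ := add_le_add h5 h6
        _ = _ := by field_simp; ring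
    · simp only [φ, hn1, if_false, LinearMap.smul_apply, hevL, smul_eq_mul]
      rw [abs_mul, abs_of_nonneg (by positivity), one_div, inv_mul_eq_div, le_div_iff₀ hηc]
      have h2 : 0 ≤ yy n ^ (c - 1) * |(h : ℝ → ℝ) (yy n)| := by positivity
      have h3 := hyc n hn
      calc _ = yy n ^ c * |(h : ℝ → ℝ) (yy n)| := by rw [h3]; ring
        _ ≤ N := by nlinarith
  have hr : ∀ n : ℕ, ∃ r : ℕ → ℝ, 1 ≤ n → (Summable (fun j => |r j|) ∧
      ∑' j, |r j| ≤ C * (if n = 1 then (δ0 / (C + 1)) else 1) ∧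
      ∀ h : V, HasSum (fun j => r j * (X j ^ τ * S j h)) (φ n h)) := by
    intro n
    by_cases hn : 1 ≤ n
    swap
    · exact ⟨0, fun h => absurd h hn⟩
    obtain ⟨r, hr1, hr2, hr3⟩ := hrep' (φ n) _ (by split_ifs <;> positivity) (hφ n hn)
    have he : ∀ j, |r j * (X j ^ τ)⁻¹| = η ^ c * (|r j| * (ε * ((j : ℝ) + 1) ^ α) ^ (-c)) := by
      intro j
      rw [abs_mul, abs_of_nonneg (a := (X j ^ τ)⁻¹) (by have := hXτ j; positivity), hYX]
      ring
    refine ⟨fun j => r j * (X j ^ τ)⁻¹, fun _ => ⟨?_, ?_, fun h => ?_⟩⟩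
    · simp_rw [he]
      exact hr1.mul_left _
    · simp_rw [he]
      rw [tsum_mul_left]
      calc _ ≤ η ^ c * (C * ((if n = 1 then (δ0 / (C + 1)) else 1) / η ^ c)) :=
            mul_le_mul_of_nonneg_left hr2 hηc.le
        _ = _ := by field_simp
    · convert hr3 h using 2 with j
      have := hXτ j
      field_simp
  choose r hr using hr
  let jj : ℕ → ℕ := fun p => if h : ∃ j, p ∈ B j then h.choose else 0
  have hjj : ∀ j, ∀ p ∈ B j, jj p = j := by
    intro j p hp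
    have h : ∃ j, p ∈ B j := ⟨j, hp⟩
    simp only [jj, h, dif_pos]
    by_contra hne'
    exact Finset.disjoint_left.1 (hdisj _ _ hne') h.choose_spec hp
  let v : ℕ → ℝ := fun p => X (jj p) ^ τ / (p : ℝ) ^ τ
  have hδC : C * (δ0 / (C + 1)) ≤ δ0 := by
    rw [mul_div_assoc', div_le_iff₀ (by positivity)]
    nlinarith
  have hpX : ∀ j, ∀ p ∈ B j, X j < p := fun j p hp => (mem_blk hRpos hp).2.1
  have hp1 : ∀ j, ∀ p ∈ B j, p ≠ 1 := fun j p hp => (mem_blk hRpos hp).1.one_lt.ne'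
  have hp0 : ∀ j, ∀ p ∈ B j, (0 : ℝ) < (p : ℝ) ^ τ := fun j p hp =>
    Real.rpow_pos_of_pos (by exact_mod_cast (mem_blk hRpos hp).1.pos) _
  obtain ⟨m, u, hm, hu1, hu2, hu3, hu4⟩ := hcon V (fun h n => φ n h) B v r hne
    (fun j p hp => (mem_blk hRpos hp).1) hdisj
    (fun j p hp => by
      simp only [v, hjj j p hp]
      have h1 := hp0 j p hp
      have h2 := hXτ j
      rw [abs_of_nonneg (by positivity), div_le_one h1]
      exact Real.rpow_le_rpow (by linarith [hX1 j]) (hpX j p hp).le hτ0.le)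
    (fun n hn => by
      obtain ⟨h1, h2, -⟩ := hr n hn
      refine ⟨h1, h2.trans ?_⟩
      split_ifs <;> linarith)
    (by
      obtain ⟨-, h2, -⟩ := hr 1 le_rfl
      simp only [if_true] at h2
      exact h2.trans (hδC.trans hδ01))
    (fun h => by
      obtain ⟨K, hK⟩ := hD h h.2
      have hN : ∀ y, 0 < y → (y ^ c + y ^ (c - 1)) * |(h : ℝ → ℝ) y| ≤ 2 * K := by
        intro z hz
        have e1 : z ^ c = z ^ (c - 1) * z := by
          rw [← Real.rpow_add_one hz.ne']; congr 1; ring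
        have e2 : z ^ (c + 1) = z ^ (c - 1) * z * z := by
          rw [Real.rpow_add_one hz.ne', e1]
        have a1 : 0 < z ^ (c - 1) := by positivity
        have a2 : z ^ c + z ^ (c - 1) ≤ 2 * (z ^ (c + 1) + z ^ (c - 1)) := by
          rw [e2, e1]
          nlinarith [mul_nonneg a1.le (sq_nonneg (z - 1)), mul_pos a1 (mul_pos hz hz)]
        calc _ ≤ 2 * (z ^ (c + 1) + z ^ (c - 1)) * |(h : ℝ → ℝ) z| := by gcongr
          _ = 2 * ((z ^ (c + 1) + z ^ (c - 1)) * |(h : ℝ → ℝ) z|) := by ring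
          _ ≤ 2 * K := by gcongr; exact hK z hz
      have hK0 : 0 ≤ 2 * K := le_trans (by positivity) (hN 1 one_pos)
      refine ⟨(δ0 / (C + 1) + 1) / η ^ c * (2 * K), fun n hn => (hφ n hn h _ hN).trans ?_⟩
      have : 0 < δ0 / (C + 1) := by positivity
      gcongr
      split_ifs <;> linarith)
    (fun h n hn => by
      obtain ⟨-, -, h3⟩ := hr n hn
      convert h3 h using 3 with j
      simp only [hS, avgL_apply]
      rw [mul_div_assoc', Finset.mul_sum]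
      congr 1
      refine Finset.sum_congr rfl fun p hp => ?_
      have := hp0 j p hp
      simp only [v, hjj j p hp, φ, hp1 j p hp, if_false, LinearMap.smul_apply, hevL, smul_eq_mul]
      field_simp)
  refine ⟨fun p => u p * (p : ℝ) ^ τ, fun p => ?_, ?_, fun h => ?_⟩
  · by_cases hp : ∃ j, p ∈ B j
    · obtain ⟨j, hp⟩ := hp
      have h1 := hp0 j p hp
      have h2 := hXτ j
      have h3 := hcard j
      have h4 : u p * (p : ℝ) ^ τ = m j * (X j ^ τ / (B j).card) := by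
        rw [hu1 j p hp]
        simp only [v, hjj j p hp]
        field_simp
      change |u p * (p : ℝ) ^ τ| ≤ 1
      rw [h4, abs_mul, abs_of_nonneg (a := X j ^ τ / (B j).card) (by positivity)]
      have h5 : X j ^ τ / (B j).card ≤ 1 := by rw [div_le_one (by linarith)]; exact h3
      exact mul_le_one₀ (hm j) (by positivity) h5
    · push Not at hp
      simp [hu2 p hp]
  · refine hu3.of_nonneg_of_le (fun p => by positivity) fun p => ?_
    rcases Nat.eq_zero_or_pos p with rfl | hp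
    · simp [Real.zero_rpow hτ0.ne']
    · have hp' : (0 : ℝ) < p := by exact_mod_cast hp
      rw [abs_mul, abs_of_nonneg (a := (p : ℝ) ^ τ) (by positivity), mul_assoc,
        ← Real.rpow_add hp', add_neg_cancel, Real.rpow_zero, mul_one]
  · have h1 := (hu4 h).add (hasSum_ite_eq (1 : ℕ) (ℓ h))
    rw [zero_add] at h1
    convert h1 using 2 with n
    rw [ec_rpow]
    by_cases hn : n = 1
    · subst hn
      simp [φ, ec_one, hevL, hyy]
    · simp only [φ, hn, if_false, LinearMap.smul_apply, hevL, smul_eq_mul, hyy]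
      ring

end Pool.Agent.H520Z.Sel
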