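import Pool.Agent.H520Z.Sel.Assemble
import Pool.Agent.H520Z.Sel.Defs4
import Pool.Agent.H69Z.Sel.ContrMc

set_option autoImplicit false

namespace Pool.Agent.H520Z.Sel

open MeasureTheory Set Filter Topology


namespace MC

lemma mc_zero (Φ : ℕ → ℕ → ℝ) : mc Φ 0 = 0 := by simp [mc]

lemma mc_one (Φ : ℕ → ℕ → ℝ) : mc Φ 1 = 1 := by simp [mc]

lemma mc_eq (Φ : ℕ → ℕ → ℝ) {n : ℕ} (hn : n ≠ 0) :
    mc Φ n = ∏ p ∈ n.primeFactors, Φ p (n.factorization p) := by
  simp [mc, hn, Finsupp.prod]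

lemma mc_congr {Φ Φ' : ℕ → ℕ → ℝ} (h : ∀ p, p.Prime → ∀ k, Φ p k = Φ' p k) (n : ℕ) :
    mc Φ n = mc Φ' n := by
  rcases eq_or_ne n 0 with rfl | hn
  · simp [mc]
  rw [mc_eq Φ hn, mc_eq Φ' hn]
  exact Finset.prod_congr rfl fun p hp => h p (Nat.prime_of_mem_primeFactors hp) _

lemma mc_twist (Φ : ℕ → ℕ → ℝ) (χ : ℕ →* ℝ) (n : ℕ) :
    mc (fun p k => Φ p k * χ p ^ k) n = mc Φ n * χ n := by
  rcases eq_or_ne n 0 with rfl | hn
  · simp [mc]
  have h1 : χ n = ∏ p ∈ n.primeFactors, χ p ^ n.factorization p := by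
    conv_lhs => rw [← Nat.prod_factorization_pow_eq_self hn]
    simp [Finsupp.prod, map_prod]
  rw [mc_eq Φ hn, mc_eq _ hn, h1, ← Finset.prod_mul_distrib]

lemma mc_mul (Φ : ℕ → ℕ → ℝ) {m n : ℕ} (h : Nat.Coprime m n) : mc Φ (m * n) = mc Φ m * mc Φ n := by
  rcases eq_or_ne m 0 with rfl | hm
  · simp [mc]
  rcases eq_or_ne n 0 with rfl | hn
  · simp [mc]
  simp only [mc, hm, hn, mul_eq_zero, or_self, if_false]
  rw [Nat.factorization_mul_of_coprime h, Finsupp.prod_add_index_of_disjoint]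
  simpa using h.disjoint_primeFactors

lemma mc_prime_pow (Φ : ℕ → ℕ → ℝ) (h0 : ∀ p, Φ p 0 = 1) {p : ℕ} (hp : p.Prime) (k : ℕ) :
    mc Φ (p ^ k) = Φ p k := by
  have h1 : p ^ k ≠ 0 := pow_ne_zero _ hp.ne_zero
  simp only [mc, h1, if_false]
  rw [hp.factorization_pow, Finsupp.prod_single_index (h0 p)]

end MC

open MC

theorem assemble_mc (γ : ℝ) (hγ : γ < 1) : ∃ L : ℕ, 1 ≤ L ∧
    ∀ (V : Submodule ℝ (ℝ → ℝ)) (lam c c1 C0 : ℝ), 0 < c1 → c1 < c - 1 → 0 ≤ C0 →
      (L : ℝ) * (c - c1) ≤ lam → c ≤ γ * lam → Poin V c c1 C0 →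
      (∀ h ∈ V, ∃ K : ℝ, ∀ y, 0 < y → (y ^ (c + 1) + y ^ (c - 1)) * |h y| ≤ K) →
      ∀ ph : ℝ → ℕ → ℝ, (∀ x, ph x 0 = 1 ∧ ph x 1 = x) → (∀ k, 1 ≤ k → ph 0 k = 0) →
      (∀ x x' : ℝ, |x| ≤ 1 / 2 → |x'| ≤ 1 / 2 → ∀ k, |ph x k - ph x' k| ≤ 2 * 2 ^ k * |x - x'|) →
      ∃ η0 : ℝ, 0 < η0 ∧ ∃ δ : ℝ, 0 < δ ∧ ∀ η : ℝ, 0 < η → η ≤ η0 → ∀ ℓ : V →ₗ[ℝ] ℝ,
        (∀ (h : V) (N : ℝ), (∀ y, 0 < y → (y ^ c + y ^ (c - 1)) * |(h : ℝ → ℝ) y| ≤ N) →
          |ℓ h| ≤ δ * N) →
        ∃ x : ℕ → ℝ, (∀ p, |x p| ≤ 1 / 2) ∧ x 2 = 0 ∧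
          Summable (fun n : ℕ => |mc (fun p => ph (x p)) n| * (n : ℝ) ^ (-(c / lam))) ∧
          ∀ h : V, HasSum (fun n : ℕ => mc (fun p => ph (x p)) n *
            (h : ℝ → ℝ) (η * (n : ℝ) ^ (1 / lam))) (ℓ h) := by
  classical
  obtain ⟨L, hL1, R0, hR0, hblk⟩ := prime_blocks γ hγ
  refine ⟨L, hL1, ?_⟩
  intro V lam c c1 C0 hc1 hc hC0 hlamL hcγ hP hD ph hph1 hph0 hphL
  have hL1' : (1 : ℝ) ≤ L := by exact_mod_cast hL1
  have hlam1 : 1 < lam := by nlinarith
  have hlam : 0 < lam := by linarith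
  have hc0 : 0 < c := by linarith
  set α : ℝ := L / lam with hα
  have hα0 : 0 < α := by positivity
  have hα1 : α * (c - c1) ≤ 1 := by
    rw [hα, div_mul_eq_mul_div, div_le_one hlam]; exact hlamL
  obtain ⟨ε, C, hε, hC, hrep⟩ := sampling_fun V c c1 C0 α hc1 hc hC0 hα0 hα1 hP hD
  obtain ⟨δ1, hδ1, hcon⟩ := contraction_mc (C + 1) (by positivity)
  obtain ⟨δ0, hδ0, hδ01, hδ02⟩ : ∃ δ0 : ℝ, 0 < δ0 ∧ δ0 ≤ δ1 ∧ δ0 ≤ 1 :=
    ⟨min δ1 1, by positivity, min_le_left _ _, min_le_right _ _⟩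
  set τ : ℝ := c / lam with hτ
  have hτ0 : 0 < τ := by positivity
  have hτγ : τ ≤ γ := by rw [hτ, div_le_iff₀ hlam]; exact hcγ
  refine ⟨min (min 1 (ε / (R0 + (4 + 16 / δ1)))) (δ0 / (2 * (C + 1))), by positivity, δ0 / (2 * (C + 1)),
    by positivity, ?_⟩
  intro η hη hη0 ℓ hℓ
  have hη1 : η ≤ 1 := hη0.trans ((min_le_left _ _).trans (min_le_left _ _))
  have hη2 : η ≤ ε / (R0 + (4 + 16 / δ1)) := hη0.trans ((min_le_left _ _).trans (min_le_right _ _))
  have hη3 : η ≤ δ0 / (2 * (C + 1)) := hη0.trans (min_le_right _ _)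
  set R : ℝ := (ε / η) ^ lam with hR
  have h16 : 0 < 16 / δ1 := by positivity
  have hR2 : R0 + (4 + 16 / δ1) ≤ ε / η := by
    rw [le_div_iff₀ hη]
    rw [le_div_iff₀ (by linarith)] at hη2
    linarith
  have hR1 : R0 ≤ ε / η := by linarith
  have hRR : R0 ≤ R := by
    calc R0 ≤ ε / η := hR1
      _ = (ε / η) ^ (1 : ℝ) := (Real.rpow_one _).symm
      _ ≤ R := Real.rpow_le_rpow_of_exponent_le (by linarith) hlam1.le
  have hRpos : 0 < R := by linarith
  set yy : ℕ → ℝ := fun n => η * (n : ℝ) ^ (1 / lam) with hyy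
  have hyx : ∀ m : ℝ, 0 < m → η * (R * m ^ L) ^ (1 / lam) = ε * m ^ α := by
    intro m hm
    rw [Real.mul_rpow hRpos.le (by positivity), hR, ← Real.rpow_mul (by positivity),
      mul_one_div_cancel hlam.ne', Real.rpow_one, ← Real.rpow_natCast, ← Real.rpow_mul hm.le, hα]
    field_simp
  set B : ℕ → Finset ℕ := fun j => blk R L j with hB
  set X : ℕ → ℝ := fun j => R * ((j : ℝ) + 1) ^ L with hX
  have hX1 : ∀ j, 1 ≤ X j := by
    intro j
    have hj : (1 : ℝ) ≤ (j : ℝ) + 1 := by have := Nat.cast_nonneg (α := ℝ) j; linarith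
    have := one_le_pow₀ (n := L) hj
    simp only [hX]
    nlinarith
  have hcard : ∀ j, X j ^ τ ≤ ((B j).card : ℝ) := fun j =>
    (Real.rpow_le_rpow_of_exponent_le (hX1 j) hτγ).trans (hblk R hRR j)
  have hXτ : ∀ j, 1 ≤ X j ^ τ := fun j => Real.one_le_rpow (hX1 j) hτ0.le
  have hne : ∀ j, (B j).Nonempty := fun j => by
    rw [← Finset.card_pos]
    have := (hXτ j).trans (hcard j)
    exact_mod_cast (lt_of_lt_of_le one_pos this : (0 : ℝ) < _)
  have hdisj : ∀ i j, i ≠ j → Disjoint (B i) (B j) := fun i j hij => blk_disjoint hRpos L hij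
  set S : ℕ → V →ₗ[ℝ] ℝ := fun j => avgL V (B j) yy with hS
  have hyin : ∀ j, ∀ p ∈ B j,
      yy p ∈ Icc (ε * ((j : ℝ) + 1) ^ α) (ε * ((j : ℝ) + 2) ^ α) := by
    intro j p hp
    obtain ⟨-, h1, h2⟩ := mem_blk hRpos hp
    rw [← hyx _ (by positivity), ← hyx _ (by positivity)]
    constructor
    · exact mul_le_mul_of_nonneg_left
        (Real.rpow_le_rpow (by positivity) h1.le (by positivity)) hη.le
    · exact mul_le_mul_of_nonneg_left
        (Real.rpow_le_rpow (by positivity) h2 (by positivity)) hη.le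
  have hrep' := hrep S (fun j h => by
    obtain ⟨p, hp, q, hq, h1, h2⟩ := avg_between (B j) (hne j) (fun p => (h : ℝ → ℝ) (yy p))
    refine ⟨yy p, hyin j p hp, yy q, hyin j q hq, ?_, ?_⟩
    · simpa only [hS, avgL_apply] using h1
    · simpa only [hS, avgL_apply] using h2)
  -- weights
  have hYX : ∀ j : ℕ, (X j ^ τ)⁻¹ = η ^ c * (ε * ((j : ℝ) + 1) ^ α) ^ (-c) := by
    intro j
    have hx0 : 0 < X j := lt_of_lt_of_le one_pos (hX1 j)
    rw [← hyx _ (by positivity), Real.mul_rpow hη.le (by positivity), ← mul_assoc,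
      ← Real.rpow_add hη, add_neg_cancel, Real.rpow_zero, one_mul, ← Real.rpow_neg hx0.le,
      ← Real.rpow_mul hx0.le, hτ]
    congr 1
    field_simp
  have hyc : ∀ n : ℕ, 1 ≤ n → yy n ^ c = η ^ c * (n : ℝ) ^ τ := by
    intro n hn
    simp only [hyy]
    rw [Real.mul_rpow hη.le (by positivity), ← Real.rpow_mul (by positivity), hτ]
    congr 2
    field_simp
  have hypos : ∀ n : ℕ, 1 ≤ n → 0 < yy n := by
    intro n hn
    have : (0 : ℝ) < n := by exact_mod_cast hn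
    simp only [hyy]
    positivity
  -- functionals
  let evL : ℝ → V →ₗ[ℝ] ℝ := fun y =>
    (LinearMap.proj (R := ℝ) (φ := fun _ : ℝ => ℝ) y).comp V.subtype
  have hevL : ∀ y (h : V), evL y h = (h : ℝ → ℝ) y := fun y h => rfl
  let φ : ℕ → V →ₗ[ℝ] ℝ := fun n => if n = 1 then evL (yy 1) - ℓ else ((n : ℝ) ^ τ) • evL (yy n)
  have hηc : 0 < η ^ c := Real.rpow_pos_of_pos hη c
  have hφ : ∀ n : ℕ, 1 ≤ n → ∀ (h : V) (N : ℝ),
      (∀ y, 0 < y → (y ^ c + y ^ (c - 1)) * |(h : ℝ → ℝ) y| ≤ N) →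
      |φ n h| ≤ (if n = 1 then (δ0 / (C + 1)) else 1) / η ^ c * N := by
    intro n hn h N hN
    have hyn := hypos n hn
    have h1 := hN _ hyn
    have hN0 : 0 ≤ N := le_trans (by positivity) h1
    split_ifs with hn1
    · subst hn1
      have h2 : yy 1 = η := by simp [hyy]
      simp only [φ, if_true, LinearMap.sub_apply, hevL, h2]
      rw [h2] at h1
      have h3 : η ^ (c - 1) * |(h : ℝ → ℝ) η| ≤ N := by
        have : 0 ≤ η ^ c * |(h : ℝ → ℝ) η| := by positivity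
        nlinarith
      have h4 : η ^ (c - 1) = η ^ c / η := by rw [Real.rpow_sub hη, Real.rpow_one]
      have h5 : |(h : ℝ → ℝ) η| ≤ δ0 / (2 * (C + 1)) / η ^ c * N := by
        rw [h4, div_mul_eq_mul_div, div_le_iff₀ hη] at h3
        rw [div_mul_eq_mul_div, le_div_iff₀ hηc]
        nlinarith
      have h6 : |ℓ h| ≤ δ0 / (2 * (C + 1)) / η ^ c * N := by
        refine (hℓ h N hN).trans (mul_le_mul_of_nonneg_right ?_ hN0)
        rw [le_div_iff₀ hηc]
        have : η ^ c ≤ 1 := Real.rpow_le_one hη.le hη1 hc0.le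
        have h7 : 0 < δ0 / (2 * (C + 1)) := by positivity
        nlinarith
      calc _ ≤ |(h : ℝ → ℝ) η| + |ℓ h| := abs_sub _ _
        _ ≤ _ := add_le_add h5 h6
        _ = _ := by field_simp; ring
    · simp only [φ, hn1, if_false, LinearMap.smul_apply, hevL, smul_eq_mul]
      rw [abs_mul, abs_of_nonneg (by positivity), one_div, inv_mul_eq_div, le_div_iff₀ hηc]
      have h2 : 0 ≤ yy n ^ (c - 1) * |(h : ℝ → ℝ) (yy n)| := by positivity
      have h3 := hyc n hn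
      calc _ = yy n ^ c * |(h : ℝ → ℝ) (yy n)| := by rw [h3]; ring
        _ ≤ N := by nlinarith
  have hr : ∀ n : ℕ, ∃ r : ℕ → ℝ, 1 ≤ n → (Summable (fun j => |r j|) ∧
      ∑' j, |r j| ≤ C * (if n = 1 then (δ0 / (C + 1)) else 1) ∧
      ∀ h : V, HasSum (fun j => r j * (X j ^ τ * S j h)) (φ n h)) := by
    intro n
    by_cases hn : 1 ≤ n
    swap
    · exact ⟨0, fun h => absurd h hn⟩
    obtain ⟨r, hr1, hr2, hr3⟩ := hrep' (φ n) _ (by split_ifs <;> positivity) (hφ n hn)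
    have he : ∀ j, |r j * (X j ^ τ)⁻¹| = η ^ c * (|r j| * (ε * ((j : ℝ) + 1) ^ α) ^ (-c)) := by
      intro j
      rw [abs_mul, abs_of_nonneg (a := (X j ^ τ)⁻¹) (by have := hXτ j; positivity), hYX]
      ring
    refine ⟨fun j => r j * (X j ^ τ)⁻¹, fun _ => ⟨?_, ?_, fun h => ?_⟩⟩
    · simp_rw [he]
      exact hr1.mul_left _
    · simp_rw [he]
      rw [tsum_mul_left]
      calc _ ≤ η ^ c * (C * ((if n = 1 then (δ0 / (C + 1)) else 1) / η ^ c)) :=
            mul_le_mul_of_nonneg_left hr2 hηc.le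
        _ = _ := by field_simp
    · convert hr3 h using 2 with j
      have := hXτ j
      field_simp
  choose r hr using hr
  let jj : ℕ → ℕ := fun p => if h : ∃ j, p ∈ B j then h.choose else 0
  have hjj : ∀ j, ∀ p ∈ B j, jj p = j := by
    intro j p hp
    have h : ∃ j, p ∈ B j := ⟨j, hp⟩
    simp only [jj, h, dif_pos]
    by_contra hne'
    exact Finset.disjoint_left.1 (hdisj _ _ hne') h.choose_spec hp
  let v : ℕ → ℝ := fun p => X (jj p) ^ τ / (p : ℝ) ^ τ
  have hδC : C * (δ0 / (C + 1)) ≤ δ0 := by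
    rw [mul_div_assoc', div_le_iff₀ (by positivity)]
    nlinarith
  have hpX : ∀ j, ∀ p ∈ B j, X j < p := fun j p hp => (mem_blk hRpos hp).2.1
  have hp1 : ∀ j, ∀ p ∈ B j, p ≠ 1 := fun j p hp => (mem_blk hRpos hp).1.one_lt.ne'
  have hp0 : ∀ j, ∀ p ∈ B j, (0 : ℝ) < (p : ℝ) ^ τ := fun j p hp =>
    Real.rpow_pos_of_pos (by exact_mod_cast (mem_blk hRpos hp).1.pos) _
  let pw : ℕ → ℝ := fun p => ((max p 1 : ℕ) : ℝ) ^ τ
  have hpw0 : ∀ p, 0 < pw p := fun p =>
    Real.rpow_pos_of_pos (by exact_mod_cast lt_of_lt_of_le one_pos (le_max_right p 1)) _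
  have hpwp : ∀ p : ℕ, p.Prime → pw p = (p : ℝ) ^ τ := fun p hp => by
    simp only [pw, max_eq_left hp.one_lt.le]
  have hpwB : ∀ j, ∀ p ∈ B j, 4 + 16 / δ1 ≤ pw p := by
    intro j p hp
    rw [hpwp p (mem_blk hRpos hp).1]
    have hj : (1 : ℝ) ≤ (j : ℝ) + 1 := by have := Nat.cast_nonneg (α := ℝ) j; linarith
    have h1 : R ≤ X j := le_mul_of_one_le_right hRpos.le (one_le_pow₀ hj)
    calc 4 + 16 / δ1 ≤ ε / η := by linarith
      _ = (ε / η) ^ (1 : ℝ) := (Real.rpow_one _).symm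
      _ ≤ (ε / η) ^ c := Real.rpow_le_rpow_of_exponent_le (by linarith) (by linarith)
      _ = R ^ τ := by
          rw [hR, ← Real.rpow_mul (by positivity), hτ]
          congr 1
          field_simp
      _ ≤ _ := Real.rpow_le_rpow hRpos.le (h1.trans (hpX j p hp).le) hτ0.le
  obtain ⟨m, u, hm, hu1, hu2, hu3, hu4⟩ := hcon V (fun h n => φ n h) B v r
    (fun p u k => ph (u * pw p) k / pw p ^ k) (fun p => 1 / (2 * pw p)) hne
    (fun j p hp => (mem_blk hRpos hp).1) hdisj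
    (fun j p hp => by
      simp only [v, hjj j p hp]
      have h1 := hp0 j p hp
      have h2 := hXτ j
      rw [abs_of_nonneg (by positivity), div_le_one h1]
      exact Real.rpow_le_rpow (by linarith [hX1 j]) (hpX j p hp).le hτ0.le)
    (fun n hn => by
      obtain ⟨h1, h2, -⟩ := hr n hn
      refine ⟨h1, h2.trans ?_⟩
      split_ifs <;> linarith)
    (by
      obtain ⟨-, h2, -⟩ := hr 1 le_rfl
      simp only [if_true] at h2
      exact h2.trans (hδC.trans hδ01))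
    (fun h => by
      obtain ⟨K, hK⟩ := hD h h.2
      have hN : ∀ y, 0 < y → (y ^ c + y ^ (c - 1)) * |(h : ℝ → ℝ) y| ≤ 2 * K := by
        intro z hz
        have e1 : z ^ c = z ^ (c - 1) * z := by
          rw [← Real.rpow_add_one hz.ne']; congr 1; ring
        have e2 : z ^ (c + 1) = z ^ (c - 1) * z * z := by
          rw [Real.rpow_add_one hz.ne', e1]
        have a1 : 0 < z ^ (c - 1) := by positivity
        have a2 : z ^ c + z ^ (c - 1) ≤ 2 * (z ^ (c + 1) + z ^ (c - 1)) := by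
          rw [e2, e1]
          nlinarith [mul_nonneg a1.le (sq_nonneg (z - 1)), mul_pos a1 (mul_pos hz hz)]
        calc _ ≤ 2 * (z ^ (c + 1) + z ^ (c - 1)) * |(h : ℝ → ℝ) z| := by gcongr
          _ = 2 * ((z ^ (c + 1) + z ^ (c - 1)) * |(h : ℝ → ℝ) z|) := by ring
          _ ≤ 2 * K := by gcongr; exact hK z hz
      have hK0 : 0 ≤ 2 * K := le_trans (by positivity) (hN 1 one_pos)
      refine ⟨(δ0 / (C + 1) + 1) / η ^ c * (2 * K), fun n hn => (hφ n hn h _ hN).trans ?_⟩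
      have : 0 < δ0 / (C + 1) := by positivity
      gcongr
      split_ifs <;> linarith)
    (fun h n hn => by
      obtain ⟨-, -, h3⟩ := hr n hn
      convert h3 h using 3 with j
      simp only [hS, avgL_apply]
      rw [mul_div_assoc', Finset.mul_sum]
      congr 1
      refine Finset.sum_congr rfl fun p hp => ?_
      have := hp0 j p hp
      simp only [v, hjj j p hp, φ, hp1 j p hp, if_false, LinearMap.smul_apply, hevL, smul_eq_mul]
      field_simp)
    (fun p u => by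
      have := hpw0 p
      refine ⟨by simp [(hph1 _).1], ?_⟩
      rw [(hph1 _).2]
      field_simp)
    (fun p k hk => by simp [hph0 k hk])
    (fun j p hp => by
      have h1 := hp0 j p hp
      have h2 := hXτ j
      have h3 := hcard j
      simp only [v, hjj j p hp, hpwp p (mem_blk hRpos hp).1]
      rw [abs_of_nonneg (by positivity), div_div, div_le_iff₀ (by positivity)]
      calc X j ^ τ ≤ (B j).card := h3
        _ = _ := by field_simp)
    (fun j p hp a a' ha ha' => by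
      have h1 := hpw0 p
      have h2 := hpwB j p hp
      have hq : 2 / pw p ≤ 1 / 2 := by rw [div_le_iff₀ h1]; linarith
      have hq0 : 0 ≤ 2 / pw p := by positivity
      have hx : ∀ b : ℝ, |b| ≤ 1 / (2 * pw p) → |b * pw p| ≤ 1 / 2 := fun b hb => by
        rw [abs_mul, abs_of_pos h1]
        rw [le_div_iff₀ (by positivity)] at hb
        linarith
      have hb : ∀ k, |ph (a * pw p) (k + 2) / pw p ^ (k + 2) -
          ph (a' * pw p) (k + 2) / pw p ^ (k + 2)| ≤ 8 / pw p * |a - a'| * (1 / 2) ^ k := by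
        intro k
        rw [← sub_div, abs_div, abs_of_pos (pow_pos h1 _), div_le_iff₀ (pow_pos h1 _)]
        refine (hphL _ _ (hx a ha) (hx a' ha') _).trans ?_
        rw [← sub_mul, abs_mul, abs_of_pos h1]
        have h3 : (2 : ℝ) ^ k ≤ (1 / 2) ^ k * pw p ^ k := by
          rw [← mul_pow]
          exact pow_le_pow_left₀ (by norm_num) (by linarith) k
        calc 2 * 2 ^ (k + 2) * (|a - a'| * pw p) = 8 * |a - a'| * pw p * 2 ^ k := by ring
          _ ≤ 8 * |a - a'| * pw p * ((1 / 2) ^ k * pw p ^ k) := by gcongr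
          _ = _ := by field_simp; ring
      have hg := summable_geometric_two.hasSum.mul_left (8 / pw p * |a - a'|)
      have hsm := Summable.of_nonneg_of_le (fun k => abs_nonneg _) hb hg.summable
      refine ⟨hsm, (hsm.tsum_le_tsum hb hg.summable).trans ?_⟩
      rw [hg.tsum_eq, tsum_geometric_two]
      have h4 : 16 / pw p ≤ δ1 := by
        rw [div_le_iff₀ h1]
        have h5 : 16 / δ1 ≤ pw p := by linarith
        rw [div_le_iff₀ hδ1] at h5
        linarith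
      calc 8 / pw p * |a - a'| * 2 = 16 / pw p * |a - a'| := by ring
        _ ≤ _ := by gcongr)
  have hmc : ∀ n : ℕ, mc (fun p k => ph (u p * pw p) k / pw p ^ k) n =
      mc (fun p => ph (u p * pw p)) n * (n : ℝ) ^ (-τ) := by
    intro n
    have h1 := mc_twist (fun p => ph (u p * pw p)) (rpowHom (-τ)) n
    refine Eq.trans (mc_congr (fun p hp k => ?_) n) h1
    change _ = _ * ((p : ℝ) ^ (-τ)) ^ k
    rw [Real.rpow_neg (Nat.cast_nonneg _), ← hpwp p hp, inv_pow, div_eq_mul_inv]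
  refine ⟨fun p => u p * pw p, fun p => ?_, ?_, ?_, fun h => ?_⟩
  · by_cases hp : ∃ j, p ∈ B j
    · obtain ⟨j, hp⟩ := hp
      have h1 := hp0 j p hp
      have h2 := hXτ j
      have h3 := hcard j
      have h4 : u p * pw p = m j * (X j ^ τ / (B j).card) := by
        rw [hu1 j p hp, hpwp p (mem_blk hRpos hp).1]
        simp only [v, hjj j p hp]
        field_simp
      change |u p * pw p| ≤ 1 / 2
      rw [h4, abs_mul, abs_of_nonneg (a := X j ^ τ / (B j).card) (by positivity)]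
      have h5 : X j ^ τ / (B j).card ≤ 1 := by rw [div_le_one (by linarith)]; exact h3
      exact (mul_le_of_le_one_right (abs_nonneg _) h5).trans (hm j)
    · push Not at hp
      simp [hu2 p hp]
  · change u 2 * pw 2 = 0
    rw [hu2 2 (fun j hp => ?_), zero_mul]
    have hj : (1 : ℝ) ≤ (j : ℝ) + 1 := by have := Nat.cast_nonneg (α := ℝ) j; linarith
    have h1 : R ≤ X j := le_mul_of_one_le_right hRpos.le (one_le_pow₀ hj)
    have h2 := hpX j 2 hp
    have h3 : ε / η ≤ R := by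
      calc ε / η = (ε / η) ^ (1 : ℝ) := (Real.rpow_one _).symm
        _ ≤ R := Real.rpow_le_rpow_of_exponent_le (by linarith) hlam1.le
    norm_num at h2
    linarith
  · refine hu3.congr fun n => ?_
    rw [hmc, abs_mul, abs_of_nonneg (a := (n : ℝ) ^ (-τ)) (by positivity)]
  · have h1 := (hu4 h).add (hasSum_ite_eq (1 : ℕ) (ℓ h))
    rw [zero_add] at h1
    convert h1 using 2 with n
    rw [hmc]
    by_cases hn : n = 1
    · subst hn
      simp [φ, mc_one, hevL, hyy]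
    · simp only [φ, hn, if_false, LinearMap.smul_apply, hevL, smul_eq_mul, hyy]
      rcases Nat.eq_zero_or_pos n with rfl | hn0
      · simp [mc_zero]
      · have hn' : (0 : ℝ) < n := by exact_mod_cast hn0
        have : (0 : ℝ) < (n : ℝ) ^ τ := by positivity
        rw [Real.rpow_neg hn'.le]
        field_simp
        ring

end Pool.Agent.H520Z.Sel
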