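import Pool.Agent.H520Z.Sel.Exotic
import Pool.Agent.H121Z.SelE
import Pool.Agent.Helper256.KM.Mertens

set_option autoImplicit false

namespace Pool.Agent.H520Z.Sel

open Set Filter Topology

lemma big_sum (c : ℕ → ℝ) (P : ℕ) (h : ∀ p : ℕ, p.Prime → P ≤ p → Real.log p - 1 ≤ |c p|) :
    ∃ C : ℝ, ∀ N : ℕ, 1 ≤ N → Real.log N - C ≤
      ∑ p ∈ (Finset.Iic N).filter Nat.Prime, ‖((ec c p : ℝ) : ℂ)‖ ^ 2 / (p : ℝ) := by
  obtain ⟨C, hC⟩ := Pool.Agent.Helper256.KM.mertens_log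
  obtain ⟨P1, hP1⟩ := eventually_atTop.1 ((Real.tendsto_log_atTop.comp
    (tendsto_natCast_atTop_atTop (R := ℝ))).eventually_ge_atTop 3)
  refine ⟨C + ∑ p ∈ Finset.range (max P P1), Real.log p / p, fun N hN => ?_⟩
  have h1 := (abs_le.1 (hC N hN)).1
  have h2 : (Finset.Icc 1 N).filter Nat.Prime = (Finset.Iic N).filter Nat.Prime := by
    ext p
    simp only [Finset.mem_filter, Finset.mem_Icc, Finset.mem_Iic]
    exact ⟨fun h => ⟨h.1.2, h.2⟩, fun h => ⟨⟨h.2.one_lt.le, h.1⟩, h.2⟩⟩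
  rw [h2] at h1
  have h3 : ∑ p ∈ (Finset.Iic N).filter Nat.Prime, Real.log p / p ≤
      ∑ p ∈ (Finset.Iic N).filter Nat.Prime, (‖((ec c p : ℝ) : ℂ)‖ ^ 2 / (p : ℝ) +
        if p < max P P1 then Real.log p / p else 0) := by
    refine Finset.sum_le_sum fun p hp => ?_
    have hp' := (Finset.mem_filter.1 hp).2
    split_ifs with hlt
    · have : 0 ≤ ‖((ec c p : ℝ) : ℂ)‖ ^ 2 / (p : ℝ) := by positivity
      linarith
    · push Not at hlt
      rw [add_zero, Complex.norm_real, Real.norm_eq_abs, ec_prime c hp']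
      apply div_le_div_of_nonneg_right _ (Nat.cast_nonneg _)
      have a1 := h p hp' ((le_max_left _ _).trans hlt)
      have a2 : 3 ≤ Real.log p := hP1 p ((le_max_right _ _).trans hlt)
      nlinarith
  rw [Finset.sum_add_distrib, ← Finset.sum_filter] at h3
  have h4 : ∑ p ∈ ((Finset.Iic N).filter Nat.Prime).filter (fun p => p < max P P1),
      Real.log p / p ≤ ∑ p ∈ Finset.range (max P P1), Real.log p / p := by
    apply Finset.sum_le_sum_of_subset_of_nonneg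
    · intro p hp
      exact Finset.mem_range.2 (Finset.mem_filter.1 hp).2
    · intro p _ _
      exact div_nonneg (Real.log_natCast_nonneg p) (Nat.cast_nonneg p)
  linarith

lemma loglog_lt (K C : ℝ) : ∀ᶠ x : ℝ in atTop, K * Real.log (Real.log x) + C < Real.log x := by
  have h1 : ∀ᶠ y : ℝ in atTop, K * Real.log y + C < y := by
    have h2 := (Real.isLittleO_log_id_atTop.const_mul_left K).bound (c := 1 / 2) (by norm_num)
    filter_upwards [h2, eventually_gt_atTop (2 * C), eventually_gt_atTop 0] with y hy hy1 hy0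
    simp only [id, Real.norm_eq_abs, abs_of_pos hy0] at hy
    have := le_abs_self (K * Real.log y)
    linarith
  exact Real.tendsto_log_atTop.eventually h1

/-- An element of the Selberg class with `∑_{p ≤ N} |a p|^2 / p ≥ log N - C`. -/
theorem exists_big : ∃ (lam Q : ℝ) (c : ℕ → ℝ) (F : ℂ → ℂ), Exo lam Q c F ∧
    ∃ C : ℝ, ∀ N : ℕ, 1 ≤ N → Real.log N - C ≤
      ∑ p ∈ (Finset.Iic N).filter Nat.Prime, ‖((ec c p : ℝ) : ℂ)‖ ^ 2 / (p : ℝ) := by
  obtain ⟨lam0, h⟩ := exists_exotic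
  obtain ⟨Q, c, F, hF, P, hP⟩ := h lam0 le_rfl
  exact ⟨lam0, Q, c, F, hF, big_sum c P hP⟩

/-- A primitive element whose prime sum is not `O(log log N)`. -/
theorem exists_prim_big : ∃ a : ℕ → ℂ, IsPrim a ∧ ¬ ∃ K C : ℝ, ∀ᶠ N : ℕ in atTop,
    ∑ p ∈ (Finset.Iic N).filter Nat.Prime, ‖a p‖ ^ 2 / (p : ℝ) ≤
      K * Real.log (Real.log N) + C := by
  obtain ⟨lam, Q, c, F, hF, C, hC⟩ := exists_big
  have hcast := tendsto_natCast_atTop_atTop (R := ℝ)
  have hne : ∃ n : ℕ, 2 ≤ n ∧ ((ec c n : ℝ) : ℂ) ≠ 0 := by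
    by_contra hcon
    push Not at hcon
    obtain ⟨N, hN1, hN2⟩ := ((hcast.eventually (loglog_lt 0 C)).and
      (eventually_ge_atTop 1)).exists
    have h1 := hC N hN2
    rw [Finset.sum_eq_zero (fun p hp => by
      rw [hcon p (Finset.mem_filter.1 hp).2.two_le]; simp)] at h1
    linarith
  obtain ⟨r, f, hf, hsum⟩ := exists_prim_factors _ hF.isSel hne
  by_contra hcon
  push Not at hcon
  choose K C' hK using fun i => hcon (f i) (hf i)
  have h1 := (eventually_all.2 hK).and ((hcast.eventually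
    (loglog_lt (r * ∑ i, K i) (r * ∑ i, C' i + C))).and (eventually_ge_atTop 1))
  obtain ⟨N, h2, h3, h4⟩ := h1.exists
  have h5 := hC N h4
  have h6 : ∑ p ∈ (Finset.Iic N).filter Nat.Prime, ‖((ec c p : ℝ) : ℂ)‖ ^ 2 / (p : ℝ) ≤
      ∑ p ∈ (Finset.Iic N).filter Nat.Prime, (r : ℝ) * ∑ i, ‖f i p‖ ^ 2 / (p : ℝ) := by
    refine Finset.sum_le_sum fun p hp => ?_
    rw [← Finset.sum_div, ← mul_div_assoc]
    apply div_le_div_of_nonneg_right _ (Nat.cast_nonneg _)
    rw [hsum p (Finset.mem_filter.1 hp).2]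
    calc ‖∑ i, f i p‖ ^ 2 ≤ (∑ i, ‖f i p‖) ^ 2 := by
          gcongr
          exact norm_sum_le _ _
      _ ≤ _ := by simpa using sq_sum_le_card_mul_sum_sq (s := Finset.univ) (f := fun i => ‖f i p‖)
  rw [← Finset.mul_sum, Finset.sum_comm] at h6
  have h7 : ∑ i, ∑ p ∈ (Finset.Iic N).filter Nat.Prime, ‖f i p‖ ^ 2 / (p : ℝ) ≤
      ∑ i, (K i * Real.log (Real.log N) + C' i) := Finset.sum_le_sum fun i _ => h2 i
  rw [Finset.sum_add_distrib, ← Finset.sum_mul] at h7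
  have h8 : (0 : ℝ) ≤ r := Nat.cast_nonneg r
  nlinarith

end Pool.Agent.H520Z.Sel
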