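import Pool.Agent.H520Z.Sel.Defs2
import Pool.Agent.H369Z.Hoh.Main

set_option autoImplicit false

namespace Pool.Agent.H520Z.Sel

open Filter Topology Set

/-- primes in the block `(R (j+1)^L, R (j+2)^L]` -/
noncomputable def blk (R : ℝ) (L j : ℕ) : Finset ℕ :=
  (Finset.Ioc ⌊R * ((j : ℝ) + 1) ^ L⌋₊ ⌊R * ((j : ℝ) + 2) ^ L⌋₊).filter Nat.Prime

lemma mem_blk {R : ℝ} (hR : 0 < R) {L j p : ℕ} (hp : p ∈ blk R L j) :
    p.Prime ∧ R * ((j : ℝ) + 1) ^ L < p ∧ (p : ℝ) ≤ R * ((j : ℝ) + 2) ^ L := by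
  obtain ⟨h1, h2⟩ := Finset.mem_filter.1 hp
  obtain ⟨h3, h4⟩ := Finset.mem_Ioc.1 h1
  refine ⟨h2, ?_, ?_⟩
  · exact (Nat.floor_lt (by positivity)).1 h3
  · exact (Nat.le_floor_iff (by positivity)).1 h4

lemma blk_disjoint {R : ℝ} (hR : 0 < R) (L : ℕ) {i j : ℕ} (hij : i ≠ j) :
    Disjoint (blk R L i) (blk R L j) := by
  wlog h : i < j generalizing i j
  · exact (this hij.symm (by omega)).symm
  rw [Finset.disjoint_left]
  intro p hp hq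
  obtain ⟨-, -, h1⟩ := mem_blk hR hp
  obtain ⟨-, h2, -⟩ := mem_blk hR hq
  have h3 : ((i : ℝ) + 2) ≤ (j : ℝ) + 1 := by
    have : (i : ℝ) + 1 ≤ j := by exact_mod_cast h
    linarith
  have h4 : R * ((i : ℝ) + 2) ^ L ≤ R * ((j : ℝ) + 1) ^ L := by gcongr
  linarith

theorem prime_blocks (γ : ℝ) (hγ : γ < 1) : ∃ L : ℕ, 1 ≤ L ∧ ∃ R0 : ℝ, 1 ≤ R0 ∧
    ∀ R, R0 ≤ R → ∀ j : ℕ, (R * ((j : ℝ) + 1) ^ L) ^ γ ≤ ((blk R L j).card : ℝ) := by
  obtain ⟨θ, -, hθ1, hθ⟩ := Pool.Agent.H369Z.Hoh.hoheisel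
  set θ₂ : ℝ := max θ ((1 + γ) / 2) with hθ₂
  have h1 : θ₂ < 1 := max_lt hθ1 (by linarith)
  have h2 : γ < θ₂ := lt_of_lt_of_le (by linarith) (le_max_right _ _)
  have h3 := hθ θ₂ (le_max_left _ _) h1
  have h4 : ∀ᶠ y : ℝ in atTop, y ^ γ ≤ y ^ θ₂ / (Real.log y) ^ 3 := by
    have h5 := (isLittleO_log_rpow_rpow_atTop (3 : ℝ) (sub_pos.2 h2)).bound (c := 1) one_pos
    filter_upwards [h5, eventually_gt_atTop 1] with y hy hy1
    have hl : 0 < Real.log y := Real.log_pos hy1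
    rw [Real.norm_of_nonneg (by positivity), Real.norm_of_nonneg (by positivity), one_mul] at hy
    rw [le_div_iff₀ (by positivity)]
    have h6 : y ^ θ₂ = y ^ γ * y ^ (θ₂ - γ) := by
      rw [← Real.rpow_add (by linarith)]; ring_nf
    rw [h6]
    apply mul_le_mul_of_nonneg_left _ (by positivity)
    have : Real.log y ^ (3 : ℝ) = Real.log y ^ 3 := by norm_cast
    rwa [this] at hy
  obtain ⟨R1, hR1⟩ := eventually_atTop.1 (h3.and h4)
  obtain ⟨L, hL⟩ := exists_nat_ge (1 / (1 - θ₂))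
  have hL0 : (0 : ℝ) < L := lt_of_lt_of_le (by have := sub_pos.2 h1; positivity) hL
  have hL1 : 1 ≤ L := by exact_mod_cast (show 0 < L by exact_mod_cast hL0)
  have hL2 : θ₂ * L ≤ L - 1 := by
    rw [div_le_iff₀ (sub_pos.2 h1)] at hL
    nlinarith
  refine ⟨L, hL1, max R1 1, le_max_right _ _, fun R hR j => ?_⟩
  have hR1' : 1 ≤ R := (le_max_right _ _).trans hR
  have hj : (1 : ℝ) ≤ (j : ℝ) + 1 := by have := Nat.cast_nonneg (α := ℝ) j; linarith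
  have hjL : (1 : ℝ) ≤ ((j : ℝ) + 1) ^ L := one_le_pow₀ hj
  have hy : R1 ≤ R * ((j : ℝ) + 1) ^ L := by
    have := (le_max_left _ _).trans hR
    nlinarith
  obtain ⟨h6, h7⟩ := hR1 _ hy
  refine h7.trans (h6.trans ?_)
  have h8 : (R * ((j : ℝ) + 1) ^ L) ^ θ₂ ≤ R * ((j : ℝ) + 1) ^ (L - 1) := by
    rw [Real.mul_rpow (by linarith) (by positivity)]
    apply mul_le_mul
    · calc R ^ θ₂ ≤ R ^ (1 : ℝ) := Real.rpow_le_rpow_of_exponent_le hR1' h1.le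
        _ = R := Real.rpow_one R
    · rw [← Real.rpow_natCast, ← Real.rpow_mul (by linarith), ← Real.rpow_natCast]
      apply Real.rpow_le_rpow_of_exponent_le hj
      rw [Nat.cast_sub hL1]
      push_cast
      linarith
    · positivity
    · linarith
  have h9 : ((j : ℝ) + 1) ^ L + ((j : ℝ) + 1) ^ (L - 1) ≤ ((j : ℝ) + 2) ^ L := by
    obtain ⟨M, rfl⟩ : ∃ M, L = M + 1 := ⟨L - 1, by omega⟩
    simp only [Nat.add_sub_cancel, pow_succ]
    have : ((j : ℝ) + 1) ^ M ≤ ((j : ℝ) + 2) ^ M := by gcongr; linarith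
    have h0 : (0 : ℝ) ≤ ((j : ℝ) + 1) ^ M := by positivity
    nlinarith
  have h10 : R * ((j : ℝ) + 1) ^ L + (R * ((j : ℝ) + 1) ^ L) ^ θ₂ ≤ R * ((j : ℝ) + 2) ^ L := by
    nlinarith
  unfold blk
  exact_mod_cast Finset.card_le_card (Finset.filter_subset_filter _
    (Finset.Ioc_subset_Ioc_right (Nat.floor_le_floor h10)))

end Pool.Agent.H520Z.Sel
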