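import Mathlib

set_option autoImplicit false

namespace Pool.Agent.H520Z.Sel

/-- Dirichlet coefficients of `exp (∑_p c p * p^(-s))`. -/
noncomputable def expCoef (c : ℕ → ℝ) (n : ℕ) : ℝ :=
  if n = 0 then 0 else n.factorization.prod fun p k => c p ^ k / (k.factorial : ℝ)

/-- The Selberg class, on coefficient sequences (as in the frozen statement S16630). -/
def IsSel (a : ℕ → ℂ) : Prop :=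
  a 1 = 1 ∧
  (∀ ε : ℝ, 0 < ε → ∃ C : ℝ, ∀ n : ℕ, 1 ≤ n → ‖a n‖ ≤ C * (n : ℝ) ^ ε) ∧
  (∃ m : ℕ, ∃ G : ℂ → ℂ, Differentiable ℂ G ∧
    (∃ ρ C : ℝ, ∀ z : ℂ, ‖G z‖ ≤ C * Real.exp (‖z‖ ^ ρ)) ∧
    (∀ s : ℂ, 1 < s.re → G s = (s - 1) ^ m * LSeries a s) ∧
    (∃ Q : ℝ, 0 < Q ∧ ∃ k : ℕ, ∃ lam : Fin k → ℝ, ∃ μ : Fin k → ℂ, ∃ ω : ℂ,
      (∀ j, 0 < lam j) ∧ (∀ j, 0 ≤ (μ j).re) ∧ ‖ω‖ = 1 ∧
      ∀ s : ℂ, 0 < s.re → s.re < 1 →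
        (Q : ℂ) ^ s * (∏ j, Complex.Gamma ((lam j : ℂ) * s + μ j)) * (G s / (s - 1) ^ m) =
        ω * starRingEnd ℂ ((Q : ℂ) ^ (1 - starRingEnd ℂ s)
          * (∏ j, Complex.Gamma ((lam j : ℂ) * (1 - starRingEnd ℂ s) + μ j))
          * (G (1 - starRingEnd ℂ s) / ((1 - starRingEnd ℂ s) - 1) ^ m)))) ∧
  (∃ b : ℕ → ℂ, (∀ n : ℕ, ¬ IsPrimePow n → b n = 0) ∧
    ∃ θ : ℝ, θ < 1 / 2 ∧ ∃ C : ℝ, (∀ n : ℕ, 1 ≤ n → ‖b n‖ ≤ C * (n : ℝ) ^ θ) ∧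
    ∀ s : ℂ, 1 < s.re → LSeries a s = Complex.exp (LSeries b s))

/-- Primitive elements of the Selberg class (as in the frozen statement S16630). -/
def IsPrim (a : ℕ → ℂ) : Prop :=
  IsSel a ∧ (∃ n : ℕ, 2 ≤ n ∧ a n ≠ 0) ∧
    ∀ f g : ℕ → ℂ, IsSel f → IsSel g →
      (∀ s : ℂ, 1 < s.re → LSeries a s = LSeries f s * LSeries g s) →
      (∀ n : ℕ, 2 ≤ n → f n = 0) ∨ (∀ n : ℕ, 2 ≤ n → g n = 0)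

end Pool.Agent.H520Z.Sel
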