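import Pool.Agent.H520Z.Sel.Euler
import Pool.Agent.H520Z.Sel.PL

set_option autoImplicit false

namespace Pool.Agent.H520Z.Sel

/-- The real span of the test functions `y ↦ E (t y) - t^(-k) E (y / t)`, `t > 0`. -/
noncomputable def Vsp (k : ℝ) (E : ℝ → ℝ) : Submodule ℝ (ℝ → ℝ) :=
  Submodule.span ℝ {h | ∃ t : ℝ, 0 < t ∧ h = fun y => E (t * y) - t ^ (-k) * E (y / t)}

/-- Weighted sup-norm Poincare property of a space of functions on `(0, ∞)`. -/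
def Poin (V : Submodule ℝ (ℝ → ℝ)) (c c1 C0 : ℝ) : Prop :=
  ∀ h ∈ V, ∃ h' : ℝ → ℝ, (∀ y, 0 < y → HasDerivAt h (h' y) y) ∧ ContinuousOn h' (Set.Ioi 0) ∧
    ∀ N : ℝ, (∀ y, 0 < y → (y ^ c + y ^ (c - 1)) * |h y| ≤ N) →
      ∀ y, 0 < y → y ^ (c1 + 1) * |h' y| ≤ C0 * N

end Pool.Agent.H520Z.Sel
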