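import Pool.Agent.H520Z.Sel.Defs2

set_option autoImplicit false

namespace Pool.Agent.H520Z.Sel

open MeasureTheory Set

/-- Mellin data `G` of a test function `h` on the two lines `Re w = c2`, `Re w = c1`. -/
def MRep (k c2 c1 : ℝ) (sg : ℂ) (Ψ2 Ψ1 : ℝ → ℂ) (h : ℝ → ℝ) (G : ℂ → ℂ) : Prop :=
  ∃ h' : ℝ → ℝ, (∀ y, 0 < y → HasDerivAt h (h' y) y) ∧ ContinuousOn h' (Ioi 0) ∧
    Differentiable ℂ G ∧ (∃ K : ℝ, ∀ w : ℂ, k - c2 ≤ w.re → w.re ≤ c2 → ‖G w‖ ≤ K) ∧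
    (∀ w : ℂ, G ((k : ℂ) - starRingEnd ℂ w) = sg * starRingEnd ℂ (G w)) ∧
    (∀ u : ℝ, HasMellin (fun y => (h y : ℂ)) ((c2 : ℂ) + u * Complex.I)
      (Ψ2 u * G ((c2 : ℂ) + u * Complex.I))) ∧
    (∀ u : ℝ, HasMellin (fun y => ((y * h' y : ℝ) : ℂ)) ((c1 : ℂ) + u * Complex.I)
      (Ψ1 u * G ((c1 : ℂ) + u * Complex.I)))

/-- Entire function with simple zeros at `b + i T n` and `k - b + i T n`. -/
noncomputable def Pz (k b T : ℝ) (w : ℂ) : ℂ :=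
  Complex.sinh (Real.pi * (w - b) / T) * Complex.sinh (Real.pi * (w - k + b) / T)

/-- The test function that evaluates the completed function at `w0`. -/
noncomputable def Hw (k : ℝ) (w0 : ℂ) (y : ℝ) : ℂ :=
  ∫ t in Ioi (1 : ℝ), (Real.exp (-(t * y)) : ℂ) * ((t : ℂ) ^ (w0 - 1) + (t : ℂ) ^ ((k : ℂ) - w0 - 1))

/-- `Γ / P` on the line `Re w = c2`. -/
noncomputable def Psi2 (k b T c2 : ℝ) (u : ℝ) : ℂ :=
  Complex.Gamma ((c2 : ℂ) + u * Complex.I) / Pz k b T ((c2 : ℂ) + u * Complex.I)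

/-- `- w Γ / P` on the line `Re w = c1`. -/
noncomputable def Psi1 (k b T c1 : ℝ) (u : ℝ) : ℂ :=
  -(((c1 : ℂ) + u * Complex.I) * Complex.Gamma ((c1 : ℂ) + u * Complex.I)) /
    Pz k b T ((c1 : ℂ) + u * Complex.I)

end Pool.Agent.H520Z.Sel
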