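import Pool.Agent.H520Z.Sel.Defs

set_option autoImplicit false

namespace Pool.Agent.H520Z.Sel

open Filter Topology Set

section generic
variable {R : Type*} [RCLike R]

/-- generic version of `expCoef` -/
noncomputable def ec (c : ℕ → R) (n : ℕ) : R :=
  if n = 0 then 0 else n.factorization.prod fun p k => c p ^ k / (k.factorial : R)

lemma ec_zero (c : ℕ → R) : ec c 0 = 0 := by simp [ec]

lemma ec_one (c : ℕ → R) : ec c 1 = 1 := by simp [ec]

lemma ec_eq (c : ℕ → R) {n : ℕ} (hn : n ≠ 0) :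
    ec c n = ∏ p ∈ n.primeFactors, c p ^ n.factorization p / ((n.factorization p).factorial : R) := by
  simp [ec, hn, Finsupp.prod]

lemma ec_mul (c : ℕ → R) {m n : ℕ} (h : Nat.Coprime m n) : ec c (m * n) = ec c m * ec c n := by
  rcases eq_or_ne m 0 with rfl | hm
  · simp [ec]
  rcases eq_or_ne n 0 with rfl | hn
  · simp [ec]
  simp only [ec, hm, hn, mul_eq_zero, or_self, if_false]
  rw [Nat.factorization_mul_of_coprime h, Finsupp.prod_add_index_of_disjoint]
  simpa using h.disjoint_primeFactors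

lemma ec_prime_pow (c : ℕ → R) {p : ℕ} (hp : p.Prime) (k : ℕ) :
    ec c (p ^ k) = c p ^ k / (k.factorial : R) := by
  have h0 : p ^ k ≠ 0 := pow_ne_zero _ hp.ne_zero
  simp only [ec, h0, if_false]
  rw [hp.factorization_pow, Finsupp.prod_single_index]
  simp

lemma ec_prime (c : ℕ → R) {p : ℕ} (hp : p.Prime) : ec c p = c p := by
  simpa using ec_prime_pow c hp 1

lemma ec_congr {c c' : ℕ → R} (h : ∀ p, p.Prime → c p = c' p) (n : ℕ) : ec c n = ec c' n := by
  rcases eq_or_ne n 0 with rfl | hn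
  · simp [ec]
  rw [ec_eq c hn, ec_eq c' hn]
  refine Finset.prod_congr rfl fun p hp => ?_
  rw [h p (Nat.prime_of_mem_primeFactors hp)]

lemma norm_ec (c : ℕ → R) (n : ℕ) : ‖ec c n‖ = ec (fun p => ‖c p‖) n := by
  rcases eq_or_ne n 0 with rfl | hn
  · simp [ec]
  rw [ec_eq c hn, ec_eq _ hn, norm_prod]
  refine Finset.prod_congr rfl fun p _ => ?_
  simp

/-- twisting by a completely multiplicative function -/
lemma ec_twist (c : ℕ → R) (χ : ℕ →* R) (n : ℕ) :
    ec (fun p => c p * χ p) n = ec c n * χ n := by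
  rcases eq_or_ne n 0 with rfl | hn
  · simp [ec]
  have h1 : χ n = ∏ p ∈ n.primeFactors, χ p ^ n.factorization p := by
    conv_lhs => rw [← Nat.prod_factorization_pow_eq_self hn]
    simp [Finsupp.prod, map_prod]
  rw [ec_eq c hn, ec_eq _ hn, h1, ← Finset.prod_mul_distrib]
  refine Finset.prod_congr rfl fun p _ => ?_
  rw [mul_pow]; ring

lemma ec_add (c c' : ℕ → R) (n : ℕ) :
    ec (fun p => c p + c' p) n = ∑ x ∈ n.divisorsAntidiagonal, ec c x.1 * ec c' x.2 := by
  let A : (ℕ → R) → ArithmeticFunction R := fun c => ⟨ec c, ec_zero c⟩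
  have hA : ∀ c, (A c).IsMultiplicative := fun c => ⟨ec_one c, fun h => ec_mul c h⟩
  have key : A (fun p => c p + c' p) = A c * A c' := by
    rw [ArithmeticFunction.IsMultiplicative.eq_iff_eq_on_prime_powers _ (hA _) _
      ((hA c).mul (hA c'))]
    intro p i hp
    rw [ArithmeticFunction.mul_apply, Nat.sum_divisorsAntidiagonal (fun a b => A c a * A c' b),
      Nat.divisors_prime_pow hp, Finset.sum_map]
    change ec _ (p ^ i) = ∑ x ∈ Finset.range (i + 1), ec c (p ^ x) * ec c' (p ^ i / p ^ x)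
    rw [ec_prime_pow _ hp, add_pow, Finset.sum_div]
    refine Finset.sum_congr rfl fun x hx => ?_
    have hx' : x ≤ i := Nat.lt_succ_iff.1 (Finset.mem_range.1 hx)
    rw [Nat.pow_div hx' hp.pos, ec_prime_pow _ hp, ec_prime_pow _ hp, Nat.cast_choose R hx']
    have h1 : ((i.factorial : ℕ) : R) ≠ 0 := by exact_mod_cast i.factorial_ne_zero
    have h2 : ((x.factorial : ℕ) : R) ≠ 0 := by exact_mod_cast x.factorial_ne_zero
    have h3 : (((i - x).factorial : ℕ) : R) ≠ 0 := by exact_mod_cast (i - x).factorial_ne_zero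
    field_simp
  have h5 : A (fun p => c p + c' p) n = (A c * A c') n := by rw [key]
  rw [ArithmeticFunction.mul_apply] at h5
  exact h5

end generic

lemma expCoef_eq (c : ℕ → ℝ) : expCoef c = ec c := rfl

lemma ec_nonneg {c : ℕ → ℝ} (hc : ∀ p, 0 ≤ c p) (n : ℕ) : 0 ≤ ec c n := by
  rcases eq_or_ne n 0 with rfl | hn
  · simp [ec]
  rw [ec_eq c hn]
  exact Finset.prod_nonneg fun p _ => div_nonneg (pow_nonneg (hc p) _) (Nat.cast_nonneg _)

lemma abs_ec (c : ℕ → ℝ) (n : ℕ) : |ec c n| = ec (fun p => |c p|) n := norm_ec c n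

lemma ofReal_ec (c : ℕ → ℝ) (n : ℕ) : ((ec c n : ℝ) : ℂ) = ec (fun p => (c p : ℂ)) n := by
  rcases eq_or_ne n 0 with rfl | hn
  · simp [ec]
  rw [ec_eq c hn, ec_eq _ hn]
  push_cast
  rfl

lemma hasSum_rexp (x : ℝ) : HasSum (fun k : ℕ => x ^ k / (k.factorial : ℝ)) (Real.exp x) := by
  rw [Real.exp_eq_exp_ℝ]
  exact NormedSpace.expSeries_div_hasSum_exp x

lemma hasSum_cexp (x : ℂ) : HasSum (fun k : ℕ => x ^ k / (k.factorial : ℂ)) (Complex.exp x) := by
  rw [Complex.exp_eq_exp_ℂ]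
  exact NormedSpace.expSeries_div_hasSum_exp x

lemma summable_ec_nonneg {c : ℕ → ℝ} (hc : ∀ p, 0 ≤ c p)
    (h : Summable fun p : Nat.Primes => c p) : Summable (ec c) := by
  refine summable_of_sum_range_le (c := Real.exp (∑' p : Nat.Primes, c p)) (ec_nonneg hc) ?_
  intro N
  have hs : ∀ {p : ℕ}, p.Prime → Summable (fun n : ℕ ↦ ‖ec c (p ^ n)‖) := by
    intro p hp
    refine ((hasSum_rexp (c p)).summable).congr fun n => ?_
    rw [Real.norm_of_nonneg (ec_nonneg hc _), ec_prime_pow c hp]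
  obtain ⟨-, h2⟩ := EulerProduct.summable_and_hasSum_smoothNumbers_prod_primesBelow_tsum
    (f := ec c) (ec_one c) (fun h => ec_mul c h) hs N
  have h3 : ∏ p ∈ N.primesBelow, ∑' n : ℕ, ec c (p ^ n) = Real.exp (∑ p ∈ N.primesBelow, c p) := by
    rw [Real.exp_sum]
    refine Finset.prod_congr rfl fun p hp => ?_
    have hp' := Nat.prime_of_mem_primesBelow hp
    simp_rw [ec_prime_pow c hp']
    exact (hasSum_rexp _).tsum_eq
  have h4 : ∑ p ∈ N.primesBelow, c p ≤ ∑' p : Nat.Primes, c p := by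
    have h5 : ∑ p ∈ N.primesBelow, c p =
        ∑ p ∈ (N.primesBelow.subtype Nat.Prime), c (p : ℕ) := by
      rw [Finset.sum_subtype_of_mem]
      exact fun p hp => Nat.prime_of_mem_primesBelow hp
    rw [h5]
    exact Summable.sum_le_tsum (f := fun p : Nat.Primes => c p) (N.primesBelow.subtype Nat.Prime)
      (fun p _ => hc p) h
  have h6 : ∑ i ∈ Finset.range N, ec c i ≤ ∏ p ∈ N.primesBelow, ∑' n : ℕ, ec c (p ^ n) := by
    have h7 : ∑ i ∈ Finset.range N, ec c i =
        ∑ i ∈ (Finset.range N).filter (fun i => i ∈ N.smoothNumbers), ec c i := by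
      rw [Finset.sum_filter]
      refine Finset.sum_congr rfl fun i hi => ?_
      split_ifs with hh
      · rfl
      · rcases eq_or_ne i 0 with rfl | hi0
        · exact ec_zero c
        · exact absurd (Nat.mem_smoothNumbers_of_lt (Nat.pos_of_ne_zero hi0)
            (Finset.mem_range.1 hi)) hh
    have h8 : ∑ i ∈ (Finset.range N).filter (fun i => i ∈ N.smoothNumbers), ec c i =
        ∑ i ∈ (Finset.range N).subtype (fun i => i ∈ N.smoothNumbers), ec c (i : ℕ) := by
      rw [Finset.sum_subtype_eq_sum_filter]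
    rw [h7, h8]
    exact sum_le_hasSum _ (fun i _ => ec_nonneg hc _) h2
  calc _ ≤ _ := h6
    _ = _ := h3
    _ ≤ _ := Real.exp_le_exp.2 h4

lemma summable_norm_ec {R : Type*} [RCLike R] {c : ℕ → R}
    (h : Summable fun p : Nat.Primes => ‖c p‖) : Summable fun n => ‖ec c n‖ := by
  simp_rw [norm_ec]
  exact summable_ec_nonneg (c := fun p => ‖c p‖) (fun p => norm_nonneg _) h

lemma hasSum_ec_real {c : ℕ → ℝ} (h : Summable fun p : Nat.Primes => |c p|) :
    HasSum (ec c) (Real.exp (∑' p : Nat.Primes, c p)) := by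
  have h1 := summable_norm_ec (c := c) h
  have h2 := EulerProduct.eulerProduct_hasProd (f := ec c) (ec_one c) (fun h => ec_mul c h) h1
    (ec_zero c)
  have h3 : (fun p : Nat.Primes => ∑' e, ec c (p ^ e)) = fun p : Nat.Primes => Real.exp (c p) := by
    funext p
    simp_rw [ec_prime_pow c p.2]
    exact (hasSum_rexp _).tsum_eq
  rw [h3] at h2
  have h4 := (Summable.of_abs h).hasSum.rexp
  rw [h4.unique h2]
  exact h1.of_norm.hasSum

lemma hasSum_ec_complex {c : ℕ → ℂ} (h : Summable fun p : Nat.Primes => ‖c p‖) :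
    HasSum (ec c) (Complex.exp (∑' p : Nat.Primes, c p)) := by
  have h1 := summable_norm_ec (c := c) h
  have h2 := EulerProduct.eulerProduct_hasProd (f := ec c) (ec_one c) (fun h => ec_mul c h) h1
    (ec_zero c)
  have h3 : (fun p : Nat.Primes => ∑' e, ec c (p ^ e)) =
      fun p : Nat.Primes => Complex.exp (c p) := by
    funext p
    simp_rw [ec_prime_pow c p.2]
    exact (hasSum_cexp _).tsum_eq
  rw [h3] at h2
  have h4 := h.of_norm.hasSum.cexp
  rw [h4.unique h2]
  exact h1.of_norm.hasSum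

/-- `n ↦ n ^ x` as a monoid hom (real) -/
noncomputable def rpowHom (x : ℝ) : ℕ →* ℝ where
  toFun n := (n : ℝ) ^ x
  map_one' := by simp
  map_mul' m n := by
    push_cast
    exact Real.mul_rpow (Nat.cast_nonneg _) (Nat.cast_nonneg _)

/-- `n ↦ n ^ s` as a monoid hom (complex) -/
noncomputable def cpowHom (s : ℂ) : ℕ →* ℂ where
  toFun n := (n : ℂ) ^ s
  map_one' := by simp
  map_mul' m n := by
    push_cast
    exact Complex.natCast_mul_natCast_cpow m n s

lemma ec_rpow (c : ℕ → ℝ) (x : ℝ) (n : ℕ) :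
    ec (fun p => c p * (p : ℝ) ^ x) n = ec c n * (n : ℝ) ^ x := ec_twist c (rpowHom x) n

theorem LSeries_ec (c : ℕ → ℝ) (s : ℂ)
    (h : Summable fun p : Nat.Primes => |c p| * ((p : ℕ) : ℝ) ^ (-s.re)) :
    LSeriesHasSum (fun n => ((ec c n : ℝ) : ℂ)) s
      (Complex.exp (∑' p : Nat.Primes, (c p : ℂ) * ((p : ℕ) : ℂ) ^ (-s))) := by
  have h1 : Summable fun p : Nat.Primes => ‖(c p : ℂ) * ((p : ℕ) : ℂ) ^ (-s)‖ := by
    refine h.congr fun p => ?_
    simp only [norm_mul, Complex.norm_real, Real.norm_eq_abs]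
    rw [Complex.norm_natCast_cpow_of_pos p.2.pos]
    simp
  have h2 := hasSum_ec_complex (c := fun q : ℕ => (c q : ℂ) * (q : ℂ) ^ (-s)) h1
  have h3 : LSeries.term (fun n => ((ec c n : ℝ) : ℂ)) s =
      ec (fun q : ℕ => (c q : ℂ) * (q : ℂ) ^ (-s)) := by
    funext n
    have h4 : ec (fun q : ℕ => (c q : ℂ) * (q : ℂ) ^ (-s)) n =
        ec (fun p => (c p : ℂ)) n * (n : ℂ) ^ (-s) := ec_twist (fun p => (c p : ℂ)) (cpowHom (-s)) n
    rw [h4, ← ofReal_ec]
    rcases eq_or_ne n 0 with rfl | hn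
    · simp [ec_zero]
    rw [LSeries.term_of_ne_zero hn, div_eq_mul_inv, ← Complex.cpow_neg]
  unfold LSeriesHasSum
  rw [h3]
  exact h2

lemma abs_prod_sub_le {ι : Type*} (s : Finset ι) (f g F G : ι → ℝ) (hg : ∀ i, |g i| ≤ G i)
    (hfg : ∀ i, |f i - g i| ≤ F i - G i) :
    |∏ i ∈ s, f i - ∏ i ∈ s, g i| ≤ ∏ i ∈ s, F i - ∏ i ∈ s, G i := by
  classical
  have hf : ∀ i, |f i| ≤ F i := fun i => by
    have := abs_sub_abs_le_abs_sub (f i) (g i)
    linarith [hg i, hfg i]
  induction s using Finset.induction_on with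
  | empty => simp
  | insert a s ha ih =>
    simp only [Finset.prod_insert ha]
    have h1 : |∏ i ∈ s, f i| ≤ ∏ i ∈ s, F i := by
      rw [Finset.abs_prod]
      exact Finset.prod_le_prod (fun i _ => abs_nonneg _) fun i _ => hf i
    have h2 : f a * ∏ i ∈ s, f i - g a * ∏ i ∈ s, g i =
        (f a - g a) * ∏ i ∈ s, f i + g a * (∏ i ∈ s, f i - ∏ i ∈ s, g i) := by ring
    rw [h2]
    refine (abs_add_le _ _).trans ?_
    rw [abs_mul, abs_mul]
    have h3 : |f a - g a| * |∏ i ∈ s, f i| ≤ (F a - G a) * ∏ i ∈ s, F i :=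
      mul_le_mul (hfg a) h1 (abs_nonneg _) ((abs_nonneg _).trans (hfg a))
    have h4 : |g a| * |∏ i ∈ s, f i - ∏ i ∈ s, g i| ≤ G a * (∏ i ∈ s, F i - ∏ i ∈ s, G i) :=
      mul_le_mul (hg a) ih (abs_nonneg _) ((abs_nonneg _).trans (hg a))
    nlinarith

lemma abs_ec_sub_le (x x' : ℕ → ℝ) (n : ℕ) :
    |ec x n - ec x' n| ≤ ec (fun p => |x' p| + |x p - x' p|) n - ec (fun p => |x' p|) n := by
  rcases eq_or_ne n 0 with rfl | hn
  · simp [ec]
  simp only [ec_eq _ hn]
  apply abs_prod_sub_le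
  · intro p
    rw [abs_div, abs_pow, Nat.abs_cast]
  · intro p
    rw [← sub_div, ← sub_div, abs_div, Nat.abs_cast]
    apply div_le_div_of_nonneg_right _ (Nat.cast_nonneg _)
    have := abs_prod_sub_le (Finset.range (n.factorization p)) (fun _ => x p) (fun _ => x' p)
      (fun _ => |x' p| + |x p - x' p|) (fun _ => |x' p|) (fun _ => le_rfl) (fun _ => by simp)
    simpa using this

theorem ec_ramanujan (c : ℕ → ℝ)
    (h : ∀ ε : ℝ, 0 < ε → ∃ P : ℕ, ∀ p : ℕ, p.Prime → P ≤ p → |c p| ≤ (p : ℝ) ^ ε) :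
    ∀ ε : ℝ, 0 < ε → ∃ C : ℝ, ∀ n : ℕ, 1 ≤ n → |ec c n| ≤ C * (n : ℝ) ^ ε := by
  intro ε hε
  obtain ⟨P, hP⟩ := h ε hε
  refine ⟨∏ p ∈ Finset.range P, Real.exp |c p|, fun n hn => ?_⟩
  have hn0 : n ≠ 0 := by omega
  have h1 : (n : ℝ) ^ ε = ∏ p ∈ n.primeFactors, ((p : ℝ) ^ ε) ^ n.factorization p := by
    have := map_prod (rpowHom ε) (fun p => p ^ n.factorization p) n.primeFactors
    have h2 : ∏ p ∈ n.primeFactors, p ^ n.factorization p = n := by
      conv_rhs => rw [← Nat.prod_factorization_pow_eq_self hn0]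
      simp [Finsupp.prod]
    rw [h2] at this
    simp only [map_pow] at this
    exact this
  have h3 : ∏ p ∈ n.primeFactors, (if p < P then Real.exp |c p| else 1) ≤
      ∏ p ∈ Finset.range P, Real.exp |c p| := by
    rw [← Finset.prod_filter]
    apply Finset.prod_le_prod_of_subset_of_one_le
    · intro p hp
      exact Finset.mem_range.2 (Finset.mem_filter.1 hp).2
    · intro p _
      exact (Real.exp_pos _).le
    · intro p _ _
      exact Real.one_le_exp (abs_nonneg _)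
  rw [abs_ec, ec_eq _ hn0, h1]
  refine le_trans ?_ (mul_le_mul_of_nonneg_right h3 (Finset.prod_nonneg fun p _ => by positivity))
  rw [← Finset.prod_mul_distrib]
  refine Finset.prod_le_prod (fun p _ => by positivity) fun p hp => ?_
  have hpp := Nat.prime_of_mem_primeFactors hp
  have hp1 : (1 : ℝ) ≤ (p : ℝ) ^ ε :=
    Real.one_le_rpow (by exact_mod_cast hpp.one_lt.le) hε.le
  have hf : (1 : ℝ) ≤ ((n.factorization p).factorial : ℝ) := by
    exact_mod_cast Nat.factorial_pos _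
  split_ifs with hlt
  · calc _ ≤ Real.exp |c p| := Real.pow_div_factorial_le_exp _ (abs_nonneg _) _
      _ ≤ _ := le_mul_of_one_le_right (Real.exp_pos _).le (one_le_pow₀ hp1)
  · rw [one_mul]
    calc _ ≤ |c p| ^ n.factorization p := div_le_self (by positivity) hf
      _ ≤ _ := pow_le_pow_left₀ (abs_nonneg _) (hP p hpp (not_lt.1 hlt)) _

end Pool.Agent.H520Z.Sel
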