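import Pool.Agent.H520Z.Sel.Pack
import Pool.Agent.H520Z.Sel.Assemble
import Pool.Agent.H412Z.Signs
import Pool.Agent.H62Z.KernelMellin
import Pool.Agent.H511Z.Poincare
import Pool.Agent.Helper242.KK.Gam2

set_option autoImplicit false

namespace Pool.Agent.H520Z.Sel

open MeasureTheory Set Filter Topology

lemma weight_lip (K0 e : ℝ) (hK0 : 0 ≤ K0) (u v : ℝ) :
    K0 * (1 + |u|) ^ e * Real.exp (Real.pi / 2 * |u|) ≤
      K0 * (1 + |v|) ^ e * Real.exp (Real.pi / 2 * |v|) *
        Real.exp ((|e| + Real.pi / 2) * |u - v|) := by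
  have hu := abs_nonneg u
  have hv := abs_nonneg v
  have hd := abs_nonneg (u - v)
  have key : ∀ a b : ℝ, Real.log (1 + |a|) - Real.log (1 + |b|) ≤ |a - b| := by
    intro a b
    have ha := abs_nonneg a
    have hb := abs_nonneg b
    rw [← Real.log_div (by positivity) (by positivity)]
    refine (Real.log_le_sub_one_of_pos (by positivity)).trans ?_
    rw [div_sub_one (by positivity), div_le_iff₀ (by positivity)]
    have := abs_sub_abs_le_abs_sub a b
    nlinarith [abs_nonneg (a - b)]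
  have h1 : |Real.log (1 + |u|) - Real.log (1 + |v|)| ≤ |u - v| := by
    rw [abs_le]
    constructor
    · have := key v u
      rw [abs_sub_comm] at this
      linarith
    · exact key u v
  have h2 : e * (Real.log (1 + |u|) - Real.log (1 + |v|)) ≤ |e| * |u - v| := by
    refine (le_abs_self _).trans ?_
    rw [abs_mul]
    gcongr
  have h3 : |u| - |v| ≤ |u - v| := abs_sub_abs_le_abs_sub u v
  rw [Real.rpow_def_of_pos (by positivity), Real.rpow_def_of_pos (by positivity), mul_assoc,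
    mul_assoc, mul_assoc, ← Real.exp_add, ← Real.exp_add, ← Real.exp_add]
  apply mul_le_mul_of_nonneg_left _ hK0
  apply Real.exp_le_exp.2
  nlinarith [Real.pi_pos]

lemma Vsp_decay (k c : ℝ) (E : ℝ → ℝ) (h1 : ∃ K : ℝ, ∀ y, 0 < y → y ^ (c + 1) * |E y| ≤ K)
    (h2 : ∃ K : ℝ, ∀ y, 0 < y → y ^ (c - 1) * |E y| ≤ K) :
    ∀ h ∈ Vsp k E, ∃ K : ℝ, ∀ y, 0 < y → (y ^ (c + 1) + y ^ (c - 1)) * |h y| ≤ K := by
  obtain ⟨K1, h1⟩ := h1
  obtain ⟨K2, h2⟩ := h2
  have hsc : ∀ t : ℝ, 0 < t → ∀ y, 0 < y →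
      (y ^ (c + 1) + y ^ (c - 1)) * |E (t * y)| ≤ K1 / t ^ (c + 1) + K2 / t ^ (c - 1) := by
    intro t ht y hy
    have a1 := h1 (t * y) (by positivity)
    have a2 := h2 (t * y) (by positivity)
    rw [Real.mul_rpow ht.le hy.le] at a1 a2
    rw [add_mul]
    apply add_le_add
    · rw [le_div_iff₀ (by positivity)]; linarith
    · rw [le_div_iff₀ (by positivity)]; linarith
  intro h hh
  induction hh using Submodule.span_induction with
  | mem h hh =>
    obtain ⟨t, ht, rfl⟩ := hh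
    refine ⟨(K1 / t ^ (c + 1) + K2 / t ^ (c - 1)) +
      t ^ (-k) * (K1 / t⁻¹ ^ (c + 1) + K2 / t⁻¹ ^ (c - 1)), fun y hy => ?_⟩
    have a1 := hsc t ht y hy
    have a2 := hsc t⁻¹ (by positivity) y hy
    rw [inv_mul_eq_div] at a2
    have a3 : |E (t * y) - t ^ (-k) * E (y / t)| ≤ |E (t * y)| + t ^ (-k) * |E (y / t)| := by
      refine (abs_sub _ _).trans ?_
      rw [abs_mul, abs_of_pos (Real.rpow_pos_of_pos ht _)]
    have a4 : 0 < t ^ (-k) := Real.rpow_pos_of_pos ht _
    calc _ ≤ (y ^ (c + 1) + y ^ (c - 1)) * (|E (t * y)| + t ^ (-k) * |E (y / t)|) := by gcongr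
      _ = (y ^ (c + 1) + y ^ (c - 1)) * |E (t * y)| +
          t ^ (-k) * ((y ^ (c + 1) + y ^ (c - 1)) * |E (y / t)|) := by ring
      _ ≤ _ := by gcongr
  | zero => exact ⟨0, fun y _ => by simp⟩
  | add f g _ _ hf hg =>
    obtain ⟨A, hA⟩ := hf
    obtain ⟨B, hB⟩ := hg
    refine ⟨A + B, fun y hy => ?_⟩
    calc _ ≤ (y ^ (c + 1) + y ^ (c - 1)) * (|f y| + |g y|) := by
          gcongr
          exact abs_add_le _ _
      _ ≤ _ := by rw [mul_add]; exact add_le_add (hA y hy) (hB y hy)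
  | smul a f _ hf =>
    obtain ⟨A, hA⟩ := hf
    refine ⟨|a| * A, fun y hy => ?_⟩
    simp only [Pi.smul_apply, smul_eq_mul, abs_mul]
    calc _ = |a| * ((y ^ (c + 1) + y ^ (c - 1)) * |f y|) := by ring
      _ ≤ _ := by gcongr; exact hA y hy

/-- An element of the Selberg class of any large real degree with `|a(p)| ≥ log p - 1`. -/
theorem exists_exotic : ∃ lam0 : ℝ, ∀ lam : ℝ, lam0 ≤ lam → ∃ (Q : ℝ) (c : ℕ → ℝ) (F : ℂ → ℂ),
    Exo lam Q c F ∧ ∃ P : ℕ, ∀ p : ℕ, p.Prime → P ≤ p → Real.log p - 1 ≤ |c p| := by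
  obtain ⟨L, hL1, hasm⟩ := assemble (17 / 20) (by norm_num)
  have hL1' : (1 : ℝ) ≤ L := by exact_mod_cast hL1
  refine ⟨100 * L, fun lam hlam => ?_⟩
  have hlam100 : 100 ≤ lam := by linarith
  have hlam0 : 0 < lam := by linarith
  obtain ⟨N0, z, D, hz0, hz1, hD, hDs, hDb⟩ :=
    exists_signs (fun n => if n.Prime then Real.log n else 0) (fun n => by
      split_ifs
      · rw [abs_of_nonneg (Real.log_natCast_nonneg n)]
      · simpa using Real.log_natCast_nonneg n)
  have hzl : ∀ n : ℕ, |z n| ≤ Real.log n := by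
    intro n
    rcases lt_or_ge n N0 with h | h
    · simpa [hz0 n h] using Real.log_natCast_nonneg n
    · rw [hz1 n h]
      split_ifs
      · rw [abs_of_nonneg (Real.log_natCast_nonneg n)]
      · simpa using Real.log_natCast_nonneg n
  have hznp : ∀ n : ℕ, ¬ n.Prime → z n = 0 := by
    intro n hn
    rcases lt_or_ge n N0 with h | h
    · exact hz0 n h
    · have := hz1 n h
      simpa [hn] using this
  have hzc : ∀ p : ℕ, p.Prime → |z p| ≤ 1 + Real.log p := fun p _ => by linarith [hzl p]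
  obtain ⟨C1, hC1⟩ := ec_ram z hzc 1 one_pos
  set C : ℝ := max C1 (Real.exp 1) with hC
  have hexp : ∀ (s : ℂ) (x : ℝ), 3 / 4 < s.re → x ≤ ‖D s‖ →
      Real.exp x ≤ Real.exp 1 * (2 + |s.im|) := by
    intro s x hs hx
    calc Real.exp x ≤ Real.exp (1 + Real.log (2 + |s.im|)) :=
          Real.exp_le_exp.2 (hx.trans (hDb s hs))
      _ = _ := by rw [Real.exp_add, Real.exp_log (by positivity)]
  have hup : ∀ s : ℂ, 3 / 4 < s.re → ‖Complex.exp (D s)‖ ≤ Real.exp 1 * (2 + |s.im|) := by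
    intro s hs
    rw [Complex.norm_exp]
    exact hexp s _ hs (Complex.re_le_norm _)
  have hlow : ∀ s : ℂ, 3 / 4 < s.re → 1 ≤ Real.exp 1 * (2 + |s.im|) * ‖Complex.exp (D s)‖ := by
    intro s hs
    rw [Complex.norm_exp]
    have h1 := hexp s (-(D s).re) hs ((neg_le_abs _).trans (Complex.abs_re_le_norm _))
    calc (1 : ℝ) = Real.exp (-(D s).re) * Real.exp (D s).re := by
          rw [← Real.exp_add]; simp
      _ ≤ _ := by gcongr
  set E : ℝ → ℝ := fun y => ∑' n : ℕ, ec z n * Real.exp (-(y * (n : ℝ) ^ (1 / lam))) with hE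
  set E' : ℝ → ℝ := fun y => ∑' n : ℕ,
      -(ec z n * (n : ℝ) ^ (1 / lam) * Real.exp (-(y * (n : ℝ) ^ (1 / lam)))) with hE'
  obtain ⟨k1, k2, k3, k4⟩ := kernel_mellin lam (by linarith) (ec z) (ec_zero z) C
    (fun n => by
      rcases Nat.eq_zero_or_pos n with rfl | hn
      · simp [ec_zero]
      · have := hC1 n hn
        rw [Real.rpow_one] at this
        exact this.trans (mul_le_mul_of_nonneg_right (le_max_left _ _) (Nat.cast_nonneg _)))
    (fun s => Complex.exp (D s)) hD.cexp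
    (fun s hs => (hup s hs).trans (mul_le_mul_of_nonneg_right (le_max_right _ _) (by positivity)))
    (fun s hs => by
      rw [(LSeries_ec z s (summable_primes z hzc (by linarith))).LSeries_eq,
        ← (hDs s (by linarith)).tsum_eq]
      congr 1
      symm
      apply tsum_subtype_eq_of_support_subset (s := {p : ℕ | p.Prime})
        (f := fun n : ℕ => (z n : ℂ) * (n : ℂ) ^ (-s))
      intro n hn
      by_contra h
      apply hn
      simp [hznp n h])
    E E' (fun y => rfl) (fun y => rfl)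
  set c1 : ℝ := 19 / 25 * lam with hc1
  set c : ℝ := c1 + 8 with hc
  obtain ⟨Cg, hCg, hg⟩ := Pool.Agent.Helper242.KK.inv_Gamma_bound (ε := 1) one_pos
  have hdiv : ∀ (σ u : ℝ), c1 ≤ σ → 3 / 4 < (((σ : ℂ) + u * Complex.I) / lam).re ∧
      2 + |(((σ : ℂ) + u * Complex.I) / lam).im| ≤ 2 * (1 + |u|) := by
    intro σ u hσ
    rw [Complex.div_ofReal_re, Complex.div_ofReal_im]
    simp only [Complex.add_re, Complex.ofReal_re, Complex.mul_re, Complex.I_re, mul_zero,
      Complex.ofReal_im, Complex.I_im, mul_one, sub_self, add_zero, Complex.add_im,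
      Complex.mul_im, zero_add]
    constructor
    · rw [lt_div_iff₀ hlam0]; linarith
    · rw [abs_div, abs_of_pos hlam0]
      have h1 : |u| / lam ≤ |u| := div_le_self (abs_nonneg u) (by linarith)
      linarith [abs_nonneg u]
  set K0 : ℝ := Cg * Real.exp (1 * (c - 1 / 2) ^ 2) * (Real.exp 1 * 2) with hK0
  have hK0p : 0 < K0 := by positivity
  set K1 : ℝ := Real.exp 1 * Real.Gamma c1 * (Real.pi / 2) ^ c1 * (c1 + 1) * (Real.exp 1 * 2)
    with hK1
  have hc1p : 0 < c1 := by linarith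
  have hGp : 0 < Real.Gamma c1 := Real.Gamma_pos_of_pos hc1p
  obtain ⟨C0, hC0, hP⟩ := poincare lam c c1 (|7 / 2 - c| + Real.pi / 2) (K0 * K1) E E'
    (fun u => K0 * (1 + |u|) ^ (7 / 2 - c) * Real.exp (Real.pi / 2 * |u|))
    (by linarith) (by linarith) (by linarith) k1 k2 (weight_lip K0 _ hK0p.le)
    (k4 _ (by simp; linarith)).1.1
    (fun u => by
      rw [(k4 _ (by simp; linarith)).1.2, norm_mul]
      obtain ⟨d1, d2⟩ := hdiv (c - 1 / 2) u (by linarith)
      have a1 := hlow _ d1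
      have a2 := hg (c - 1 / 2) u
      have hne : Complex.Gamma (((c - 1 / 2 : ℝ) : ℂ) + u * Complex.I) ≠ 0 :=
        Complex.Gamma_ne_zero_of_re_pos (by simp; linarith)
      have a3 : 0 < ‖Complex.Gamma (((c - 1 / 2 : ℝ) : ℂ) + u * Complex.I)‖ := norm_pos_iff.2 hne
      rw [norm_inv, inv_le_iff_one_le_mul₀ a3] at a2
      have a4 : (1 + |u|) ^ (7 / 2 - c) = (1 + |u|) ^ (2 - (c - 1 / 2)) * (1 + |u|) := by
        rw [← Real.rpow_add_one (by positivity)]; congr 1; ring
      have a5 : 1 ≤ Real.exp 1 * (2 * (1 + |u|)) *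
          ‖Complex.exp (D ((((c - 1 / 2 : ℝ) : ℂ) + u * Complex.I) / lam))‖ :=
        a1.trans (by gcongr)
      calc (1 : ℝ) = 1 * 1 := by ring
        _ ≤ _ := mul_le_mul a2 a5 zero_le_one (zero_le_one.trans a2)
        _ = _ := by rw [a4, hK0]; ring)
    (k4 _ (by simp; linarith)).2.1
    (fun u => by
      rw [(k4 _ (by simp; linarith)).2.2, norm_neg, norm_mul, norm_mul]
      obtain ⟨d1, d2⟩ := hdiv c1 u le_rfl
      have a1 : ‖Complex.exp (D (((c1 : ℂ) + u * Complex.I) / lam))‖ ≤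
          Real.exp 1 * (2 * (1 + |u|)) := (hup _ d1).trans (by gcongr)
      have a2 := Pool.Agent.Helper242.KK.norm_Gamma_le u hc1p
      have a3 : ‖(c1 : ℂ) + u * Complex.I‖ ≤ (c1 + 1) * (1 + |u|) := by
        refine (norm_add_le _ _).trans ?_
        simp only [Complex.norm_real, Real.norm_eq_abs, norm_mul, Complex.norm_I, mul_one,
          abs_of_pos hc1p]
        nlinarith [abs_nonneg u]
      have hu1 : 0 < 1 + |u| := by positivity
      rw [Real.mul_rpow (by positivity) hu1.le, Real.exp_sub] at a2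
      have a4 : (1 + |u|) ^ (7 / 2 - c) * (1 + |u|) ^ c1 * (1 + |u|) * (1 + |u|) ≤
          1 / (1 + u ^ 2) := by
        rw [← Real.rpow_add hu1, ← Real.rpow_add_one hu1.ne', ← Real.rpow_add_one hu1.ne']
        calc _ ≤ (1 + |u|) ^ (-2 : ℝ) :=
              Real.rpow_le_rpow_of_exponent_le (by linarith [abs_nonneg u]) (by linarith)
          _ = ((1 + |u|) ^ 2)⁻¹ := by rw [Real.rpow_neg hu1.le]; norm_cast
          _ ≤ _ := by
              rw [one_div]
              apply inv_anti₀ (by positivity)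
              nlinarith [abs_nonneg u, sq_abs u]
      have he : 0 < Real.exp (Real.pi / 2 * |u|) := Real.exp_pos _
      calc _ ≤ K0 * (1 + |u|) ^ (7 / 2 - c) * Real.exp (Real.pi / 2 * |u|) *
            ((c1 + 1) * (1 + |u|) * (Real.exp 1 / Real.exp (Real.pi / 2 * |u|) * Real.Gamma c1 *
              ((Real.pi / 2) ^ c1 * (1 + |u|) ^ c1)) * (Real.exp 1 * (2 * (1 + |u|)))) := by
            gcongr
        _ = K0 * K1 * ((1 + |u|) ^ (7 / 2 - c) * (1 + |u|) ^ c1 * (1 + |u|) * (1 + |u|)) := by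
            rw [hK1]; field_simp
        _ ≤ K0 * K1 * (1 / (1 + u ^ 2)) := by gcongr
        _ = _ := by ring)
  obtain ⟨η, hη, δ, hδ, hx⟩ := hasm (Vsp lam E) lam c c1 C0 hc1p (by linarith) hC0
    (by rw [hc]; linarith) (by rw [hc, hc1]; linarith) hP
    (Vsp_decay lam c E (k3 _ (by linarith)) (k3 _ (by linarith)))
  obtain ⟨x, hx1, -, hx3⟩ := hx η hη le_rfl 0 (fun h N hN => by
    have := hN 1 one_pos
    have h0 : 0 ≤ N := le_trans (by positivity) this
    simp only [LinearMap.zero_apply, abs_zero]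
    positivity)
  have hxc : ∀ p : ℕ, p.Prime → |x p| ≤ 1 + Real.log p := fun p _ => by
    linarith [hx1 p, Real.log_natCast_nonneg p]
  have hconv : ∀ a : ℝ, 0 < a → HasSum (fun n : ℕ => ec x n * E (a * (n : ℝ) ^ (1 / lam)))
      (∑' N : ℕ, ec (fun p => x p + z p) N * Real.exp (-(a * (N : ℝ) ^ (1 / lam)))) := by
    intro a ha
    obtain ⟨K, hK⟩ := exp_decay a lam ha hlam0
    have := hasSum_conv x z hxc hzc (fun N => Real.exp (-(a * (N : ℝ) ^ (1 / lam)))) K hK
    convert this using 3 with n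
    simp only [hE]
    refine tsum_congr fun m => ?_
    rw [Nat.cast_mul, Real.mul_rpow (Nat.cast_nonneg _) (Nat.cast_nonneg _), mul_assoc]
  obtain ⟨F, hF⟩ := exo_of_theta lam η hlam0 hη (fun p => x p + z p)
    (fun p _ => (abs_add_le _ _).trans (add_le_add (hx1 p) (hzl p)))
    (fun t ht => by
      have h1 := hx3 ⟨fun y => E (t * y) - t ^ (-lam) * E (y / t),
        Submodule.subset_span ⟨t, ht, rfl⟩⟩
      have h2 := (hconv (t * η) (by positivity)).sub
        ((hconv (η / t) (by positivity)).mul_left (t ^ (-lam)))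
      simp only [LinearMap.zero_apply] at h1
      have h3 : (fun n : ℕ => ec x n * (E (t * (η * (n : ℝ) ^ (1 / lam))) -
          t ^ (-lam) * E (η * (n : ℝ) ^ (1 / lam) / t))) =
          fun n : ℕ => ec x n * E (t * η * (n : ℝ) ^ (1 / lam)) -
            t ^ (-lam) * (ec x n * E (η / t * (n : ℝ) ^ (1 / lam))) := by
        funext n
        rw [mul_assoc t η, div_mul_eq_mul_div]
        ring
      rw [h3] at h1
      have h4 := sub_eq_zero.1 (h2.unique h1)
      simp only [mul_assoc, div_mul_eq_mul_div] at h4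
      exact h4)
  refine ⟨_, _, F, hF, N0, fun p hp hP => ?_⟩
  have h1 := hz1 p hP
  simp only [hp, if_true, abs_of_nonneg (Real.log_natCast_nonneg p)] at h1
  have h2 : |z p| ≤ |x p + z p| + |x p| := by
    have := abs_sub (x p + z p) (x p)
    simpa using this
  linarith [hx1 p]

end Pool.Agent.H520Z.Sel
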