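import Mathlib

set_option autoImplicit false

namespace Pool.Agent.H520Z.Sel

/-- `GLShaped m N μ α Λ`: the function `Λ` has the analytic shape of the completed standard
`L`-function of a tempered cuspidal representation of `GL m` with trivial central character,
conductor `N`, archimedean parameters `μ`, local parameters `α p` and root number `1`. -/
def GLShaped (m N : ℕ) (μ : Fin m → ℝ) (α : ℕ → Fin m → ℂ) (Λ : ℂ → ℂ) : Prop :=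
  1 ≤ N ∧
  (∀ p : ℕ, p.Prime → ¬ p ∣ N → (∀ j, ‖α p j‖ = 1) ∧ ∏ j, α p j = 1) ∧
  (∀ p : ℕ, p.Prime → p ∣ N → ∀ j, α p j = 0) ∧
  Differentiable ℂ Λ ∧
  (∀ σ₁ σ₂ : ℝ, ∃ K : ℝ, ∀ s : ℂ, σ₁ ≤ s.re → s.re ≤ σ₂ → ‖Λ s‖ ≤ K) ∧
  (∀ s : ℂ, 1 < s.re → ∃ L : ℂ,
    HasProd (fun p : Nat.Primes => ∏ j, (1 - α p j * ((p : ℕ) : ℂ) ^ (-s))⁻¹) L ∧
    Λ s = (∏ j, Complex.Gammaℝ (s - (μ j : ℂ))) * L) ∧
  ∀ s : ℂ, Λ s = (N : ℂ) ^ (1 / 2 - s) * starRingEnd ℂ (Λ (1 - starRingEnd ℂ s))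

end Pool.Agent.H520Z.Sel
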