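import Pool.Agent.H520Z.Sel.AssembleMC

set_option autoImplicit false

namespace Pool.Agent.H520Z.Sel

open Set Filter Topology

lemma weight_lip' (K0 e a : ℝ) (hK0 : 0 ≤ K0) (ha : 0 ≤ a) (u v : ℝ) :
    K0 * ((1 + |u|) ^ e * Real.exp (a * |u|)) ≤
      K0 * ((1 + |v|) ^ e * Real.exp (a * |v|)) * Real.exp ((|e| + a) * |u - v|) := by
  have hu := abs_nonneg u
  have hv := abs_nonneg v
  have hd := abs_nonneg (u - v)
  have key : ∀ a b : ℝ, Real.log (1 + |a|) - Real.log (1 + |b|) ≤ |a - b| := by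
    intro a b
    have ha := abs_nonneg a
    have hb := abs_nonneg b
    rw [← Real.log_div (by positivity) (by positivity)]
    refine (Real.log_le_sub_one_of_pos (by positivity)).trans ?_
    rw [div_sub_one (by positivity), div_le_iff₀ (by positivity)]
    have := abs_sub_abs_le_abs_sub a b
    nlinarith [abs_nonneg (a - b)]
  have h1 : |Real.log (1 + |u|) - Real.log (1 + |v|)| ≤ |u - v| := by
    rw [abs_le]
    constructor
    · have := key v u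
      rw [abs_sub_comm] at this
      linarith
    · exact key u v
  have h2 : e * (Real.log (1 + |u|) - Real.log (1 + |v|)) ≤ |e| * |u - v| := by
    refine (le_abs_self _).trans ?_
    rw [abs_mul]
    gcongr
  have h3 : a * (|u| - |v|) ≤ a * |u - v| :=
    mul_le_mul_of_nonneg_left (abs_sub_abs_le_abs_sub u v) ha
  rw [Real.rpow_def_of_pos (by positivity), Real.rpow_def_of_pos (by positivity), mul_assoc,
    ← Real.exp_add, ← Real.exp_add, ← Real.exp_add]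
  apply mul_le_mul_of_nonneg_left _ hK0
  apply Real.exp_le_exp.2
  nlinarith

lemma euler_ne_zero (f : ℕ → ℂ) (hf1 : f 1 = 1)
    (hmul : ∀ {m n : ℕ}, Nat.Coprime m n → f (m * n) = f m * f n)
    (hsum : Summable fun n => ‖f n‖) (hf0 : f 0 = 0)
    (hne : ∀ p : Nat.Primes, ∑' e, f (p ^ e) ≠ 0) : ∑' n, f n ≠ 0 := by
  have hP := EulerProduct.eulerProduct_hasProd hf1 hmul hsum hf0
  have hinj : Function.Injective fun pk : Nat.Primes × ℕ => (pk.1 : ℕ) ^ (pk.2 + 1) :=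
    Subtype.val_injective.comp Nat.Primes.prodNatEquiv.injective
  have hs2 : Summable fun pk : Nat.Primes × ℕ => ‖f ((pk.1 : ℕ) ^ (pk.2 + 1))‖ :=
    hsum.comp_injective hinj
  have he : ∀ p : Nat.Primes, ∑' e, f (p ^ e) = 1 + ∑' e, f ((p : ℕ) ^ (e + 1)) := by
    intro p
    have h1 : Summable fun e => f ((p : ℕ) ^ e) :=
      hsum.of_norm.comp_injective (Nat.pow_right_injective p.2.two_le)
    rw [h1.tsum_eq_zero_add, pow_zero, hf1]
  rw [← hP.tprod_eq]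
  simp only [he]
  refine tprod_one_add_ne_zero_of_summable (fun p => he p ▸ hne p) ?_
  refine Summable.of_nonneg_of_le (fun _ => norm_nonneg _) (fun p => ?_) hs2.prod
  exact norm_tsum_le_tsum_norm (hs2.prod_factor p)

/-- The Euler product of the exotic coefficients. -/
theorem euler_mc (m : ℕ) (hm : 3 ≤ m) (ph : ℝ → ℕ → ℝ) (hph1 : ∀ x, ph x 0 = 1 ∧ ph x 1 = x)
    (hph0 : ∀ k, 1 ≤ k → ph 0 k = 0)
    (hser : ∀ x : ℝ, |x| ≤ 1 / 2 → ∀ z : ℂ, ‖z‖ < 1 / 2 → HasSum (fun k => (ph x k : ℂ) * z ^ k)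
      ((1 + (-1) ^ m * z ^ m) / (1 - x * z + (-1) ^ m * z ^ (m - 1) * (z - x))))
    (x : ℕ → ℝ) (hx1 : ∀ p, |x p| ≤ 1 / 2) (hx2 : x 2 = 0) (α : ℕ → Fin m → ℂ)
    (hα2 : ∀ j, α 2 j = 0)
    (hα : ∀ p, p ≠ 2 → (∀ j, ‖α p j‖ = 1) ∧
      ∀ z : ℂ, ∏ j, (1 - α p j * z) = 1 - x p * z + (-1) ^ m * z ^ (m - 1) * (z - x p))
    (γ : ℝ) (hγ : 2 / 3 ≤ γ)
    (hs : Summable fun n : ℕ => |mc (fun p => ph (x p)) n| * (n : ℝ) ^ (-γ))
    (s : ℂ) (hγs : γ < s.re) (F : ℂ)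
    (hF : HasProd (fun p : Nat.Primes => if (p : ℕ) = 2 then (1 : ℂ) else
          (1 + (-1) ^ m * (((p : ℕ) : ℂ) ^ (-s)) ^ m)⁻¹) F) :
    ∃ D : ℂ, HasSum (fun n : ℕ => ((mc (fun p => ph (x p)) n : ℝ) : ℂ) * (n : ℂ) ^ (-s)) D ∧
      ‖D‖ ≤ ∑' n : ℕ, |mc (fun p => ph (x p)) n| * (n : ℝ) ^ (-γ) ∧ D ≠ 0 ∧
      HasProd (fun p : Nat.Primes => ∏ j, (1 - α p j * ((p : ℕ) : ℂ) ^ (-s))⁻¹) (D * F) := by
  set a : ℕ → ℝ := mc (fun p => ph (x p)) with ha
  set f : ℕ → ℂ := fun n => (a n : ℂ) * (n : ℂ) ^ (-s) with hf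
  have hf0 : f 0 = 0 := by simp [hf, ha, MC.mc_zero]
  have hf1 : f 1 = 1 := by simp [hf, ha, MC.mc_one]
  have hmul : ∀ {k n : ℕ}, Nat.Coprime k n → f (k * n) = f k * f n := by
    intro k n h
    simp only [hf, ha, MC.mc_mul _ h, Nat.cast_mul, Complex.natCast_mul_natCast_cpow,
      Complex.ofReal_mul]
    ring
  have hle : ∀ n, ‖f n‖ ≤ |a n| * (n : ℝ) ^ (-γ) := by
    intro n
    rcases Nat.eq_zero_or_pos n with rfl | hn
    · rw [hf0, norm_zero]; positivity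
    · simp only [hf, norm_mul, Complex.norm_real, Real.norm_eq_abs,
        Complex.norm_natCast_cpow_of_pos hn, Complex.neg_re]
      apply mul_le_mul_of_nonneg_left _ (abs_nonneg _)
      exact Real.rpow_le_rpow_of_exponent_le (by exact_mod_cast hn) (by linarith)
  have hsum : Summable fun n => ‖f n‖ :=
    Summable.of_nonneg_of_le (fun _ => norm_nonneg _) hle hs
  have hfp : ∀ p : Nat.Primes, ∀ e : ℕ,
      f (p ^ e) = (ph (x p) e : ℂ) * (((p : ℕ) : ℂ) ^ (-s)) ^ e := by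
    intro p e
    simp only [hf, ha]
    rw [MC.mc_prime_pow _ (fun q => (hph1 _).1) p.2, Nat.cast_pow, ← Complex.natCast_cpow_natCast_mul,
      Complex.cpow_nat_mul]
  have h2 : ∀ p : Nat.Primes, (p : ℕ) = 2 → ∑' e, f (p ^ e) = 1 := by
    intro p hp
    rw [tsum_eq_single 0]
    · rw [pow_zero, hf1]
    · intro e he
      rw [hfp, hp, hx2, hph0 e (Nat.one_le_iff_ne_zero.2 he)]
      simp
  have hz : ∀ p : Nat.Primes, (p : ℕ) ≠ 2 → ‖((p : ℕ) : ℂ) ^ (-s)‖ < 1 / 2 := by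
    intro p hp
    have h3 : (3 : ℝ) ≤ (p : ℕ) := by
      have := p.2.two_le
      exact_mod_cast (by omega : 3 ≤ (p : ℕ))
    rw [Complex.norm_natCast_cpow_of_pos p.2.pos, Complex.neg_re]
    have e1 : ((p : ℕ) : ℝ) ^ (-s.re) ≤ ((p : ℕ) : ℝ) ^ (-(2 / 3) : ℝ) :=
      Real.rpow_le_rpow_of_exponent_le (by linarith) (by linarith)
    have e2 : ((p : ℕ) : ℝ) ^ (-(2 / 3) : ℝ) ≤ (3 : ℝ) ^ (-(2 / 3) : ℝ) :=
      Real.rpow_le_rpow_of_nonpos (by norm_num) h3 (by norm_num)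
    have e3 : (3 : ℝ) ^ (-(2 / 3) : ℝ) < 1 / 2 := by
      apply lt_of_pow_lt_pow_left₀ 3 (by norm_num)
      rw [← Real.rpow_natCast, ← Real.rpow_mul (by norm_num)]
      norm_num
    linarith
  have hnum : ∀ z : ℂ, ‖z‖ < 1 / 2 → 1 + (-1) ^ m * z ^ m ≠ 0 := by
    intro z hz h
    have e1 : (-1) ^ m * z ^ m = -1 := by linear_combination h
    have e2 := congrArg norm e1
    simp only [norm_mul, norm_pow, norm_neg, norm_one, one_pow, one_mul] at e2
    have := pow_lt_one₀ (norm_nonneg z) (by linarith : ‖z‖ < 1) (by omega : m ≠ 0)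
    linarith
  have hden : ∀ p : ℕ, p ≠ 2 → ∀ z : ℂ, ‖z‖ < 1 / 2 → ∏ j, (1 - α p j * z) ≠ 0 := by
    intro p hp z hz
    refine Finset.prod_ne_zero_iff.2 fun j _ h => ?_
    have e1 : α p j * z = 1 := by linear_combination -h
    have e2 := congrArg norm e1
    rw [norm_mul, (hα p hp).1 j, norm_one] at e2
    linarith
  have h3 : ∀ p : Nat.Primes, (p : ℕ) ≠ 2 → ∑' e, f (p ^ e) =
      (1 + (-1) ^ m * (((p : ℕ) : ℂ) ^ (-s)) ^ m) / ∏ j, (1 - α p j * ((p : ℕ) : ℂ) ^ (-s)) := by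
    intro p hp
    simp only [hfp]
    rw [(hser _ (hx1 p) _ (hz p hp)).tsum_eq, (hα p hp).2]
  refine ⟨∑' n, f n, hsum.of_norm.hasSum, tsum_of_norm_bounded hs.hasSum hle,
    euler_ne_zero f hf1 hmul hsum hf0 fun p => ?_, ?_⟩
  · by_cases hp : (p : ℕ) = 2
    · rw [h2 p hp]; exact one_ne_zero
    · rw [h3 p hp]
      exact div_ne_zero (hnum _ (hz p hp)) (hden p hp _ (hz p hp))
  · convert (EulerProduct.eulerProduct_hasProd hf1 hmul hsum hf0).mul hF using 2 with p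
    by_cases hp : (p : ℕ) = 2
    · rw [h2 p hp, if_pos hp, hp]
      simp [hα2]
    · rw [h3 p hp, if_neg hp, Finset.prod_inv_distrib]
      rw [div_mul_eq_mul_div, mul_inv_cancel₀ (hnum _ (hz p hp)), one_div]

end Pool.Agent.H520Z.Sel
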