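import Pool.Agent.H520Z.Sel.KInterp
import Pool.Agent.H520Z.Sel.GEuler
import Pool.Agent.H520Z.Sel.GDefs
import Pool.Agent.H432Z.GamR
import Pool.Agent.H240Z.LocSer

set_option autoImplicit false

namespace Pool.Agent.H520Z.Sel

open Set Filter Topology

lemma arg_div (c u lam : ℝ) :
    ((c : ℂ) + u * Complex.I) / lam = ((c / lam : ℝ) : ℂ) + ((u / lam : ℝ) : ℂ) * Complex.I := by
  push_cast
  ring

lemma scale_pow (η lam ℓ : ℝ) (hη : 0 < η) (hlam : 0 < lam) (hℓ : lam * Real.log η = -ℓ) (n : ℕ)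
    (hn : 0 < n) (s : ℂ) :
    ((η * (n : ℝ) ^ (1 / lam) : ℝ) : ℂ) ^ (-(lam * s)) = Complex.exp (ℓ * s) * (n : ℂ) ^ (-s) := by
  have hn' : (0 : ℝ) < n := by exact_mod_cast hn
  have h1 : 0 < η * (n : ℝ) ^ (1 / lam) := by positivity
  rw [Complex.cpow_def_of_ne_zero (by exact_mod_cast h1.ne'), ← Complex.ofReal_log h1.le,
    Complex.cpow_def_of_ne_zero (by exact_mod_cast hn.ne'), ← Complex.exp_add,
    Real.log_mul hη.ne' (by positivity), Real.log_rpow hn', ← Complex.ofReal_natCast,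
    ← Complex.ofReal_log hn'.le]
  congr 1
  have h2 : (ℓ : ℂ) = -(lam * Real.log η : ℝ) := by rw [hℓ]; simp
  have h3 : (lam : ℂ) ≠ 0 := by exact_mod_cast hlam.ne'
  rw [h2]
  push_cast
  field_simp
  ring

theorem gl_interp (β γ : ℝ) (hβ : 1 / 2 < β) (hβγ : β < γ) (hγ0 : 2 / 3 ≤ γ) (hγ : γ < 1) :
    ∃ m0 : ℕ, ∀ m : ℕ, m0 ≤ m → ∀ μ : Fin m → ℝ, (∀ j, μ j ≤ 0) → ∃ r0 : ℕ, ∀ r : ℕ, r0 ≤ r →
      ∀ A : Set ℕ, ∃ (α : ℕ → Fin m → ℂ) (Λ : ℂ → ℂ), GLShaped m (2 ^ r) μ α Λ ∧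
        (∀ s : ℂ, γ < s.re → Λ s ≠ 0) ∧
        (∃ B : ℝ, ∀ s : ℂ, γ < s.re → ‖Λ s * (gamR μ s)⁻¹‖ ≤ B) ∧
        (∀ n : ℕ, 1 ≤ n → n ∈ A → Λ (β + n * Complex.I) = 0) ∧
        ∃ δ : ℝ, 0 < δ ∧ ∀ n : ℕ, 1 ≤ n → n ∉ A →
          δ * (1 + (n : ℝ)) ^ (m / 2 * (γ - β) - 5 / 2) ≤
            ‖Λ (β + n * Complex.I) * (gamR μ (β + n * Complex.I))⁻¹‖ := by
  classical
  obtain ⟨L, hL1, hker⟩ := kernel_interp γ hγ
  obtain ⟨m0, hm0⟩ := exists_nat_gt (12 * (L : ℝ) + 12 / (γ - β) + 3)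
  refine ⟨m0, fun m hm μ hμ => ?_⟩
  have hL1' : (1 : ℝ) ≤ L := by exact_mod_cast hL1
  have hd : 0 < γ - β := by linarith
  have hd' : 0 < 12 / (γ - β) := by positivity
  have hm' : 12 * (L : ℝ) + 12 / (γ - β) + 3 < m := hm0.trans_le (by exact_mod_cast hm)
  have hm3 : 3 ≤ m := by
    have : (3 : ℝ) ≤ m := by linarith
    exact_mod_cast this
  set lam : ℝ := m / 2 with hlam
  have hlam1 : 6 ≤ lam := by linarith
  have hlam0 : 0 < lam := by linarith
  have hlamc : (lam : ℂ) ≠ 0 := by exact_mod_cast hlam0.ne'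
  have hgap : 6 < (γ - β) * lam := by
    have : 12 / (γ - β) < m := by linarith
    rw [div_lt_iff₀ hd] at this
    rw [hlam]; linarith
  obtain ⟨g1, g2, g3, g4, g5, g6⟩ := gamR_bounds (by omega : 1 ≤ m) μ hμ
  obtain ⟨⟨ph, p1, p2, p3, p4⟩, hal, F0, C, hC, f1, f2⟩ := local_series m hm3
  set S : ℝ := ∑ j, μ j with hS
  set b : ℝ := β * lam with hb
  set c : ℝ := γ * lam with hc
  have hbc : b < c - 6 := by rw [hb, hc]; linarith
  have hdiv : ∀ a : ℝ, b ≤ a → β ≤ a / lam := fun a ha => by rwa [le_div_iff₀ hlam0]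
  have hre : ∀ w : ℂ, (w / lam).re = w.re / lam := fun w => by simp
  have him : ∀ w : ℂ, (w / lam).im = w.im / lam := fun w => by simp
  obtain ⟨C2, hC2, hb2⟩ := g1 ((c - 1 / 2) / lam) (by linarith [hdiv (c - 1 / 2) (by linarith)])
  obtain ⟨C1, hC1, hb1⟩ := g1 ((c - 6) / lam) (by linarith [hdiv (c - 6) (by linarith)])
  obtain ⟨Cb, hCb, hbb⟩ := g1 β (by linarith)
  set e : ℝ := (m * ((c - 1 / 2) / lam) - S - m) / 2 with he
  have he1 : (m * ((c - 6) / lam) - S - m) / 2 = e - 11 / 2 := by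
    rw [he, hlam]; field_simp; ring
  have he2 : (m * β - S - m) / 2 = e - (lam * (γ - β) - 1 / 2) := by
    rw [he, hc, hlam]; field_simp; ring
  set a0 : ℝ := Real.pi * m / 4 with ha0
  have ha00 : 0 ≤ a0 := by have := Real.pi_pos; positivity
  set W : ℝ → ℝ := fun u => C2 * C * ((1 + |u / lam|) ^ (-e) * Real.exp (a0 * |u / lam|)) with hW
  have hcancel : ∀ t x : ℝ, ((1 + |t|) ^ (-e) * Real.exp (a0 * |t|)) *
      ((1 + |t|) ^ (e - x) * Real.exp (-(a0 * |t|))) = (1 + |t|) ^ (-x) := by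
    intro t x
    rw [mul_mul_mul_comm, ← Real.exp_add, ← Real.rpow_add (by positivity)]
    simp
    ring_nf
  obtain ⟨η0, δ, hη0, hδ, hmain⟩ := hker lam b c ((|-e| + a0) / lam)
    (C2 * C * C1 * C * ((c + lam) * lam ^ 2)) (fun w => gamR μ (w / lam) * F0 (w / lam)) W ph
    (by linarith) (by rw [hb]; nlinarith) hbc le_rfl
    (by
      apply DifferentiableOn.mul
      · refine g3.comp (by fun_prop) fun w hw => ?_
        have := hdiv _ (le_of_lt hw)
        simp only [mem_setOf_eq, hre]; linarith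
      · refine f1.comp (by fun_prop) fun w hw => ?_
        have := hdiv _ (le_of_lt hw)
        simp only [mem_setOf_eq, hre]; linarith)
    (fun w hw => by
      have h1 : starRingEnd ℂ w / lam = starRingEnd ℂ (w / lam) := by simp
      have := hdiv _ (le_of_lt hw)
      rw [h1, g6, (f2 (w / lam) (by rw [hre]; linarith)).2.2.1, map_mul])
    (fun a b' ha => by
      obtain ⟨K, hK⟩ := g2 (a / lam) (b' / lam) (by linarith [hdiv a ha.le])
      refine ⟨|K| * lam ^ 3 * C, fun w h1 h2 => ?_⟩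
      have h3 := (hK (w / lam) (by rw [hre]; gcongr) (by rw [hre]; gcongr)).1
      have h4 := (f2 (w / lam) (by rw [hre]; linarith [hdiv w.re (by linarith)])).1
      rw [him, abs_div, abs_of_pos hlam0] at h3
      have h5 : (1 + |w.im|) / lam ≤ 1 + |w.im| / lam := by
        rw [add_div]
        have : 1 / lam ≤ 1 := by rw [div_le_one hlam0]; linarith
        linarith
      have h6 : K / (1 + |w.im| / lam) ^ 3 ≤ |K| / ((1 + |w.im|) / lam) ^ 3 := by
        gcongr
        exact le_abs_self K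
      rw [norm_mul]
      calc _ ≤ |K| / ((1 + |w.im|) / lam) ^ 3 * C := by gcongr; exact h3.trans h6
        _ = _ := by field_simp)
    (fun u v => by
      have := weight_lip' (C2 * C) (-e) a0 (by positivity) ha00 (u / lam) (v / lam)
      rw [← sub_div, abs_div (u - v), abs_of_pos hlam0] at this
      convert this using 3
      ring)
    (fun u => by
      have h1 := (hb2 (u / lam)).2
      have h2 := (f2 ((((c - 1 / 2) / lam : ℝ) : ℂ) + ((u / lam : ℝ) : ℂ) * Complex.I)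
        (by simp only [Complex.add_re, Complex.ofReal_re, Complex.mul_re, Complex.I_re, mul_zero,
              Complex.ofReal_im, Complex.I_im, mul_one, sub_self, add_zero]
            linarith [hdiv (c - 1 / 2) (by linarith)])).2.1
      have h3 := hcancel (u / lam) 0
      rw [sub_zero, neg_zero, Real.rpow_zero] at h3
      simp only [arg_div, norm_mul, hW]
      have h4 : 0 < (1 + |u / lam|) ^ (-e) * Real.exp (a0 * |u / lam|) := by positivity
      have h5 := mul_le_mul_of_nonneg_left h1 h4.le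
      rw [h3] at h5
      have h6 := one_le_mul_of_one_le_of_one_le h5 h2
      refine h6.trans (le_of_eq ?_)
      ring)
    (fun u => by
      have h1 := (hb1 (u / lam)).1
      rw [he1] at h1
      have h2 := (f2 ((((c - 6) / lam : ℝ) : ℂ) + ((u / lam : ℝ) : ℂ) * Complex.I)
        (by simp only [Complex.add_re, Complex.ofReal_re, Complex.mul_re, Complex.I_re, mul_zero,
              Complex.ofReal_im, Complex.I_im, mul_one, sub_self, add_zero]
            linarith [hdiv (c - 6) (by linarith)])).1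
      have h3 := hcancel (u / lam) (11 / 2)
      set t : ℝ := |u / lam| with ht
      have ht0 : 0 ≤ t := abs_nonneg _
      have hut : |u| = lam * t := by rw [ht, abs_div, abs_of_pos hlam0]; field_simp
      have hc0 : 0 ≤ c - 6 := by
        have : 0 < b := by rw [hb]; nlinarith
        linarith
      have h4 : ‖((c - 6 : ℝ) : ℂ) + u * Complex.I‖ ≤ (c + lam) * (1 + t) := by
        refine (norm_add_le _ _).trans ?_
        rw [norm_mul, Complex.norm_I, mul_one, Complex.norm_real, Complex.norm_real,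
          Real.norm_eq_abs, Real.norm_eq_abs, hut, abs_of_nonneg hc0]
        nlinarith
      have h5 : 1 + u ^ 2 ≤ lam ^ 2 * (1 + t) ^ 2 := by
        rw [← sq_abs u, hut]
        nlinarith [mul_nonneg (sq_nonneg lam) ht0]
      have h6 : (1 + t) ^ (-(11 / 2) : ℝ) * (1 + t) ^ 3 ≤ 1 := by
        rw [← Real.rpow_natCast, ← Real.rpow_add (by positivity)]
        exact Real.rpow_le_one_of_one_le_of_nonpos (by linarith) (by norm_num)
      simp only [arg_div, norm_mul, hW]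
      rw [le_div_iff₀ (by positivity), ← ht]
      calc _ ≤ C2 * C * ((1 + t) ^ (-e) * Real.exp (a0 * t)) * ((c + lam) * (1 + t) *
            (C1 * ((1 + t) ^ (e - 11 / 2) * Real.exp (-(a0 * t))) * C)) *
            (lam ^ 2 * (1 + t) ^ 2) := by gcongr
        _ = C2 * C * C1 * C * ((c + lam) * lam ^ 2) * ((((1 + t) ^ (-e) * Real.exp (a0 * t)) *
            ((1 + t) ^ (e - 11 / 2) * Real.exp (-(a0 * t)))) * (1 + t) ^ 3) := by ring
        _ ≤ _ := by
          rw [h3]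
          have hc1 : 0 < c := by linarith
          exact mul_le_of_le_one_right (by positivity) h6)
    p1 p2 p3
  obtain ⟨k, hk⟩ := pow_unbounded_of_one_lt (1 / η0) (by norm_num : (1 : ℝ) < 2)
  refine ⟨m * k + 1, fun r hr A => ?_⟩
  have hm0' : (0 : ℝ) < m := by linarith
  set η : ℝ := (2 : ℝ) ^ (-(r : ℝ) / m) with hη
  have hη1 : 0 < η := by positivity
  have hη2 : η ≤ η0 := by
    have h1 : -(r : ℝ) / m ≤ -(k : ℝ) := by
      rw [div_le_iff₀ hm0']
      have : ((m * k + 1 : ℕ) : ℝ) ≤ r := by exact_mod_cast hr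
      push_cast at this
      linarith
    refine (Real.rpow_le_rpow_of_exponent_le (by norm_num) h1).trans ?_
    rw [Real.rpow_neg (by norm_num), Real.rpow_natCast]
    rw [div_lt_iff₀ hη0] at hk
    rw [inv_le_iff_one_le_mul₀ (by positivity)]
    linarith
  set ℓ : ℝ := r / 2 * Real.log 2 with hℓ
  have hℓ0 : 0 ≤ ℓ := by have := Real.log_nonneg (by norm_num : (1 : ℝ) ≤ 2); positivity
  have hℓ1 : lam * Real.log η = -ℓ := by
    rw [hη, Real.log_rpow (by norm_num), hℓ, hlam]; field_simp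
  obtain ⟨x, Λ0, x1, x2, x3, q1, q2, q3, q4, q5, q6, q7⟩ := hmain η hη1 hη2 A
  choose α0 hα1 hα2 hα3 using fun p => hal (x p) (x1 p)
  set α : ℕ → Fin m → ℂ := fun p => if p = 2 then 0 else α0 p with hα
  have hcl : c / lam = γ := by rw [hc]; field_simp
  rw [hcl] at x3
  set Λ : ℂ → ℂ := fun s => Complex.exp (-(ℓ * s)) * Λ0 (lam * s) with hΛ
  have key : ∀ s : ℂ, γ < s.re → ∃ D : ℂ,
      ‖D‖ ≤ ∑' n : ℕ, |mc (fun p => ph (x p)) n| * (n : ℝ) ^ (-γ) ∧ D ≠ 0 ∧
      HasProd (fun p : Nat.Primes => ∏ j, (1 - α p j * ((p : ℕ) : ℂ) ^ (-s))⁻¹) (D * F0 s) ∧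
      Λ s = gamR μ s * (D * F0 s) := by
    intro s hs
    obtain ⟨D, d1, d2, d3, d4⟩ := euler_mc m hm3 ph p1 p2 p4 x x1 x2 α (fun j => by simp [hα])
      (fun p hp => by simp only [hα, if_neg hp]; exact ⟨hα1 p, hα3 p⟩) γ hγ0 x3 s hs (F0 s)
      (f2 s (by linarith)).2.2.2
    refine ⟨D, d2, d3, d4, ?_⟩
    have h1 := q5 (lam * s) (by
      simp only [Complex.re_ofReal_mul]
      rw [hc, mul_comm]; gcongr)
    have h2 := d1.mul_right (Complex.exp (ℓ * s) * (gamR μ s * F0 s))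
    have h3 : Λ0 (lam * s) = D * (Complex.exp (ℓ * s) * (gamR μ s * F0 s)) := by
      refine h1.unique (h2.congr_fun fun n => ?_)
      rcases Nat.eq_zero_or_pos n with rfl | hn
      · simp [MC.mc_zero]
      · rw [scale_pow η lam ℓ hη1 hlam0 hℓ1 n hn, mul_div_cancel_left₀ _ hlamc]
        ring
    simp only [hΛ]
    rw [h3, Complex.exp_neg]
    have := Complex.exp_ne_zero (ℓ * s)
    field_simp
  have harg : ∀ n : ℕ, (lam : ℂ) * (β + n * Complex.I) = (b : ℂ) + (lam * n : ℝ) * Complex.I := by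
    intro n
    rw [hb]; push_cast; ring
  have h2dvd : ∀ p : ℕ, p.Prime → (p ∣ 2 ^ r ↔ p = 2) := fun p hp =>
    ⟨fun h => (Nat.prime_dvd_prime_iff_eq hp Nat.prime_two).1 (hp.dvd_of_dvd_pow h),
      fun h => h ▸ dvd_pow_self _ (by omega)⟩
  refine ⟨α, Λ, ⟨Nat.one_le_two_pow, fun p hp h => ?_, fun p hp h j => ?_, ?_, fun σ₁ σ₂ => ?_,
    fun s hs => ?_, fun s => ?_⟩, fun s hs => ?_,
    ⟨(∑' n : ℕ, |mc (fun p => ph (x p)) n| * (n : ℝ) ^ (-γ)) * C, fun s hs => ?_⟩,
    fun n hn hA => ?_,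
    Real.exp (-(ℓ * β)) * δ / (C2 * C * Cb), by positivity, fun n hn hA => ?_⟩
  · rw [h2dvd p hp] at h
    simp only [hα, if_neg h]
    exact ⟨hα1 p, hα2 p⟩
  · rw [h2dvd p hp] at h
    simp [hα, h]
  · exact Differentiable.mul (by fun_prop) (q1.comp (by fun_prop))
  · obtain ⟨K, hK⟩ := q2 (lam * σ₁) (lam * σ₂)
    refine ⟨Real.exp (-(ℓ * σ₁)) * K, fun s h1 h2 => ?_⟩
    simp only [hΛ, norm_mul, Complex.norm_exp, Complex.neg_re, Complex.re_ofReal_mul]
    have := hK (lam * s) (by simp only [Complex.re_ofReal_mul]; gcongr)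
      (by simp only [Complex.re_ofReal_mul]; gcongr)
    gcongr
  · obtain ⟨D, -, -, d3, d4⟩ := key s (by linarith)
    exact ⟨_, d3, d4⟩
  · have h1 : (lam : ℂ) * (1 - starRingEnd ℂ s) = starRingEnd ℂ (lam - lam * s) := by
      simp; ring
    have h2 : (((2 ^ r : ℕ) : ℂ)) ^ (1 / 2 - s) = Complex.exp (2 * ℓ * (1 / 2 - s)) := by
      rw [Complex.cpow_def_of_ne_zero (Nat.cast_ne_zero.2 (by positivity)), ← Complex.ofReal_natCast,
        ← Complex.ofReal_log (by positivity)]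
      congr 2
      rw [hℓ]
      push_cast
      rw [Real.log_pow]
      push_cast
      ring
    simp only [hΛ]
    rw [h1, q4, q3, h2, map_mul, Complex.conj_conj, ← Complex.exp_conj, ← mul_assoc,
      ← Complex.exp_add]
    congr 2
    simp
    ring
  · obtain ⟨D, -, d2, -, d4⟩ := key s hs
    rw [d4]
    refine mul_ne_zero (g5 s (by linarith)) (mul_ne_zero d2 fun h => ?_)
    have := (f2 s (by linarith)).2.1
    rw [h] at this
    norm_num at this
  · obtain ⟨D, d1, -, -, d4⟩ := key s hs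
    rw [d4, mul_comm, ← mul_assoc, inv_mul_cancel₀ (g5 s (by linarith)), one_mul, norm_mul]
    exact mul_le_mul d1 (f2 s (by linarith)).1 (norm_nonneg _) ((norm_nonneg _).trans d1)
  · simp only [hΛ]
    rw [harg, q6 n hn hA, mul_zero]
  · have h1 := q7 n hn hA
    have h2 := (hbb n).1
    have hn' : (1 : ℝ) ≤ n := by exact_mod_cast hn
    have h3 := hcancel n (lam * (γ - β) - 1 / 2)
    have h4 : 0 < ‖gamR μ (β + n * Complex.I)‖ := norm_pos_iff.2 (g5 _ (by simp; linarith))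
    simp only [hW] at h1
    rw [mul_div_cancel_left₀ _ hlam0.ne'] at h1
    rw [he2] at h2
    rw [abs_of_nonneg (by linarith : (0 : ℝ) ≤ n)] at h1 h2 h3
    rw [Complex.ofReal_natCast] at h2
    simp only [hΛ, norm_mul, norm_inv, Complex.norm_exp, harg]
    have h5 : (-((ℓ : ℂ) * (β + n * Complex.I))).re = -(ℓ * β) := by simp
    rw [h5, ← div_eq_mul_inv, le_div_iff₀ h4]
    set X : ℝ := (1 + (n : ℝ)) ^ (-e) * Real.exp (a0 * n) with hX
    set Y : ℝ := (1 + (n : ℝ)) ^ (e - (lam * (γ - β) - 1 / 2)) * Real.exp (-(a0 * n)) with hY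
    have hX0 : 0 < X := by positivity
    have h6 : (1 + (n : ℝ)) ^ (lam * (γ - β) - 5 / 2) * (X * Y) ≤ (n : ℝ) ^ (-2 : ℝ) := by
      rw [h3, ← Real.rpow_add (by positivity)]
      have : lam * (γ - β) - 5 / 2 + -(lam * (γ - β) - 1 / 2) = -2 := by ring
      rw [this]
      exact Real.rpow_le_rpow_of_nonpos (by linarith) (by linarith) (by norm_num)
    apply le_of_mul_le_mul_left _ (by positivity : 0 < C2 * C * X)
    calc _ ≤ C2 * C * X * (Real.exp (-(ℓ * β)) * δ / (C2 * C * Cb) *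
          (1 + (n : ℝ)) ^ (lam * (γ - β) - 5 / 2) * (Cb * Y)) := by gcongr
      _ = Real.exp (-(ℓ * β)) * (δ * ((1 + (n : ℝ)) ^ (lam * (γ - β) - 5 / 2) * (X * Y))) := by
          field_simp
      _ ≤ Real.exp (-(ℓ * β)) * (δ * (n : ℝ) ^ (-2 : ℝ)) := by gcongr
      _ ≤ Real.exp (-(ℓ * β)) * (C2 * C * X * ‖Λ0 ((b : ℂ) + (lam * n : ℝ) * Complex.I)‖) := by
          gcongr
      _ = _ := by ring

end Pool.Agent.H520Z.Sel
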