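import Pool.Agent.H520Z.Sel.Exotic
import Pool.Agent.H360Z.Sel.PoinGen
import Pool.Agent.H458Z.Sel.PsiBounds
import Pool.Agent.H511Z.LamEval
import Pool.Agent.H413Z.Sel.Gens

set_option autoImplicit false

namespace Pool.Agent.H520Z.Sel

open MeasureTheory Set Filter Topology

lemma span_decay (c : ℝ) (S : Set (ℝ → ℝ))
    (hS : ∀ h ∈ S, ∃ K : ℝ, ∀ y, 0 < y → (y ^ (c + 1) + y ^ (c - 1)) * |h y| ≤ K) :
    ∀ h ∈ Submodule.span ℝ S, ∃ K : ℝ, ∀ y, 0 < y → (y ^ (c + 1) + y ^ (c - 1)) * |h y| ≤ K := by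
  intro h hh
  induction hh using Submodule.span_induction with
  | mem h hh => exact hS h hh
  | zero => exact ⟨0, fun y _ => by simp⟩
  | add f g _ _ hf hg =>
    obtain ⟨A, hA⟩ := hf
    obtain ⟨B, hB⟩ := hg
    refine ⟨A + B, fun y hy => ?_⟩
    calc _ ≤ (y ^ (c + 1) + y ^ (c - 1)) * (|f y| + |g y|) := by
          gcongr
          exact abs_add_le _ _
      _ ≤ _ := by rw [mul_add]; exact add_le_add (hA y hy) (hB y hy)
  | smul a f _ hf =>
    obtain ⟨A, hA⟩ := hf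
    refine ⟨|a| * A, fun y hy => ?_⟩
    simp only [Pi.smul_apply, smul_eq_mul, abs_mul]
    calc _ = |a| * ((y ^ (c + 1) + y ^ (c - 1)) * |f y|) := by ring
      _ ≤ _ := by gcongr; exact hA y hy

lemma norm_of_decay {c K : ℝ} {h : ℝ → ℝ}
    (hK : ∀ y, 0 < y → (y ^ (c + 1) + y ^ (c - 1)) * |h y| ≤ K) :
    ∀ y, 0 < y → (y ^ c + y ^ (c - 1)) * |h y| ≤ 2 * K := by
  intro z hz
  have e1 : z ^ c = z ^ (c - 1) * z := by
    rw [← Real.rpow_add_one hz.ne']; congr 1; ring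
  have e2 : z ^ (c + 1) = z ^ (c - 1) * z * z := by
    rw [Real.rpow_add_one hz.ne', e1]
  have a1 : 0 < z ^ (c - 1) := by positivity
  have a2 : z ^ c + z ^ (c - 1) ≤ 2 * (z ^ (c + 1) + z ^ (c - 1)) := by
    rw [e2, e1]
    nlinarith [mul_nonneg a1.le (sq_nonneg (z - 1)), mul_pos a1 (mul_pos hz hz)]
  calc _ ≤ 2 * (z ^ (c + 1) + z ^ (c - 1)) * |h z| := by gcongr
    _ = 2 * ((z ^ (c + 1) + z ^ (c - 1)) * |h z|) := by ring
    _ ≤ 2 * K := by gcongr; exact hK z hz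

/-- A functional `h ↦ ∑ κ n * Re (𝒢 h (w n))`. -/
lemma exists_source {V : Type} [AddCommGroup V] [Module ℝ V] (𝒢 : V →ₗ[ℝ] (ℂ → ℂ)) (w : ℕ → ℂ)
    (κ : ℕ → ℝ) (hs : ∀ h, Summable fun n => κ n * (𝒢 h (w n)).re) :
    ∃ ℓ : V →ₗ[ℝ] ℝ, ∀ h, ℓ h = ∑' n, κ n * (𝒢 h (w n)).re := by
  refine ⟨⟨⟨fun h => ∑' n, κ n * (𝒢 h (w n)).re, fun f g => ?_⟩, fun a f => ?_⟩, fun h => rfl⟩
  · rw [← (hs f).tsum_add (hs g)]
    refine tsum_congr fun n => ?_
    simp only [map_add, Pi.add_apply, Complex.add_re]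
    ring
  · simp only [RingHom.id_apply, smul_eq_mul]
    rw [← tsum_mul_left]
    refine tsum_congr fun n => ?_
    simp only [map_smul, Pi.smul_apply, Complex.smul_re, smul_eq_mul]
    ring

lemma summable_theta (x : ℕ → ℝ) (hx : ∀ p : ℕ, p.Prime → |x p| ≤ 1 + Real.log p) (a lam : ℝ)
    (ha : 0 < a) (hlam : 0 < lam) :
    Summable fun n : ℕ => ec x n * Real.exp (-(a * (n : ℝ) ^ (1 / lam))) := by
  obtain ⟨K, hK⟩ := exp_decay a lam ha hlam
  obtain ⟨C, hC⟩ := ec_ram x hx 1 one_pos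
  have h1 : Summable fun n : ℕ => C * K * (n : ℝ) ^ (-2 : ℝ) :=
    (Real.summable_nat_rpow.2 (by norm_num)).mul_left _
  refine Summable.of_norm_bounded h1 fun n => ?_
  rcases Nat.eq_zero_or_pos n with rfl | hn
  · simp [ec_zero]
  have hn' : (0 : ℝ) < n := by exact_mod_cast hn
  rw [Real.norm_eq_abs, abs_mul]
  calc _ ≤ (C * (n : ℝ) ^ (1 : ℝ)) * (K * (n : ℝ) ^ (-3 : ℝ)) :=
        mul_le_mul (hC n hn) (hK n hn) (abs_nonneg _) ((abs_nonneg _).trans (hC n hn))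
    _ = C * K * ((n : ℝ) ^ (1 : ℝ) * (n : ℝ) ^ (-3 : ℝ)) := by ring
    _ = _ := by rw [← Real.rpow_add hn']; norm_num

/-- Prescribing zeros and large values on the line `Re s = β`. -/
theorem interp (β γ : ℝ) (hβ : 1 / 2 < β) (hβγ : β < γ) (hγ : γ < 1) : ∃ lam0 : ℝ,
    ∀ lam : ℝ, lam0 ≤ lam → ∀ A : Set ℕ, ∃ (Q : ℝ) (c : ℕ → ℝ) (F : ℂ → ℂ), Exo lam Q c F ∧
      (∀ n : ℕ, 1 ≤ n → n ∈ A → F (β + n * Complex.I) = 0) ∧
      ∃ δ : ℝ, 0 < δ ∧ ∀ n : ℕ, 1 ≤ n → n ∉ A →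
        δ * (n : ℝ) ^ ((γ - β) * lam - 5) ≤ ‖F (β + n * Complex.I)‖ := by
  classical
  obtain ⟨L, hL1, hasm⟩ := assemble γ hγ
  have hL1' : (1 : ℝ) ≤ L := by exact_mod_cast hL1
  refine ⟨max (6 * L) (7 / (γ - β)), fun lam hlam A => ?_⟩
  have hl1 : 6 * (L : ℝ) ≤ lam := (le_max_left _ _).trans hlam
  have hl2 : 7 ≤ (γ - β) * lam := by
    have := (le_max_right _ _).trans hlam
    rw [div_le_iff₀ (by linarith)] at this
    linarith
  have hlam0 : 0 < lam := by linarith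
  set c : ℝ := γ * lam with hc
  set c1 : ℝ := c - 6 with hc1
  set b : ℝ := β * lam with hb
  have hb1 : lam / 2 < b := by rw [hb]; nlinarith
  have hb2 : b < c1 := by rw [hb, hc1, hc]; nlinarith
  obtain ⟨g1, g2⟩ := mrep_gens lam b lam c c1 hlam0 hlam0 hb1 hb2 (by linarith)
  obtain ⟨K0, K, A0, hK0, w1, w2, w3⟩ := psi_bounds lam b lam c c1 hlam0 hlam0 hb1 hb2 (by linarith)
  set W : ℝ → ℝ := fun u => K0 * (1 + |u|) ^ (5 / 2 - c) * Real.exp (Real.pi / 2 * |u|) with hW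
  have hWp : ∀ u, 0 < W u := fun u => by simp only [hW]; positivity
  set w : ℕ → ℂ := fun n => (b : ℂ) + (lam * n : ℝ) * Complex.I with hw
  set S : Set (ℝ → ℝ) := {h | (∃ t : ℝ, 0 < t ∧
      h = fun y => Real.exp (-(t * y)) - t ^ (-lam) * Real.exp (-(y / t))) ∨
      ∃ (n : ℕ) (ζ : ℂ), 1 ≤ n ∧ h = fun y => (ζ * Hw lam (w n) y).re} with hS
  obtain ⟨C0, C1, hC0, hC1, hP, 𝒢, hG1, hG2⟩ := poincare_gen lam c c1 A0 K (-1) (by simp)
    (Psi2 lam b lam (c - 1 / 2)) (Psi1 lam b lam c1) W S (by linarith) (by linarith) (by linarith)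
    w1 w2 w3 (by
      rintro h (⟨t, ht, rfl⟩ | ⟨n, ζ, hn, rfl⟩)
      · exact ⟨_, (g1 t ht).1⟩
      · obtain ⟨⟨G, hG, -⟩, -⟩ := g2 n ζ hn
        exact ⟨G, hG⟩)
  have hD := span_decay c S (by
    rintro h (⟨t, ht, rfl⟩ | ⟨n, ζ, hn, rfl⟩)
    · exact (g1 t ht).2
    · exact (g2 n ζ hn).2)
  obtain ⟨η, hη, δ, hδ, hx⟩ := hasm (Submodule.span ℝ S) lam c c1 C0 (by linarith) (by linarith) hC0
    (by rw [hc1]; linarith) le_rfl hP hD
  set κ0 : ℝ := Real.pi / lam * Real.sinh (Real.pi * (2 * b - lam) / lam) / 2 with hκ0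
  have hκ0p : 0 < κ0 := by
    have : 0 < Real.sinh (Real.pi * (2 * b - lam) / lam) :=
      Real.sinh_pos_iff.2 (div_pos (mul_pos Real.pi_pos (by linarith)) hlam0)
    have := Real.pi_pos
    positivity
  have hZs : Summable fun n : ℕ => (n : ℝ) ^ (-2 : ℝ) := Real.summable_nat_rpow.2 (by norm_num)
  set Z : ℝ := ∑' n : ℕ, (n : ℝ) ^ (-2 : ℝ) with hZ
  have hZ0 : 0 ≤ Z := tsum_nonneg fun n => by positivity
  set δ' : ℝ := δ * κ0 / ((C1 + 1) * (Z + 1)) with hδ'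
  have hδ'p : 0 < δ' := by positivity
  set v : ℕ → ℝ := fun n => if n ∈ A then 0 else δ' * (n : ℝ) ^ (-2 : ℝ) / W (lam * n) with hv
  have hv0 : v 0 = 0 := by simp [hv]
  have hbd : ∀ (h : Submodule.span ℝ S) (N : ℝ),
      (∀ y, 0 < y → (y ^ c + y ^ (c - 1)) * |(h : ℝ → ℝ) y| ≤ N) →
      ∀ n, ‖v n / κ0 * (𝒢 h (w n)).re‖ ≤ δ' / κ0 * C1 * N * (n : ℝ) ^ (-2 : ℝ) := by
    intro h N hN n
    have hN0 : 0 ≤ N := le_trans (by positivity) (hN 1 one_pos)
    have h1 := hG2 h N hN (w n) (by simp [hw]; linarith) (by simp [hw]; linarith)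
    have h2 : (w n).im = lam * n := by simp [hw]
    rw [h2] at h1
    have h3 : |(𝒢 h (w n)).re| ≤ C1 * N * W (lam * n) := (Complex.abs_re_le_norm _).trans h1
    have h4 := hWp (lam * n)
    simp only [hv]
    split_ifs
    · simp only [zero_div, zero_mul, norm_zero]
      positivity
    · rw [Real.norm_eq_abs, abs_mul, abs_of_nonneg (by positivity)]
      calc _ ≤ δ' * (n : ℝ) ^ (-2 : ℝ) / W (lam * n) / κ0 * (C1 * N * W (lam * n)) := by gcongr
        _ = _ := by field_simp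
  obtain ⟨ℓ, hℓ⟩ := exists_source 𝒢 w (fun n => v n / κ0) (fun h => by
    obtain ⟨K', hK'⟩ := hD h h.2
    exact Summable.of_norm_bounded (hZs.mul_left _) (hbd h _ (norm_of_decay hK')))
  obtain ⟨x, hx1, -, hx3⟩ := hx η hη le_rfl ℓ (fun h N hN => by
    have hN0 : 0 ≤ N := le_trans (by positivity) (hN 1 one_pos)
    rw [hℓ, ← Real.norm_eq_abs]
    refine (tsum_of_norm_bounded (hZs.hasSum.mul_left _) (hbd h N hN)).trans ?_
    have e : δ' / κ0 * C1 * N * Z = δ * N * (C1 / (C1 + 1) * (Z / (Z + 1))) := by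
      rw [hδ']; field_simp
    rw [e]
    apply mul_le_of_le_one_right (by positivity)
    apply mul_le_one₀
    · rw [div_le_one (by positivity)]; linarith
    · positivity
    · rw [div_le_one (by positivity)]; linarith)
  have hxc : ∀ p : ℕ, p.Prime → |x p| ≤ 1 + Real.log p := fun p _ => by
    linarith [hx1 p, Real.log_natCast_nonneg p]
  have hPz : ∀ n : ℕ, Pz lam b lam (w n) = 0 := by
    intro n
    have hl : (lam : ℂ) ≠ 0 := by exact_mod_cast hlam0.ne'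
    have : (Real.pi : ℂ) * (w n - b) / lam = ((n : ℂ) * Real.pi) * Complex.I := by
      simp only [hw]
      push_cast
      field_simp
      ring
    simp only [Pz]
    rw [this, Complex.sinh_mul_I, Complex.sin_nat_mul_pi]
    simp
  have hFE : ∀ t : ℝ, 0 < t → ∑' n : ℕ, ec x n * Real.exp (-(t * (η * (n : ℝ) ^ (1 / lam)))) =
      t ^ (-lam) * ∑' n : ℕ, ec x n * Real.exp (-(η * (n : ℝ) ^ (1 / lam) / t)) := by
    intro t ht
    have hmem : (fun y => Real.exp (-(t * y)) - t ^ (-lam) * Real.exp (-(y / t))) ∈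
        Submodule.span ℝ S := Submodule.subset_span (Or.inl ⟨t, ht, rfl⟩)
    have h1 := hx3 ⟨_, hmem⟩
    rw [hℓ, hG1 ⟨_, hmem⟩ _ (g1 t ht).1] at h1
    simp only [hPz, zero_mul, Complex.zero_re, mul_zero, tsum_zero] at h1
    have h2 := (summable_theta x hxc (t * η) lam (by positivity) hlam0).hasSum.sub
      ((summable_theta x hxc (η / t) lam (by positivity) hlam0).hasSum.mul_left (t ^ (-lam)))
    have h3 : (fun n : ℕ => ec x n * (Real.exp (-(t * (η * (n : ℝ) ^ (1 / lam)))) -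
        t ^ (-lam) * Real.exp (-(η * (n : ℝ) ^ (1 / lam) / t)))) =
        fun n : ℕ => ec x n * Real.exp (-(t * η * (n : ℝ) ^ (1 / lam))) -
          t ^ (-lam) * (ec x n * Real.exp (-(η / t * (n : ℝ) ^ (1 / lam)))) := by
      funext n
      rw [mul_assoc t η, div_mul_eq_mul_div]
      ring
    rw [h3] at h1
    have h4 := sub_eq_zero.1 (h2.unique h1)
    simp only [mul_assoc, div_mul_eq_mul_div] at h4
    exact h4
  obtain ⟨F, hF⟩ := exo_of_theta lam η hlam0 hη x hxc hFE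
  obtain ⟨CR, hCR⟩ := ec_ram x hxc 1 one_pos
  have hval : ∀ n : ℕ, 1 ≤ n → ((η ^ (-lam) : ℝ) : ℂ) ^ ((β : ℂ) + n * Complex.I) *
      Complex.Gamma (w n) * F (β + n * Complex.I) = v n := by
    intro n hn
    have h1 := lambda_eval lam η 1 CR 1 hlam0 hη (ec x) (ec_zero x) hCR hFE F hF.diff hF.ser
      (β + n * Complex.I) (by simp; linarith)
    have h2 : (lam : ℂ) * (β + n * Complex.I) = w n := by
      simp only [hw, hb]
      push_cast
      ring
    rw [h2] at h1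
    have key : ∀ ζ : ℂ, (ζ * (((η ^ (-lam) : ℝ) : ℂ) ^ ((β : ℂ) + n * Complex.I) *
        Complex.Gamma (w n) * F (β + n * Complex.I))).re = (ζ * v n).re := by
      intro ζ
      have hmem : (fun y => (ζ * Hw lam (w n) y).re) ∈ Submodule.span ℝ S :=
        Submodule.subset_span (Or.inr ⟨n, ζ, hn, rfl⟩)
      have h3 := hx3 ⟨_, hmem⟩
      obtain ⟨⟨G, hG, hGv⟩, -⟩ := g2 n ζ hn
      rw [hℓ, hG1 ⟨_, hmem⟩ G hG, tsum_eq_single n (fun m hm => by
        rcases Nat.eq_zero_or_pos m with rfl | hm0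
        · simp [hv0]
        · simp only [hw]
          rw [hGv m hm0, if_neg hm]
          simp)] at h3
      simp only [hw] at h3
      rw [hGv n hn, if_pos rfl] at h3
      have h4 := Complex.hasSum_re (h1.mul_left ζ)
      have h5 : (fun m : ℕ => (ζ * (((ec x m : ℝ) : ℂ) *
          Hw lam (w n) (η * (m : ℝ) ^ (1 / lam)))).re) = fun m : ℕ => ec x m *
          (ζ * Hw lam (w n) (η * (m : ℝ) ^ (1 / lam))).re := by
        funext m
        rw [mul_left_comm, Complex.re_ofReal_mul]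
      rw [h5] at h4
      rw [h4.unique h3, Complex.re_mul_ofReal, Complex.re_mul_ofReal]
      field_simp
    apply Complex.ext
    · simpa using key 1
    · have := key (-Complex.I)
      simp only [neg_mul, Complex.neg_re, Complex.I_mul_re, neg_neg] at this
      exact this
  have hQ : 0 < η ^ (-lam) := Real.rpow_pos_of_pos hη _
  have hbp : 0 < b := by linarith
  have hGne : ∀ n : ℕ, Complex.Gamma (w n) ≠ 0 := fun n =>
    Complex.Gamma_ne_zero_of_re_pos (by simp [hw]; linarith)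
  refine ⟨_, x, F, hF, fun n hn hA => ?_, ?_⟩
  · have h1 := hval n hn
    simp only [hv, hA, if_true, Complex.ofReal_zero, mul_eq_zero] at h1
    rcases h1 with (h1 | h1) | h1
    · rw [Complex.cpow_eq_zero_iff] at h1
      exact absurd (by exact_mod_cast h1.1) hQ.ne'
    · exact absurd h1 (hGne n)
    · exact h1
  · set K2 : ℝ := (η ^ (-lam)) ^ β * (Real.exp 1 * Real.Gamma b * (Real.pi / 2) ^ b) with hK2
    have hGb : 0 < Real.Gamma b := Real.Gamma_pos_of_pos hbp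
    have hK2p : 0 < K2 := by have := Real.pi_pos; positivity
    refine ⟨δ' / (K0 * K2), by positivity, fun n hn hA => ?_⟩
    have hn' : (1 : ℝ) ≤ n := by exact_mod_cast hn
    have h1 := congrArg norm (hval n hn)
    rw [norm_mul, norm_mul, Complex.norm_cpow_eq_rpow_re_of_pos hQ, Complex.norm_real] at h1
    simp only [hv, hA, if_false, Complex.add_re, Complex.ofReal_re, Complex.mul_re,
      Complex.natCast_re, Complex.I_re, mul_zero, Complex.natCast_im, Complex.I_im, mul_one,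
      sub_self, add_zero] at h1
    have hWn := hWp (lam * n)
    rw [Real.norm_of_nonneg (by positivity)] at h1
    have a2 := Pool.Agent.Helper242.KK.norm_Gamma_le (lam * n) hbp
    set U : ℝ := 1 + |lam * n| with hU
    have hU1 : (n : ℝ) ≤ U := by
      rw [hU, abs_of_pos (by positivity)]
      nlinarith
    have hUp : 0 < U := by linarith
    rw [Real.mul_rpow (by positivity) hUp.le, Real.exp_sub] at a2
    have he : 0 < Real.exp (Real.pi / 2 * |lam * n|) := Real.exp_pos _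
    have a3 : δ' * (n : ℝ) ^ (-2 : ℝ) ≤ K0 * K2 * U ^ (5 / 2 - c + b) *
        ‖F (β + n * Complex.I)‖ := by
      rw [eq_div_iff hWn.ne'] at h1
      rw [← h1, Real.rpow_add hUp]
      calc _ ≤ (η ^ (-lam)) ^ β * (Real.exp 1 / Real.exp (Real.pi / 2 * |lam * n|) * Real.Gamma b *
            ((Real.pi / 2) ^ b * U ^ b)) * ‖F (β + n * Complex.I)‖ * W (lam * n) := by
            gcongr
        _ = _ := by
            simp only [hW, hK2, ← hU]
            field_simp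
    have a4 : U ^ (5 / 2 - c + b) ≤ (n : ℝ) ^ (5 / 2 - c + b) :=
      Real.rpow_le_rpow_of_nonpos (by linarith) hU1 (by linarith)
    have a5 : (n : ℝ) ^ ((γ - β) * lam - 5) * (n : ℝ) ^ (5 / 2 - c + b) ≤ (n : ℝ) ^ (-2 : ℝ) := by
      rw [← Real.rpow_add (by linarith)]
      apply Real.rpow_le_rpow_of_exponent_le hn'
      rw [hc, hb]
      linarith
    have a6 : 0 < (n : ℝ) ^ (5 / 2 - c + b) := by positivity
    rw [div_mul_eq_mul_div, div_le_iff₀ (by positivity)]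
    apply le_of_mul_le_mul_right _ a6
    calc δ' * (n : ℝ) ^ ((γ - β) * lam - 5) * (n : ℝ) ^ (5 / 2 - c + b)
        ≤ δ' * (n : ℝ) ^ (-2 : ℝ) := by rw [mul_assoc]; gcongr
      _ ≤ _ := a3
      _ ≤ K0 * K2 * (n : ℝ) ^ (5 / 2 - c + b) * ‖F (β + n * Complex.I)‖ := by gcongr
      _ = _ := by ring

end Pool.Agent.H520Z.Sel
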