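import Pool.Agent.H520Z.Sel.AssembleMC
import Pool.Agent.H520Z.Sel.Interp
import Pool.Agent.H428Z.MelKer
import Pool.Agent.H339Z.Polar.Main

set_option autoImplicit false

namespace Pool.Agent.H520Z.Sel

open MeasureTheory Set Filter Topology


lemma mrep_kernel (k c2 c1 : ℝ) (E E' : ℝ → ℝ) (Ψ : ℂ → ℂ) (b : ℝ) (hb1 : b < c1) (hb2 : b < c2)
    (hE : ∀ y, 0 < y → HasDerivAt E (E' y) y) (hE' : ContinuousOn E' (Ioi 0))
    (hM : ∀ w : ℂ, b < w.re → HasMellin (fun y => (E y : ℂ)) w (Ψ w) ∧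
      HasMellin (fun y => ((y * E' y : ℝ) : ℂ)) w (-(w * Ψ w))) {t : ℝ} (ht : 0 < t) :
    MRep k c2 c1 (-1) (fun u => Ψ ((c2 : ℂ) + u * Complex.I))
      (fun u => -(((c1 : ℂ) + u * Complex.I) * Ψ ((c1 : ℂ) + u * Complex.I)))
      (fun y => E (t * y) - t ^ (-k) * E (y / t)) (H511.Gt k t) := by
  refine ⟨fun y => E' (t * y) * t - t ^ (-k) * (E' (y / t) * t⁻¹), fun y hy => ?_, ?_, ?_,
    H511.Gt_bound k t _ _, fun w => ?_, fun u => ?_, fun u => ?_⟩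
  · have e1 : HasDerivAt (fun y => t * y) t y := by simpa using (hasDerivAt_id y).const_mul t
    have e2 : HasDerivAt (fun y => y / t) t⁻¹ y := by
      simpa [one_div] using (hasDerivAt_id y).div_const t
    exact ((hE _ (mul_pos ht hy)).comp y e1).sub
      (((hE _ (div_pos hy ht)).comp y e2).const_mul _)
  · have e1 : ContinuousOn (fun y => E' (t * y)) (Ioi 0) :=
      hE'.comp (by fun_prop) fun y hy => mul_pos ht hy
    have e2 : ContinuousOn (fun y => E' (y / t)) (Ioi 0) :=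
      hE'.comp (by fun_prop) fun y hy => div_pos hy ht
    exact (e1.mul continuousOn_const).sub
      (continuousOn_const.mul (e2.mul continuousOn_const))
  · unfold H511.Gt; fun_prop
  · unfold H511.Gt
    simp only [map_sub, ← Complex.exp_conj, map_mul, map_neg, Complex.conj_ofReal]
    ring_nf
  · obtain ⟨h1, -⟩ := hM ((c2 : ℂ) + u * Complex.I) (by simpa using hb2)
    have := H511.gen_mellin k E _ h1.1 ht
    rwa [h1.2] at this
  · obtain ⟨-, h1⟩ := hM ((c1 : ℂ) + u * Complex.I) (by simpa using hb1)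
    have := H511.gen_mellin k (fun y => y * E' y) _ h1.1 ht
    rw [h1.2] at this
    convert this using 3 with y
    rw [div_eq_mul_inv]; ring_nf

lemma Pz_lower (k b T a : ℝ) (hT : 0 < T) (hb : k / 2 < b) (ha : b < a) :
    ∃ l : ℝ, 0 < l ∧ ∀ w : ℂ, a ≤ w.re → l ≤ ‖Pz k b T w‖ := by
  have hpi := Real.pi_pos
  have h0 : 0 < Real.sinh (Real.pi * (a - b) / T) :=
    Real.sinh_pos_iff.2 (div_pos (mul_pos hpi (by linarith)) hT)
  refine ⟨Real.sinh (Real.pi * (a - b) / T) * Real.sinh (Real.pi * (a - b) / T), by positivity,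
    fun w hw => ?_⟩
  rw [H413.Pz_eq, norm_mul]
  apply mul_le_mul _ _ h0.le (norm_nonneg _)
  · refine le_trans ?_ (Pool.Agent.H458Z.SelAux.sinh_le_norm _)
    rw [H413.re_arg]
    apply Real.sinh_le_sinh.2
    gcongr
  · refine le_trans ?_ (Pool.Agent.H458Z.SelAux.sinh_le_norm _)
    rw [H413.re_arg]
    apply Real.sinh_le_sinh.2
    gcongr
    linarith

lemma Pz_conj (k b T : ℝ) (w : ℂ) :
    Pz k b T (starRingEnd ℂ w) = starRingEnd ℂ (Pz k b T w) := by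
  unfold Pz
  rw [map_mul, ← Complex.sinh_conj, ← Complex.sinh_conj]
  simp only [map_div₀, map_mul, map_sub, map_add, Complex.conj_ofReal]

theorem kernel_interp (γ : ℝ) (hγ : γ < 1) : ∃ L : ℕ, 1 ≤ L ∧
    ∀ (lam b c A0 K : ℝ) (Ψ0 : ℂ → ℂ) (W : ℝ → ℝ) (ph : ℝ → ℕ → ℝ),
      6 * (L : ℝ) ≤ lam → lam / 2 < b → b < c - 6 → c ≤ γ * lam →
      DifferentiableOn ℂ Ψ0 {w : ℂ | b < w.re} →
      (∀ w : ℂ, b < w.re → Ψ0 (starRingEnd ℂ w) = starRingEnd ℂ (Ψ0 w)) →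
      (∀ a b' : ℝ, b < a → ∃ K : ℝ, ∀ w : ℂ, a ≤ w.re → w.re ≤ b' →
        ‖Ψ0 w‖ ≤ K / (1 + |w.im|) ^ 3) →
      (∀ u v, W u ≤ W v * Real.exp (A0 * |u - v|)) →
      (∀ u : ℝ, 1 ≤ W u * ‖Ψ0 (((c - 1 / 2 : ℝ) : ℂ) + u * Complex.I)‖) →
      (∀ u : ℝ, W u * ‖(((c - 6 : ℝ) : ℂ) + u * Complex.I) *
        Ψ0 (((c - 6 : ℝ) : ℂ) + u * Complex.I)‖ ≤ K / (1 + u ^ 2)) →
      (∀ x, ph x 0 = 1 ∧ ph x 1 = x) → (∀ k, 1 ≤ k → ph 0 k = 0) →
      (∀ x x' : ℝ, |x| ≤ 1 / 2 → |x'| ≤ 1 / 2 → ∀ k, |ph x k - ph x' k| ≤ 2 * 2 ^ k * |x - x'|) →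
      ∃ η0 δ : ℝ, 0 < η0 ∧ 0 < δ ∧ ∀ η : ℝ, 0 < η → η ≤ η0 → ∀ A : Set ℕ,
        ∃ (x : ℕ → ℝ) (Λ : ℂ → ℂ), (∀ p, |x p| ≤ 1 / 2) ∧ x 2 = 0 ∧
          Summable (fun n : ℕ => |mc (fun p => ph (x p)) n| * (n : ℝ) ^ (-(c / lam))) ∧
          Differentiable ℂ Λ ∧
          (∀ σ₁ σ₂ : ℝ, ∃ K : ℝ, ∀ w : ℂ, σ₁ ≤ w.re → w.re ≤ σ₂ → ‖Λ w‖ ≤ K) ∧
          (∀ w : ℂ, Λ ((lam : ℂ) - w) = Λ w) ∧
          (∀ w : ℂ, Λ (starRingEnd ℂ w) = starRingEnd ℂ (Λ w)) ∧
          (∀ w : ℂ, c < w.re → HasSum (fun n : ℕ => ((mc (fun p => ph (x p)) n : ℝ) : ℂ) *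
            ((η * (n : ℝ) ^ (1 / lam) : ℝ) : ℂ) ^ (-w) * Ψ0 w) (Λ w)) ∧
          (∀ n : ℕ, 1 ≤ n → n ∈ A → Λ ((b : ℂ) + (lam * n : ℝ) * Complex.I) = 0) ∧
          ∀ n : ℕ, 1 ≤ n → n ∉ A → δ * (n : ℝ) ^ (-2 : ℝ) ≤
            W (lam * n) * ‖Λ ((b : ℂ) + (lam * n : ℝ) * Complex.I)‖ := by
  classical
  obtain ⟨L, hL1, hasm⟩ := assemble_mc γ hγ
  have hL1' : (1 : ℝ) ≤ L := by exact_mod_cast hL1
  refine ⟨L, hL1, ?_⟩
  intro lam b c A0 K Ψ0 W ph hl1 hb1 hb2 hcγ hΨd hΨc hΨb hW hW2 hW1 hph1 hph0 hphL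
  have hlam0 : 0 < lam := by linarith
  set c1 : ℝ := c - 6 with hc1
  have hWp : ∀ u, 0 < W u := fun u => by
    by_contra hneg
    have := mul_nonpos_of_nonpos_of_nonneg (not_lt.1 hneg)
      (norm_nonneg (Ψ0 (((c - 1 / 2 : ℝ) : ℂ) + u * Complex.I)))
    linarith [hW2 u]
  set Ψ : ℂ → ℂ := fun w => Ψ0 w / Pz lam b lam w with hΨ
  obtain ⟨E, E', k1, k2, k3, k4⟩ := kernel_of_mellin b Ψ
    (hΨd.div (H413.diff_Pz lam b lam).differentiableOn fun w hw => H413.Pz_ne hlam0 hb1 hw)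
    (fun w hw => by simp only [hΨ, map_div₀, hΨc w hw, Pz_conj])
    (fun a b' ha => by
      obtain ⟨K1, hK1⟩ := hΨb a b' ha
      obtain ⟨l, hl, hl'⟩ := Pz_lower lam b lam a hlam0 hb1 ha
      refine ⟨K1 / l, fun w h1 h2 => ?_⟩
      simp only [hΨ, norm_div]
      rw [div_right_comm]
      exact div_le_div₀ ((norm_nonneg _).trans (hK1 w h1 h2)) (hK1 w h1 h2) hl (hl' w h1))
  obtain ⟨l2, U, hl2, hU⟩ := Pool.Agent.H458Z.SelAux.pz_bounds lam b lam (c - 1 / 2) hlam0 hb1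
    (by linarith)
  obtain ⟨l1, U1, hl1', hU1⟩ := Pool.Agent.H458Z.SelAux.pz_bounds lam b lam c1 hlam0 hb1
    (by linarith)
  have hUp : 0 < U := lt_of_lt_of_le hl2 ((hU 0).1.trans (hU 0).2)
  set w : ℕ → ℂ := fun n => (b : ℂ) + (lam * n : ℝ) * Complex.I with hw
  have hgen := fun (t : ℝ) (ht : 0 < t) => mrep_kernel lam (c - 1 / 2) c1 E E' Ψ b (by linarith)
    (by linarith) k1 k2 k4 ht
  obtain ⟨C0, C1, hC0, hC1, hP, 𝒢, hG1, hG2⟩ := poincare_gen lam c c1 A0 (U * K / l1) (-1) (by simp)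
    (fun u => Ψ (((c - 1 / 2 : ℝ) : ℂ) + u * Complex.I))
    (fun u => -(((c1 : ℂ) + u * Complex.I) * Ψ ((c1 : ℂ) + u * Complex.I))) (fun u => U * W u)
    {h | ∃ t : ℝ, 0 < t ∧ h = fun y => E (t * y) - t ^ (-lam) * E (y / t)}
    (by linarith) (by linarith) (by linarith)
    (fun u v => by rw [mul_assoc]; exact mul_le_mul_of_nonneg_left (hW u v) hUp.le)
    (fun u => by
      simp only [hΨ, norm_div]
      have h1 := hU u
      have h2 : 0 < ‖Pz lam b lam (((c - 1 / 2 : ℝ) : ℂ) + u * Complex.I)‖ :=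
        lt_of_lt_of_le hl2 h1.1
      rw [mul_div_assoc', le_div_iff₀ h2, one_mul, mul_assoc]
      exact h1.2.trans (le_mul_of_one_le_right hUp.le (hW2 u)))
    (fun u => by
      simp only [hΨ, norm_neg]
      have h1 := hU1 u
      have h2 := hW1 u
      have h3 := hWp u
      rw [← mul_div_assoc, norm_div]
      calc _ ≤ U * W u * (‖((c1 : ℂ) + u * Complex.I) * Ψ0 ((c1 : ℂ) + u * Complex.I)‖ / l1) := by
            gcongr
            exact h1.1
        _ = U / l1 * (W u * ‖((c1 : ℂ) + u * Complex.I) * Ψ0 ((c1 : ℂ) + u * Complex.I)‖) := by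
            ring
        _ ≤ U / l1 * (K / (1 + u ^ 2)) := by gcongr
        _ = _ := by ring)
    (by
      rintro h ⟨t, ht, rfl⟩
      exact ⟨_, hgen t ht⟩)
  have hD := Vsp_decay lam c E (k3 _ (by linarith)) (k3 _ (by linarith))
  obtain ⟨η0, hη0, δ, hδ, hx⟩ := hasm (Vsp lam E) lam c c1 C0 (by linarith) (by linarith) hC0
    (by rw [hc1]; linarith) hcγ hP hD ph hph1 hph0 hphL
  set κ0 : ℝ := Real.pi / lam * Real.sinh (Real.pi * (2 * b - lam) / lam) / 2 with hκ0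
  have hκ0p : 0 < κ0 := by
    have : 0 < Real.sinh (Real.pi * (2 * b - lam) / lam) :=
      Real.sinh_pos_iff.2 (div_pos (mul_pos Real.pi_pos (by linarith)) hlam0)
    have := Real.pi_pos
    positivity
  have hZs : Summable fun n : ℕ => (n : ℝ) ^ (-2 : ℝ) := Real.summable_nat_rpow.2 (by norm_num)
  set Z : ℝ := ∑' n : ℕ, (n : ℝ) ^ (-2 : ℝ) with hZ
  have hZ0 : 0 ≤ Z := tsum_nonneg fun n => by positivity
  set δ' : ℝ := δ / ((C1 * U + 1) * (Z + 1)) with hδ'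
  have hδ'p : 0 < δ' := by positivity
  refine ⟨η0, δ' * κ0, hη0, by positivity, fun η hη hηη0 A => ?_⟩
  set v : ℕ → ℝ := fun n => if n ∈ A then 0 else δ' * (n : ℝ) ^ (-2 : ℝ) / W (lam * n) with hv
  have hv0 : v 0 = 0 := by simp [hv]
  have hbd : ∀ (h : Vsp lam E) (N : ℝ),
      (∀ y, 0 < y → (y ^ c + y ^ (c - 1)) * |(h : ℝ → ℝ) y| ≤ N) →
      ∀ n, ‖v n * (𝒢 h (w n)).re‖ ≤ δ' * (C1 * U) * N * (n : ℝ) ^ (-2 : ℝ) := by
    intro h N hN n
    have hN0 : 0 ≤ N := le_trans (by positivity) (hN 1 one_pos)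
    have h1 := hG2 h N hN (w n) (by simp [hw]; linarith) (by simp [hw]; linarith)
    have h2 : (w n).im = lam * n := by simp [hw]
    rw [h2] at h1
    have h3 : |(𝒢 h (w n)).re| ≤ C1 * N * (U * W (lam * n)) := (Complex.abs_re_le_norm _).trans h1
    have h4 := hWp (lam * n)
    simp only [hv]
    split_ifs
    · simp only [zero_mul, norm_zero]
      positivity
    · rw [Real.norm_eq_abs, abs_mul, abs_of_nonneg (by positivity)]
      calc _ ≤ δ' * (n : ℝ) ^ (-2 : ℝ) / W (lam * n) * (C1 * N * (U * W (lam * n))) := by gcongr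
        _ = _ := by field_simp
  obtain ⟨ℓ, hℓ⟩ := exists_source (V := Vsp lam E) 𝒢 w v (fun h => by
    obtain ⟨K', hK'⟩ := hD h h.2
    exact Summable.of_norm_bounded (hZs.mul_left _) (hbd h _ (norm_of_decay hK')))
  obtain ⟨x, hx1, hx2, hx3, hx4⟩ := hx η hη hηη0 ℓ (fun h N hN => by
    have hN0 : 0 ≤ N := le_trans (by positivity) (hN 1 one_pos)
    refine le_trans (le_of_eq (congrArg (fun r => |r|) (hℓ h))) ?_
    rw [← Real.norm_eq_abs]
    refine (tsum_of_norm_bounded (hZs.hasSum.mul_left _) (hbd h N hN)).trans ?_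
    have e : δ' * (C1 * U) * N * Z = δ * N * (C1 * U / (C1 * U + 1) * (Z / (Z + 1))) := by
      rw [hδ']; field_simp
    rw [e]
    apply mul_le_of_le_one_right (by positivity)
    apply mul_le_one₀
    · rw [div_le_one (by positivity)]; linarith
    · positivity
    · rw [div_le_one (by positivity)]; linarith)
  obtain ⟨K3, hK3⟩ := hΨb (c - 1 / 2) (c - 1 / 2) (by linarith)
  have hvs : Summable fun n => |v n| := by
    refine Summable.of_nonneg_of_le (fun n => abs_nonneg _) (fun n => ?_)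
      (hZs.mul_left (δ' * |K3|))
    simp only [hv]
    split_ifs
    · simp only [abs_zero]
      positivity
    · have h1 := hWp (lam * n)
      have h2 := hW2 (lam * n)
      have h3 := hK3 (((c - 1 / 2 : ℝ) : ℂ) + (lam * n : ℝ) * Complex.I) (by simp) (by simp)
      have h4 : ‖Ψ0 (((c - 1 / 2 : ℝ) : ℂ) + (lam * n : ℝ) * Complex.I)‖ ≤ |K3| :=
        h3.trans ((div_le_div_of_nonneg_right (le_abs_self _) (by positivity)).trans
          (div_le_self (abs_nonneg _) (one_le_pow₀ (le_add_of_nonneg_right (abs_nonneg _)))))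
      rw [abs_of_nonneg (by positivity), div_le_iff₀ h1]
      have h5 : 1 ≤ |K3| * W (lam * n) := by nlinarith
      calc δ' * (n : ℝ) ^ (-2 : ℝ) = δ' * (n : ℝ) ^ (-2 : ℝ) * 1 := by ring
        _ ≤ δ' * (n : ℝ) ^ (-2 : ℝ) * (|K3| * W (lam * n)) := by gcongr
        _ = _ := by ring
  obtain ⟨Λ, q1, q2, q3, q4, q5, q6⟩ := hecke_polar lam b lam c η hlam0 hb1 (by linarith)
    (by linarith) hη E (fun y hy => (k1 y hy).continuousAt.continuousWithinAt) k3 Ψ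
    (fun w hw => (k4 w hw).1) (mc (fun p => ph (x p))) (fun n => η * (n : ℝ) ^ (1 / lam)) v
    (fun n hn => by
      have hn1 : (1 : ℝ) ≤ n := by
        rcases Nat.eq_zero_or_pos n with rfl | h
        · exact absurd (MC.mc_zero _) hn
        · exact_mod_cast h
      exact le_mul_of_one_le_right hη.le (Real.one_le_rpow hn1 (by positivity)))
    (by
      refine (hx3.mul_left (η ^ (-c))).congr fun n => ?_
      rw [Real.mul_rpow hη.le (by positivity), ← Real.rpow_mul (Nat.cast_nonneg _)]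
      have : 1 / lam * -c = -(c / lam) := by ring
      rw [this]
      ring)
    hvs hv0
    (fun t ht => by
      have hmem : (fun y => E (t * y) - t ^ (-lam) * E (y / t)) ∈ Vsp lam E :=
        Submodule.subset_span ⟨t, ht, rfl⟩
      have h1 := hx4 ⟨_, hmem⟩
      have h3 : 𝒢 ⟨_, hmem⟩ = H511.Gt lam t := hG1 ⟨_, hmem⟩ _ (hgen t ht)
      have h2 : ℓ ⟨_, hmem⟩ = ∑' n, v n * (H511.Gt lam t (w n)).re :=
        (hℓ ⟨_, hmem⟩).trans (congrArg (fun G : ℂ → ℂ => ∑' n, v n * (G (w n)).re) h3)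
      have h4 : HasSum (fun n => mc (fun p => ph (x p)) n *
          (E (t * (η * (n : ℝ) ^ (1 / lam))) - t ^ (-lam) * E (η * (n : ℝ) ^ (1 / lam) / t)))
          (∑' n, v n * (H511.Gt lam t (w n)).re) := h2 ▸ h1
      convert h4 using 4 with n
      simp only [H511.Gt, H511.cpow_exp ht, hw])
  refine ⟨x, Λ, hx1, hx2, hx3, q1, q2, q3, q4, fun s hs => ?_, fun n hn hA => ?_, fun n hn hA => ?_⟩
  · convert q5 s hs using 3 with n
    simp only [hΨ]
    rw [mul_div_cancel₀ _ (H413.Pz_ne hlam0 hb1 (by linarith))]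
  · rw [q6 n hn]
    simp [hv, hA]
  · rw [q6 n hn, Complex.norm_real]
    have h1 := hWp (lam * n)
    simp only [hv, hA, if_false]
    rw [← hκ0, Real.norm_of_nonneg (by positivity)]
    apply le_of_eq
    field_simp

end Pool.Agent.H520Z.Sel
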