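import Pool.Agent.H520Z.Sel.SDefs
import Pool.Agent.H520Z.Sel.Pack
import Pool.Agent.H520Z.Sel.PL

set_option autoImplicit false

namespace Pool.Agent.H520Z.Sel

open Set Filter Topology

lemma summable_prime_coef (c : ℕ → ℝ) (hc : ∀ p : ℕ, p.Prime → |c p| ≤ 1 + Real.log p) {s : ℂ}
    (hs : 1 < s.re) : LSeriesSummable (fun n => if n.Prime then (c n : ℂ) else 0) s := by
  have hθ : 0 < (s.re - 1) / 2 := by linarith
  refine LSeriesSummable_of_le_const_mul_rpow (x := 1 + (s.re - 1) / 2) (by linarith)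
    ⟨1 + 1 / ((s.re - 1) / 2), fun n hn => ?_⟩
  rw [add_sub_cancel_left]
  beta_reduce
  split_ifs with hp
  · rw [Complex.norm_real, Real.norm_eq_abs]
    exact (hc n hp).trans (one_add_log_le _ hθ n hp.one_lt.le)
  · simp only [norm_zero]
    positivity

lemma Exo.selberg {lam Q : ℝ} {c : ℕ → ℝ} {F : ℂ → ℂ} (h : Exo lam Q c F) :
    Selberg (fun n => ((ec c n : ℝ) : ℂ)) F (2 * lam) := by
  refine ⟨by simp [ec_one], fun s hs => ⟨(LSeries_ec c s (summable_primes c h.hc hs)).LSeriesSummable,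
    h.ser s hs⟩, h.isSel.2.1, ⟨0, F, h.diff, h.order, fun s _ => by simp⟩,
    ⟨Q, 1, fun _ => lam, fun _ => 0, 1, h.Q_pos, fun _ => h.lam_pos, fun _ => by simp, norm_one,
      by simp, fun s _ _ h1 h2 => ?_⟩,
    fun n => if n.Prime then (c n : ℂ) else 0, 1 / 4, 1 + 1 / (1 / 4), by norm_num,
    fun n hn => ?_, fun n hn => ?_, fun s hs => ⟨summable_prime_coef c h.hc hs, ?_⟩⟩
  · have := h.fe s (fun n => by simpa using h1 0 n) (fun n => by simpa using h2 0 n)
    simpa using this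
  · have : ¬ n.Prime := fun hp => hn hp.isPrimePow
    simp [this]
  · beta_reduce
    split_ifs with hp
    · rw [Complex.norm_real, Real.norm_eq_abs]
      exact (h.hc n hp).trans (one_add_log_le _ (by norm_num) n hn)
    · simp only [norm_zero]
      positivity
  · rw [h.ser s hs, h.euler s hs, LSeries_prime]

lemma pow_lip (K0 e : ℝ) (hK0 : 0 ≤ K0) (he : 0 ≤ e) (u v : ℝ) :
    K0 * (1 + |u|) ^ e ≤ K0 * (1 + |v|) ^ e * Real.exp (e * |u - v|) := by
  have h1 : 1 + |u| ≤ (1 + |v|) * Real.exp |u - v| := by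
    have a1 := Real.add_one_le_exp |u - v|
    have a2 := abs_sub_abs_le_abs_sub u v
    nlinarith [abs_nonneg v, abs_nonneg (u - v)]
  rw [mul_assoc]
  apply mul_le_mul_of_nonneg_left _ hK0
  calc _ ≤ ((1 + |v|) * Real.exp |u - v|) ^ e := Real.rpow_le_rpow (by positivity) h1 he
    _ = _ := by rw [Real.mul_rpow (by positivity) (Real.exp_pos _).le, ← Real.exp_mul, mul_comm e]

/-- Convexity: a bound on the critical line propagates to the right. -/
lemma Exo.convex {lam Q : ℝ} {c : ℕ → ℝ} {F : ℂ → ℂ} (h : Exo lam Q c F) {e K : ℝ} (he : 0 ≤ e)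
    (hK : ∀ t : ℝ, ‖F (1 / 2 + t * Complex.I)‖ ≤ K * (1 + |t|) ^ e) :
    ∃ K' : ℝ, ∀ s : ℂ, 1 / 2 ≤ s.re → s.re ≤ 2 → ‖F s‖ ≤ K' * (1 + |s.im|) ^ e := by
  obtain ⟨C, hC, hPL⟩ := gauss_PL (1 / 2) 2 e (by norm_num)
  have hs2 := (LSeries_ec c 2 (summable_primes c h.hc (by norm_num))).LSeriesSummable.norm
  set B : ℝ := ∑' n, ‖LSeries.term (fun n => ((ec c n : ℝ) : ℂ)) 2 n‖ with hB
  have hB0 : 0 ≤ B := tsum_nonneg fun n => norm_nonneg _
  have hK0 : 0 ≤ K := by
    have := hK 0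
    simp only [abs_zero, add_zero, Real.one_rpow, mul_one] at this
    exact (norm_nonneg _).trans this
  obtain ⟨M, K1, hM⟩ := h.strip (1 / 2) 2
  refine ⟨C * (K + B), fun s h1 h2 => ?_⟩
  rw [mul_assoc]
  refine hPL F (fun u => (K + B) * (1 + |u|) ^ e) h.diff ⟨|K1| + |M|, 1, fun w a1 a2 => ?_⟩
    (pow_lip _ e (by positivity) he) (fun w hw => ?_) s h1 h2
  · refine (hM w a1 a2).trans ?_
    have b1 : (1 + |w.im|) ^ M ≤ Real.exp ((|K1| + |M|) * (1 + |w.im|) ^ (1 : ℝ)) := by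
      rw [Real.rpow_one, Real.rpow_def_of_pos (by positivity)]
      apply Real.exp_le_exp.2
      have b2 : Real.log (1 + |w.im|) ≤ 1 + |w.im| :=
        (Real.log_le_sub_one_of_pos (by positivity)).trans (by linarith)
      have b3 : 0 ≤ Real.log (1 + |w.im|) := Real.log_nonneg (by linarith [abs_nonneg w.im])
      nlinarith [le_abs_self M, abs_nonneg M, abs_nonneg K1, abs_nonneg w.im]
    exact mul_le_mul (by linarith [le_abs_self K1, abs_nonneg M]) b1 (by positivity)
      (by positivity)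
  · have b1 : 1 ≤ (1 + |w.im|) ^ e := Real.one_le_rpow (by linarith [abs_nonneg w.im]) he
    rcases hw with hw | hw
    · have b2 : w = 1 / 2 + w.im * Complex.I := by
        apply Complex.ext <;> simp [hw]
      have := hK w.im
      rw [← b2] at this
      nlinarith
    · rw [h.ser w (by linarith)]
      have b2 : ‖LSeries (fun n => ((ec c n : ℝ) : ℂ)) w‖ ≤ B :=
        tsum_of_norm_bounded hs2.hasSum fun n => by
          rw [LSeries.norm_term_eq, LSeries.norm_term_eq, hw]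
          simp
      nlinarith

end Pool.Agent.H520Z.Sel
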