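import Mathlib

set_option autoImplicit false

namespace Pool.Agent.H520Z.Sel

/-- `Selberg a F d`: the Dirichlet series with coefficients `a` lies in the Selberg class, `F` is
its continuation to `ℂ \ {1}`, and `d` is its degree. -/
def Selberg (a : ℕ → ℂ) (F : ℂ → ℂ) (d : ℝ) : Prop :=
  a 1 = 1 ∧
  (∀ s : ℂ, 1 < s.re → LSeriesSummable a s ∧ F s = LSeries a s) ∧
  (∀ ε : ℝ, 0 < ε → ∃ C : ℝ, ∀ n : ℕ, 1 ≤ n → ‖a n‖ ≤ C * (n : ℝ) ^ ε) ∧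
  (∃ (m : ℕ) (G : ℂ → ℂ), Differentiable ℂ G ∧
    (∃ ρ C : ℝ, ∀ s : ℂ, ‖G s‖ ≤ C * Real.exp (‖s‖ ^ ρ)) ∧
    ∀ s : ℂ, s ≠ 1 → G s = (s - 1) ^ m * F s) ∧
  (∃ (Q : ℝ) (r : ℕ) (lam : Fin r → ℝ) (μ : Fin r → ℂ) (ω : ℂ), 0 < Q ∧ (∀ j, 0 < lam j) ∧
    (∀ j, 0 ≤ (μ j).re) ∧ ‖ω‖ = 1 ∧ d = 2 * ∑ j, lam j ∧
    ∀ s : ℂ, s ≠ 0 → s ≠ 1 → (∀ j, ∀ n : ℕ, (lam j : ℂ) * s + μ j ≠ -(n : ℂ)) →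
      (∀ j, ∀ n : ℕ, (lam j : ℂ) * (1 - starRingEnd ℂ s) + μ j ≠ -(n : ℂ)) →
      (Q : ℂ) ^ s * (∏ j, Complex.Gamma ((lam j : ℂ) * s + μ j)) * F s =
        ω * starRingEnd ℂ ((Q : ℂ) ^ (1 - starRingEnd ℂ s) *
          (∏ j, Complex.Gamma ((lam j : ℂ) * (1 - starRingEnd ℂ s) + μ j)) *
          F (1 - starRingEnd ℂ s))) ∧
  (∃ (b : ℕ → ℂ) (θ C : ℝ), θ < 1 / 2 ∧ (∀ n : ℕ, ¬ IsPrimePow n → b n = 0) ∧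
    (∀ n : ℕ, 1 ≤ n → ‖b n‖ ≤ C * (n : ℝ) ^ θ) ∧
    ∀ s : ℂ, 1 < s.re → LSeriesSummable b s ∧ F s = Complex.exp (LSeries b s))

end Pool.Agent.H520Z.Sel
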